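import Pool.Agent.Q85.VL.Assem

/-!
Project VL: the assembly of the parts with the conditions at a dense set of times only.
-/

set_option autoImplicit false

open MeasureTheory Set Metric Filter Topology
open scoped ContDiff
open H459R3.NS Pool.Agent.W268.NS Pool.Agent.Q67.VD

namespace Pool.Agent.J4H12.VL

open Pool.Agent.Q85.CC Pool.Agent.Q85.CL Pool.Agent.Q151.CC Pool.Agent.Q85.VL

/-- `D` meets all the open subintervals of `(T₀, T)`. -/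
def Dn (D : Set ℝ) (T₀ T : ℝ) : Prop :=
  ∀ s₁ s₂ : ℝ, T₀ ≤ s₁ → s₁ < s₂ → s₂ ≤ T → ∃ t ∈ Ioo s₁ s₂, t ∈ D

lemma Dn.mono {D : Set ℝ} {T₀ T₁ T : ℝ} (h : Dn D T₀ T) (h1 : T₀ ≤ T₁) : Dn D T₁ T :=
  fun s₁ s₂ a b c => h s₁ s₂ (h1.trans a) b c

lemma Dn.gt {D : Set ℝ} {T₁ T : ℝ} (hD : Dn D T₁ T) {φ : ℝ → ℝ} (hφ : ContinuousOn φ (Ioo T₁ T))
    {t : ℝ} (ht : t ∈ Ioo T₁ T) {c : ℝ} (h : c < φ t) : ∃ t' ∈ Ioo T₁ T, t' ∈ D ∧ c < φ t' := by
  have h1 : ∀ᶠ s in 𝓝 t, c < φ s :=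
    (hφ.continuousAt (Ioo_mem_nhds ht.1 ht.2)).eventually (lt_mem_nhds h)
  have h2 : {s | c < φ s} ∩ Ioo T₁ T ∈ 𝓝 t := inter_mem h1 (Ioo_mem_nhds ht.1 ht.2)
  obtain ⟨s₁, s₂, hs, hsub⟩ := mem_nhds_iff_exists_Ioo_subset.1 h2
  have h3 : Ioo s₁ s₂ ⊆ Ioo T₁ T := fun z hz => (hsub hz).2
  have hss : s₁ < s₂ := hs.1.trans hs.2
  rw [Ioo_subset_Ioo_iff hss] at h3
  obtain ⟨t', ht', htD⟩ := hD s₁ s₂ h3.1 hss h3.2
  exact ⟨t', (hsub ht').2, htD, (hsub ht').1⟩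

lemma om_joint {T : ℝ} {u : ℝ → V → V}
    (hu : ContDiffOn ℝ ∞ (fun z : ℝ × V => u z.1 z.2) (Ioo 0 T ×ˢ univ)) :
    ContinuousOn (fun z : ℝ × V => om (u z.1) z.2) (Ioo 0 T ×ˢ univ) := by
  have hp : ∀ i j : Fin 3, ContinuousOn (fun z : ℝ × V => gradM (u z.1) z.2 i j)
      (Ioo 0 T ×ˢ univ) := fun i j =>
    W335.MD.pd_cont (g := fun t y => u t y j) (contDiffOn_pi.1 hu j) i
  have hv : ∀ k : Fin 3, ContinuousOn (fun z : ℝ × V => vort (u z.1) z.2 k)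
      (Ioo 0 T ×ˢ univ) := by
    intro k
    fin_cases k
    · exact (hp 1 2).sub (hp 2 1)
    · exact (hp 2 0).sub (hp 0 2)
    · exact (hp 0 1).sub (hp 1 0)
  have h1 : ContinuousOn (fun z : ℝ × V => vort (u z.1) z.2 ⬝ᵥ vort (u z.1) z.2)
      (Ioo 0 T ×ˢ univ) := by
    simp only [dot3]
    exact (((hv 0).mul (hv 0)).add ((hv 1).mul (hv 1))).add ((hv 2).mul (hv 2))
  exact h1.sqrt

lemma int_om_cont {T : ℝ} {u : ℝ → V → V}
    (hu : ContDiffOn ℝ ∞ (fun z : ℝ × V => u z.1 z.2) (Ioo 0 T ×ˢ univ)) (x : V) (r : ℝ) :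
    ContinuousOn (fun t => ∫ y in closedBall x r, om (u t) y) (Ioo 0 T) := by
  intro t ht
  apply ContinuousAt.continuousWithinAt
  obtain ⟨α, hα⟩ : ∃ α, α = t / 2 := ⟨_, rfl⟩
  obtain ⟨β, hβ⟩ : ∃ β, β = (t + T) / 2 := ⟨_, rfl⟩
  have h1 : 0 < α := by rw [hα]; linarith [ht.1]
  have h2 : α < t := by rw [hα]; linarith [ht.1]
  have h3 : t < β := by rw [hβ]; linarith [ht.2]
  have h4 : β < T := by rw [hβ]; linarith [ht.2]
  obtain ⟨cl, hcl⟩ : ∃ cl : ℝ → ℝ, cl = fun t => max α (min β t) := ⟨_, rfl⟩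
  have hclc : Continuous cl := by rw [hcl]; fun_prop
  have hclm : ∀ s, cl s ∈ Ioo 0 T := by
    intro s
    rw [hcl]
    exact ⟨h1.trans_le (le_max_left _ _), (max_le (h2.trans h3).le (min_le_left _ _)).trans_lt h4⟩
  have hF : Continuous (Function.uncurry fun (s : ℝ) (y : V) => om (u (cl s)) y) := by
    have h5 : Continuous fun z : ℝ × V => (cl z.1, z.2) :=
      (hclc.comp continuous_fst).prodMk continuous_snd
    exact (om_joint hu).comp_continuous (f := fun z : ℝ × V => (cl z.1, z.2)) h5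
      fun z => ⟨hclm z.1, mem_univ _⟩
  have h6 := continuous_parametric_integral_of_continuous (μ := volume) hF
    (isCompact_closedBall x r)
  refine h6.continuousAt.congr ?_
  filter_upwards [Ioo_mem_nhds h2 h3] with s hs
  have h7 : cl s = s := by
    rw [hcl]
    simp only
    rw [min_eq_right hs.2.le, max_eq_right hs.1.le]
  rw [h7]

/-- The outcome of the pinching argument, at the times in `D`. -/
def Pin2D (D : Set ℝ) (T₀ T : ℝ) (a : V) (ρ₀ : ℝ) (u : ℝ → V → V) : Prop :=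
  ∃ b c : ℝ, 0 < b ∧ 0 < c ∧ c ≤ 1 ∧
    ∀ η τ : ℝ, 0 < η → η ≤ 1 → 0 < τ → τ ≤ 1 → ∃ (N : ℕ) (S₀ : ℝ), 0 < S₀ ∧
      ∀ t ∈ Ioo T₀ T, t ∈ D → ∀ x ∈ closedBall a (ρ₀ / 2), ∀ S ρ : ℝ, 0 < S → S ≤ S₀ → 0 < ρ →
        ρ ≤ (1 / 256) ^ N * S → η * ρ ≤ ∫ y in closedBall x ρ, om (u t) y →
        ∃ k < N, ∀ s : ℝ, (1 / 256) ^ k * (S / 4) / 64 ≤ s → s ≤ (1 / 256) ^ k * (S / 4) / 32 →
          (∃ z, ‖z - x‖ = s ∧ ∫ y in closedBall z (b * ((1 / 256) ^ k * (S / 4))), om (u t) y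
            ≤ τ * ((1 / 256) ^ k * (S / 4))) ∧
          ∀ w : ℝ, 0 < w → w ≤ s / 4 → c * η * w ≤ ∫ y in Shell x s w, om (u t) y

set_option maxHeartbeats 1600000 in
theorem assemD (hVel : StmVelL) (hEn : StmEnL) (hEnS : StmEnS) (hReg : Pool.Agent.Q95.CL.StmRegK)
    (hGood : StmGoodS) (hAna : StmAnaS) {T E : ℝ} {O : Set V} {u : ℝ → V → V} {p : ℝ → V → ℝ}
    (hT : 0 < T) (hu : LSl T E O u p) {T₀ K ρ₀ : ℝ} {a : V} (hT₀ : 0 ≤ T₀) (hT₀T : T₀ < T)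
    (hK : 0 < K) (hρ₀ : 0 < ρ₀) (hO : closedBall a ρ₀ ⊆ O)
    (hMor : ∀ t ∈ Ioo T₀ T, MorB K a ρ₀ (om (u t))) {D : Set ℝ} (hDn : Dn D T₀ T)
    (hP : Pin2D D T₀ T a ρ₀ u) :
    ∃ B δ : ℝ, 0 < δ ∧ ∀ t ∈ Ioo (T - δ) T, 0 < t → ∀ x ∈ closedBall a δ, ‖u t x‖ ≤ B := by
  obtain ⟨CV, hCV, hVel⟩ := hVel
  obtain ⟨cG, hcG, hGood⟩ := hGood
  by_contra hcon
  have hIoo : ∀ t ∈ Ioo T₀ T, t ∈ Ioo 0 T := fun t ht => ⟨hT₀.trans_lt ht.1, ht.2⟩
  have hE0 : 0 ≤ E := by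
    have h1 : (T₀ + T) / 2 ∈ Ioo 0 T := ⟨by linarith, by linarith⟩
    exact (integral_nonneg fun y => nsq_nnL _ _).trans (hu.en _ h1)
  -- the dissipation
  obtain ⟨C₁, r₁, hC₁, hr₁, hdis⟩ := hEn T E O u p hT hu T₀ K ρ₀ a hT₀ hT₀T hK hρ₀ hO hMor
  -- the mollified velocity
  obtain ⟨KV, hKVd⟩ : ∃ KV, KV = CV * (K + √(E / ρ₀ ^ 3)) := ⟨_, rfl⟩
  have hKV : 0 ≤ KV := by rw [hKVd]; positivity
  have hmol : ∀ τ ∈ Ioo T₀ T, ∀ y, ‖y - a‖ ≤ ρ₀ / 2 → ∀ ρ, 0 < ρ → ρ ≤ ρ₀ / 4 → ρ ≤ 1 →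
      ‖W221.NS.mol ρ u τ y‖ ≤ KV / ρ := by
    intro τ hτ y hy ρ hρ hρR hρ1
    have hτI := hIoo τ hτ
    rw [pi_norm_le_iff_of_nonneg (by positivity)]
    intro i
    have h1 := (hVel (u τ) a K ρ₀ ρ (slice_u hu.toLEq hτI)
      (fun x hx => hu.divfree τ hτI x (hO (ball_subset_closedBall hx))) hK.le hρ hρR
      (hMor τ hτ) y hy i).2
    rw [Real.norm_eq_abs]
    refine h1.trans ?_
    rw [hKVd, mul_div_assoc]
    refine mul_le_mul_of_nonneg_left ?_ hCV.le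
    rw [add_div]
    have henb : ∫ z in closedBall a ρ₀, W221.NS.nsq (u τ) z ≤ E :=
      (setIntegral_mono_set (hu.en_int τ hτI) (Eventually.of_forall fun y => nsq_nnL _ _)
        hO.eventuallyLE).trans (hu.en τ hτI)
    have h2 : √((∫ z in closedBall a ρ₀, W221.NS.nsq (u τ) z) / ρ₀ ^ 3) ≤ √(E / ρ₀ ^ 3) :=
      Real.sqrt_le_sqrt (div_le_div_of_nonneg_right henb (by positivity))
    have h3 : √(E / ρ₀ ^ 3) ≤ √(E / ρ₀ ^ 3) / ρ := by
      rw [le_div_iff₀ hρ]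
      exact mul_le_of_le_one_right (Real.sqrt_nonneg _) hρ1
    linarith
  obtain ⟨ε, hε, hReg⟩ := hReg KV hKV
  obtain ⟨cS, hcS, hSmall⟩ := hEnS ε hε
  -- the constants of the parts
  obtain ⟨b, cP, hb, hcP, hcP1, hPin⟩ := hP
  obtain ⟨h, L, hh, hh1, hL, hGood⟩ := hGood KV C₁ hKV hC₁
  obtain ⟨r₀, hr₀, hGood⟩ := hGood T E O u p hT hu a ρ₀ hρ₀ hO
  obtain ⟨η, hηd⟩ : ∃ η, η = min (cS / 2) 1 := ⟨_, rfl⟩
  have hη : 0 < η := by rw [hηd]; exact lt_min (by positivity) one_pos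
  have hη1 : η ≤ 1 := by rw [hηd]; exact min_le_right _ _
  have hηc : 2 * η ≤ cS := by
    have : η ≤ cS / 2 := by rw [hηd]; exact min_le_left _ _
    linarith
  obtain ⟨τ, w₀, hτ, hw₀, hw₀h, hAna⟩ := hAna cG h (8 * cP * η) b hcG hh hh1 (by positivity) hb
  obtain ⟨τ', hτ'd⟩ : ∃ τ', τ' = min τ 1 := ⟨_, rfl⟩
  have hτ' : 0 < τ' := by rw [hτ'd]; exact lt_min hτ one_pos
  have hτ'1 : τ' ≤ 1 := by rw [hτ'd]; exact min_le_right _ _
  have hτ'τ : τ' ≤ τ := by rw [hτ'd]; exact min_le_left _ _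
  obtain ⟨N, S₀, hS₀, hPin⟩ := hPin η τ' hη hη1 hτ' hτ'1
  -- the large scale
  have hL0 : 0 < L := by linarith
  obtain ⟨S, hSd⟩ : ∃ S, S = min (min S₀ (min (ρ₀ / 4) 1)) (min r₀ (min (r₁ / L)
    ((T - T₀) / (2 * L)))) := ⟨_, rfl⟩
  have hS : 0 < S := by
    rw [hSd]
    refine lt_min (lt_min hS₀ (lt_min (by positivity) one_pos)) (lt_min hr₀ (lt_min (by positivity)
      ?_))
    exact div_pos (by linarith) (by positivity)
  have hS0 : S ≤ S₀ := by rw [hSd]; exact (min_le_left _ _).trans (min_le_left _ _)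
  have hS1 : S ≤ ρ₀ / 4 := by
    rw [hSd]; exact (min_le_left _ _).trans ((min_le_right _ _).trans (min_le_left _ _))
  have hSle1 : S ≤ 1 := by
    rw [hSd]; exact (min_le_left _ _).trans ((min_le_right _ _).trans (min_le_right _ _))
  have hS2 : S ≤ r₀ := by rw [hSd]; exact (min_le_right _ _).trans (min_le_left _ _)
  have hS3 : S ≤ r₁ / L := by
    rw [hSd]; exact (min_le_right _ _).trans ((min_le_right _ _).trans (min_le_left _ _))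
  have hS4 : S ≤ (T - T₀) / (2 * L) := by
    rw [hSd]; exact (min_le_right _ _).trans ((min_le_right _ _).trans (min_le_right _ _))
  -- concentration
  obtain ⟨ρ', hρ'd⟩ : ∃ ρ', ρ' = min ((1 / 256) ^ N * S) (ρ₀ / 4) := ⟨_, rfl⟩
  have hρ' : 0 < ρ' := by rw [hρ'd]; exact lt_min (by positivity) (by positivity)
  have hρ'1 : ρ' ≤ (1 / 256) ^ N * S := by rw [hρ'd]; exact min_le_left _ _
  have hρ'2 : ρ' ≤ ρ₀ / 4 := by rw [hρ'd]; exact min_le_right _ _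
  obtain ⟨T₁, hT₁d⟩ : ∃ T₁, T₁ = max ((T₀ + T) / 2) (T / 2) := ⟨_, rfl⟩
  have hT₁1 : (T₀ + T) / 2 ≤ T₁ := by rw [hT₁d]; exact le_max_left _ _
  have hT₁2 : T / 2 ≤ T₁ := by rw [hT₁d]; exact le_max_right _ _
  have hT₁T : T₁ < T := by rw [hT₁d]; exact max_lt (by linarith) (by linarith)
  have hex : ∃ t, T₁ < t ∧ t < T ∧ ∃ x ρ, 0 < ρ ∧ ‖x - a‖ + ρ ≤ ρ' ∧
      2 * η * ρ ≤ ∫ y in closedBall x ρ, om (u t) y := by
    by_contra hno
    push Not at hno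
    obtain ⟨r₂, hr₂, hsm⟩ := hSmall T E O u p hT hu T₁ ρ' a (by linarith) hT₁T hρ'
      ((closedBall_subset_closedBall (by linarith)).trans hO) (by
        intro t ht x r hr hxr
        have h1 := hno t ht.1 ht.2 x r hr hxr
        rw [abs_omL]
        exact h1.le.trans (mul_le_mul_of_nonneg_right hηc hr.le))
    obtain ⟨r₃, hr₃d⟩ : ∃ r₃, r₃ = min r₂ (min (ρ₀ / 4) 1) := ⟨_, rfl⟩
    have hr₃ : 0 < r₃ := by rw [hr₃d]; exact lt_min hr₂ (lt_min (by positivity) one_pos)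
    have hr₃2 : r₃ ≤ r₂ := by rw [hr₃d]; exact min_le_left _ _
    have hr₃3 : r₃ ≤ ρ₀ / 4 := by rw [hr₃d]; exact (min_le_right _ _).trans (min_le_left _ _)
    have hr₃4 : r₃ ≤ 1 := by rw [hr₃d]; exact (min_le_right _ _).trans (min_le_right _ _)
    obtain ⟨B, δ, hδ, hbd⟩ := hReg T E O u p hT hu ((T₁ + T) / 2) r₃ (ρ' / 2) a
      (by linarith) (by linarith) hr₃ (by positivity)
      ((closedBall_subset_closedBall (by linarith)).trans hO)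
      (fun t ht x hx r hr => hmol t ⟨by linarith [ht.1], ht.2⟩ x (by
        rw [mem_closedBall, dist_eq_norm] at hx
        linarith) r hr.1 (hr.2.trans hr₃3) (hr.2.trans hr₃4))
      (fun t ht x hx r hr => hsm t ht x hx r ⟨hr.1, hr.2.trans hr₃2⟩)
    refine hcon ⟨B, min δ (ρ' / 4), lt_min hδ (by positivity), fun t ht ht0 x hx => ?_⟩
    refine hbd t ⟨?_, ht.2⟩ ht0 x (closedBall_subset_closedBall ?_ hx)
    · linarith [ht.1, min_le_left δ (ρ' / 4)]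
    · linarith [min_le_right δ (ρ' / 4)]
  obtain ⟨t', ht1', ht2', x, ρ, hρ, hxρ, hconc'⟩ := hex
  obtain ⟨t, ht12, htD, hconc''⟩ := (hDn.mono (by linarith : T₀ ≤ T₁)).gt
    (φ := fun t => ∫ y in closedBall x ρ, om (u t) y)
    ((int_om_cont hu.smooth_u x ρ).mono (Ioo_subset_Ioo (by linarith) le_rfl))
    (t := t') ⟨ht1', ht2'⟩ (c := η * ρ) (by
      have : 0 < η * ρ := by positivity
      linarith)
  have ht1 : T₁ < t := ht12.1
  have ht2 : t < T := ht12.2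
  have hconc : η * ρ ≤ ∫ y in closedBall x ρ, om (u t) y := hconc''.le
  have htT : t ∈ Ioo T₀ T := ⟨by linarith, ht2⟩
  have hxa : ‖x - a‖ ≤ ρ₀ / 4 := by linarith
  have hρρ' : ρ ≤ ρ' := by linarith [norm_nonneg (x - a)]
  have hsm := slice_u hu.toLEq (hIoo t htT)
  -- the cone
  obtain ⟨k, hk, hpin⟩ := hPin t htT htD x (by
    rw [mem_closedBall, dist_eq_norm]
    linarith) S ρ hS hS0 hρ (hρρ'.trans hρ'1) hconc
  -- the scale
  obtain ⟨r, hrd⟩ : ∃ r, r = (1 / 256) ^ k * (S / 4) := ⟨_, rfl⟩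
  rw [← hrd] at hpin
  have hr : 0 < r := by rw [hrd]; positivity
  have hrS : r ≤ S := by
    rw [hrd]
    have h1 : (1 / 256 : ℝ) ^ k ≤ 1 := pow_le_one₀ (by norm_num) (by norm_num)
    have h2 : (1 / 256) ^ k * (S / 4) ≤ 1 * (S / 4) := mul_le_mul_of_nonneg_right h1 (by positivity)
    linarith
  have hr1 : r ≤ 1 := hrS.trans hSle1
  have hLr : L * r ≤ r₁ := by
    rw [le_div_iff₀ hL0] at hS3
    have h2 : L * r ≤ L * S := mul_le_mul_of_nonneg_left hrS hL0.le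
    linarith
  have hLr2 : L * r ^ 2 ≤ (T - T₀) / 2 := by
    rw [le_div_iff₀ (by positivity)] at hS4
    have h1 : r ^ 2 ≤ r := pow_le_of_le_one hr.le hr1 two_ne_zero
    have h2 : L * r ^ 2 ≤ L * S := mul_le_mul_of_nonneg_left (h1.trans hrS) hL0.le
    linarith
  have hball : ∀ y ∈ closedBall x (ρ₀ / 4), ‖y - a‖ ≤ ρ₀ / 2 := by
    intro y hy
    have h1 : ‖y - a‖ ≤ ‖y - x‖ + ‖x - a‖ := by
      have e1 : y - a = (y - x) + (x - a) := by abel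
      rw [e1]
      exact norm_add_le _ _
    rw [mem_closedBall, dist_eq_norm] at hy
    linarith
  obtain ⟨s, hs, hgd⟩ := hGood t r x hr (hrS.trans hS2) (by linarith) ht2 (by linarith)
    (fun τ hτ y hy ρ hρ => hmol τ ⟨by linarith [hτ.1], hτ.2.trans ht2⟩ y (hball y hy) ρ hρ.1
      (hρ.2.trans (hrS.trans hS1)) (hρ.2.trans hr1))
    (fun y hy ρ hρ => hdis t ⟨by linarith, ht2⟩ y (by
      rw [mem_closedBall, dist_eq_norm]
      exact hball y hy) ρ ⟨hρ.1, hρ.2.trans hLr⟩)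
  -- the shell
  have hs0 : 0 < s := lt_of_lt_of_le (by positivity) hs.1
  obtain ⟨w, hwd⟩ : ∃ w, w = min (w₀ * r) (s / 4) := ⟨_, rfl⟩
  have hw : 0 < w := by rw [hwd]; exact lt_min (by positivity) (by positivity)
  have hw1 : w ≤ w₀ * r := by rw [hwd]; exact min_le_left _ _
  have hw2 : w ≤ s / 4 := by rw [hwd]; exact min_le_right _ _
  obtain ⟨⟨z, hz, hquiet⟩, hflux⟩ := hpin s hs.1 hs.2
  have hflux := hflux w hw hw2
  have hsml := hAna (u t) x z r s hsm hr hs.1 hs.2 hgd hz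
    (hquiet.trans (mul_le_mul_of_nonneg_right hτ'τ hr.le))
  have hvol := vol_shell x s w hw hw2
  have hfin : volume (Shell x s w) < ⊤ := hvol.trans_lt ENNReal.ofReal_lt_top
  have hint : ∫ y in Shell x s w, om (u t) y
      ≤ 8 * cP * η / r ^ 2 * (volume (Shell x s w)).toReal := by
    have h1 := norm_setIntegral_le_of_norm_le_const (μ := volume) (s := Shell x s w)
      (f := om (u t)) (C := 8 * cP * η / r ^ 2) hfin
      (fun y hy => by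
        rw [Real.norm_eq_abs, abs_of_nonneg (om_nnL _ _)]
        exact hsml y (le_trans hy hw1))
    exact (Real.le_norm_self _).trans h1
  have hvr : (volume (Shell x s w)).toReal ≤ 64 * s ^ 2 * w :=
    ENNReal.toReal_le_of_le_ofReal (by positivity) hvol
  have hs2 : s ^ 2 ≤ (r / 32) ^ 2 := pow_le_pow_left₀ hs0.le hs.2 2
  have hvr2 : (volume (Shell x s w)).toReal ≤ r ^ 2 * w / 16 := by
    refine hvr.trans ?_
    have h1 : 64 * s ^ 2 * w ≤ 64 * (r / 32) ^ 2 * w := by gcongr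
    refine h1.trans (le_of_eq ?_)
    ring
  have hfinal : ∫ y in Shell x s w, om (u t) y ≤ cP * η * w / 2 := by
    refine hint.trans ((mul_le_mul_of_nonneg_left hvr2 (by positivity)).trans (le_of_eq ?_))
    field_simp
    ring
  have hpos : 0 < cP * η * w := by positivity
  linarith

/-- The local theorem (viscosity one), the condition is assumed at a dense set of times. -/
def StmLyapD : Prop := ∀ (T E : ℝ) (O : Set V) (u : ℝ → V → V) (p : ℝ → V → ℝ), 0 < T →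
  LSl T E O u p → ∀ (T₀ κ R : ℝ) (a : V) (m : ℝ → V → ℝ) (D : Set ℝ), 0 ≤ T₀ → T₀ < T → 0 < κ →
    0 < R → closedBall a R ⊆ O → Kato T₀ T a R m → Dn D T₀ T →
    (∀ t ∈ Ioo T₀ T, t ∈ D → ∃ (W : V → V) (g : V → ℝ), LF κ R a (om (u t)) (m t) W g) →
    ∃ B δ : ℝ, 0 < δ ∧ ∀ t ∈ Ioo (T - δ) T, 0 < t → ∀ x ∈ closedBall a δ, ‖u t x‖ ≤ B

set_option maxHeartbeats 1600000 in
theorem lyapD (hVel : StmVelL) (hEn : StmEnL) (hEnS : StmEnS) (hReg : Pool.Agent.Q95.CL.StmRegK)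
    (hL1 : StmL1L) (hGood : StmGoodS) (hAna : StmAnaS) (hMorV : StmMorV) (hPinV : StmPinV)
    (hKS : StmKS) : StmLyapD := by
  intro T E O u p hT hu T₀ κ₀ R₀ a m D hT₀ hT₀T hκ₀ hR₀ hO hm hDn hLF₀
  obtain ⟨κ, hκd⟩ : ∃ κ, κ = min κ₀ 1 := ⟨_, rfl⟩
  have hκ : 0 < κ := by rw [hκd]; exact lt_min hκ₀ one_pos
  have hκ1 : κ ≤ 1 := by rw [hκd]; exact min_le_right _ _
  have hκκ : κ ≤ κ₀ := by rw [hκd]; exact min_le_left _ _
  obtain ⟨R, hRd⟩ : ∃ R, R = min R₀ 1 := ⟨_, rfl⟩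
  have hR : 0 < R := by rw [hRd]; exact lt_min hR₀ one_pos
  have hR1 : R ≤ 1 := by rw [hRd]; exact min_le_right _ _
  have hRR : R ≤ R₀ := by rw [hRd]; exact min_le_left _ _
  obtain ⟨T₁, hT₁⟩ : ∃ T₁, T₁ = (T₀ + T) / 2 := ⟨_, rfl⟩
  have hT₁0 : 0 < T₁ := by rw [hT₁]; linarith
  have hT₁T : T₁ < T := by rw [hT₁]; linarith
  have hT₀₁ : T₀ < T₁ := by rw [hT₁]; linarith
  have hIoo : ∀ t ∈ Ioo T₁ T, t ∈ Ioo 0 T := fun t ht => ⟨hT₁0.trans ht.1, ht.2⟩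
  have hIoo' : ∀ t ∈ Ioo T₁ T, t ∈ Ioo T₀ T := fun t ht => ⟨hT₀₁.trans ht.1, ht.2⟩
  -- the fields around the neighbouring points
  have hLF : ∀ t ∈ Ioo T₁ T, t ∈ D → ∀ x S, ‖x - a‖ + S ≤ R →
      ∃ (W : V → V) (g : V → ℝ), LF κ S x (om (u t)) (m t) W g := by
    intro t ht htD x S hS
    obtain ⟨W, g, h⟩ := hLF₀ t (hIoo' t ht) htD
    exact ⟨W, g, h.mono hκκ (by linarith)⟩
  -- the remainder
  have hKm : ∀ μ : ℝ, 0 < μ → ∃ S : ℝ, 0 < S ∧ ∀ t ∈ Ioo T₁ T, t ∈ D → ∀ x, ‖x - a‖ ≤ R / 2 →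
      ∀ S', 0 < S' → S' ≤ S → KS S' x (m t) μ := by
    intro μ hμ
    obtain ⟨S, hS, hKm⟩ := hm (μ / 2) (by positivity)
    refine ⟨min S (R / 2), lt_min hS (by positivity), fun t ht htD x hx S' hS' hSS => ?_⟩
    obtain ⟨W, g, h⟩ := hLF₀ t (hIoo' t ht) htD
    have h1 := hKm t (hIoo' t ht) x S' hS' (hSS.trans (min_le_left _ _))
      (by linarith [hSS.trans (min_le_right S (R / 2))])
    have h2 := hKS S' x (m t) (μ / 2) hS' h.mc h.m0 h1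
    rwa [mul_div_cancel₀ _ (two_ne_zero' ℝ)] at h2
  -- the Morrey bound
  obtain ⟨L, hL, hL1⟩ := hL1 T E O u p hT hu a R T₁ hR
    ((closedBall_subset_closedBall hRR).trans hO) hT₁0 hT₁T
  obtain ⟨S₁, hS₁, hKS₁⟩ := hKm 1 one_pos
  obtain ⟨C, c, hC, hc, hc1, hMorV⟩ := hMorV κ hκ hκ1
  obtain ⟨R', hR'd⟩ : ∃ R', R' = min S₁ (R / 4) := ⟨_, rfl⟩
  have hR' : 0 < R' := by rw [hR'd]; exact lt_min hS₁ (by positivity)
  have hR'1 : R' ≤ S₁ := by rw [hR'd]; exact min_le_left _ _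
  have hR'2 : R' ≤ R / 4 := by rw [hR'd]; exact min_le_right _ _
  obtain ⟨K, hKd⟩ : ∃ K, K = C * (L / R' + 1) := ⟨_, rfl⟩
  have hK : 0 < K := by rw [hKd]; positivity
  obtain ⟨ρ₀, hρd⟩ : ∃ ρ₀, ρ₀ = c * R' := ⟨_, rfl⟩
  have hρ₀ : 0 < ρ₀ := by rw [hρd]; positivity
  have hρR : ρ₀ ≤ R' := by
    rw [hρd]
    exact mul_le_of_le_one_left hR'.le hc1
  have hMorD : ∀ t ∈ Ioo T₁ T, t ∈ D → MorB K a ρ₀ (om (u t)) := by
    intro t ht htD x r hr hxr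
    have hx : ‖x - a‖ ≤ R / 4 := by linarith
    obtain ⟨W, g, hW⟩ := hLF t ht htD x R' (by linarith)
    have hsm := slice_u hu.toLEq (hIoo t ht)
    have h1 := hMorV R' 1 x (om (u t)) (m t) W g hR' hW
      (hKS₁ t ht htD x (by linarith) R' hR' hR'1) r hr (by rw [← hρd]; linarith [norm_nonneg (x - a)])
    rw [abs_omL]
    refine h1.trans (mul_le_mul_of_nonneg_right ?_ hr.le)
    have h2 : ∫ y in closedBall x R', om (u t) y ≤ ∫ y in closedBall a (R / 2), om (u t) y := by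
      refine setIntegral_mono_set ((om_contL hsm).continuousOn.integrableOn_compact
        (isCompact_closedBall _ _)) (Eventually.of_forall fun y => om_nnL _ _) ?_
      refine (closedBall_subset_closedBall' ?_).eventuallyLE
      rw [dist_eq_norm]
      linarith
    have h3 := h2.trans (hL1 t ⟨ht.1.le, ht.2⟩)
    rw [hKd]
    have h4 : (∫ y in closedBall x R', om (u t) y) / R' ≤ L / R' :=
      div_le_div_of_nonneg_right h3 hR'.le
    exact mul_le_mul_of_nonneg_left (by linarith) hC.le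
  have hMor : ∀ t ∈ Ioo T₁ T, MorB K a ρ₀ (om (u t)) := by
    intro t ht x r hr hxr
    by_contra hlt
    rw [not_le, abs_omL] at hlt
    obtain ⟨t', ht', htD', hlt'⟩ := (hDn.mono hT₀₁.le).gt
      (φ := fun t => ∫ y in closedBall x r, om (u t) y)
      ((int_om_cont hu.smooth_u x r).mono (Ioo_subset_Ioo hT₁0.le le_rfl)) ht hlt
    have h1 := hMorD t' ht' htD' x r hr hxr
    rw [abs_omL] at h1
    exact absurd h1 (not_le.2 hlt')
  refine assemD hVel hEn hEnS hReg hGood hAna hT hu hT₁0.le hT₁T hK hρ₀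
    ((closedBall_subset_closedBall (by linarith)).trans hO) hMor (hDn.mono hT₀₁.le) ?_
  -- the pinching argument
  obtain ⟨b, c', hb, hb1, hc', hc'1, hPin⟩ := hPinV κ hκ hκ1
  refine ⟨b, c', hb, hc', hc'1, fun η τ hη hη1 hτ hτ1 => ?_⟩
  obtain ⟨N, hPin⟩ := hPin K η τ hK.le hη hη1 hτ hτ1
  obtain ⟨S₂, hS₂, hKS₂⟩ := hKm (c' * η * τ) (by positivity)
  refine ⟨N, min S₂ (ρ₀ / 2), lt_min hS₂ (by positivity),
    fun t ht htD x hx S ρ hS hSS hρ hρS hconc => ?_⟩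
  have hxa : ‖x - a‖ ≤ ρ₀ / 2 := by
    have := mem_closedBall.1 hx
    rwa [dist_eq_norm] at this
  have hS2 : S ≤ S₂ := hSS.trans (min_le_left _ _)
  have hS3 : S ≤ ρ₀ / 2 := hSS.trans (min_le_right _ _)
  obtain ⟨W, g, hW⟩ := hLF t ht htD x S (by linarith)
  have h1 := hMor t ht x S hS (by linarith)
  rw [abs_omL] at h1
  exact hPin S ρ x (om (u t)) (m t) W g hS hW h1 (hKS₂ t ht htD x (by linarith) S hS hS2) hρ hρS hconc

end Pool.Agent.J4H12.VL
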