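import Pool.Agent.Q85.VL.Defs
import Pool.Agent.Q67.VD.Alg

/-!
Project VL: the smooth step and the smooth distance (`StmBas`), and elementary facts on the
functions `u`, `w` and the cut-offs.
-/

set_option autoImplicit false

open MeasureTheory Set Metric Filter Topology
open scoped ContDiff
open H459R3.NS Pool.Agent.W268.NS Pool.Agent.Q67.VD

namespace Pool.Agent.J4H12.VL

open Pool.Agent.Q85.CC Pool.Agent.Q85.CL Pool.Agent.Q151.CC Pool.Agent.Q85.VL

/-! ### the step -/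

lemma stp_low {s : ℝ} (h : s ≤ 0) : stp s = 0 := by
  unfold stp
  rw [max_eq_left ((min_le_right _ _).trans h)]
  ring

lemma stp_high {s : ℝ} (h : 1 ≤ s) : stp s = 1 := by
  unfold stp
  rw [min_eq_left h, max_eq_right zero_le_one]
  ring

lemma stp_mid {s : ℝ} (h0 : 0 ≤ s) (h1 : s ≤ 1) : stp s = 3 * s ^ 2 - 2 * s ^ 3 := by
  unfold stp
  rw [min_eq_right h1, max_eq_right h0]

lemma stp'_low {s : ℝ} (h : s ≤ 0) : stp' s = 0 := by
  unfold stp'
  rw [max_eq_left ((min_le_right _ _).trans h)]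
  ring

lemma stp'_high {s : ℝ} (h : 1 ≤ s) : stp' s = 0 := by
  unfold stp'
  rw [min_eq_left h, max_eq_right zero_le_one]
  ring

lemma stp'_mid {s : ℝ} (h0 : 0 ≤ s) (h1 : s ≤ 1) : stp' s = 6 * s * (1 - s) := by
  unfold stp'
  rw [min_eq_right h1, max_eq_right h0]

lemma pol_deriv (s : ℝ) : HasDerivAt (fun s : ℝ => 3 * s ^ 2 - 2 * s ^ 3) (6 * s * (1 - s)) s := by
  have h1 := ((hasDerivAt_pow 2 s).const_mul (3 : ℝ)).sub ((hasDerivAt_pow 3 s).const_mul (2 : ℝ))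
  refine HasDerivAt.congr_deriv h1 ?_
  push_cast
  ring

lemma stp_deriv (s : ℝ) : HasDerivAt stp (stp' s) s := by
  rcases lt_trichotomy s 0 with h | h | h
  · rw [stp'_low h.le]
    refine (hasDerivAt_const s (0 : ℝ)).congr_of_eventuallyEq ?_
    filter_upwards [Iio_mem_nhds h] with t ht using stp_low (le_of_lt ht)
  · subst h
    rw [stp'_low le_rfl]
    rw [← hasDerivWithinAt_univ, ← Iic_union_Ici (a := (0 : ℝ))]
    refine HasDerivWithinAt.union ?_ ?_
    · exact (hasDerivWithinAt_const (0 : ℝ) _ (0 : ℝ)).congr (fun t ht => stp_low ht)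
        (stp_low le_rfl)
    · have h1 := (pol_deriv 0).hasDerivWithinAt (s := Ici 0)
      have h2 : (6 * 0 * (1 - 0) : ℝ) = 0 := by ring
      rw [h2] at h1
      refine h1.congr_of_eventuallyEq ?_ (by rw [stp_low le_rfl]; ring)
      have h3 : Iio (1 : ℝ) ∈ 𝓝[Ici 0] (0 : ℝ) := mem_nhdsWithin_of_mem_nhds
        (Iio_mem_nhds zero_lt_one)
      filter_upwards [h3, self_mem_nhdsWithin] with t ht1 ht2 using stp_mid ht2 (le_of_lt ht1)
  rcases lt_trichotomy s 1 with h' | h' | h'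
  · rw [stp'_mid h.le h'.le]
    refine (pol_deriv s).congr_of_eventuallyEq ?_
    filter_upwards [Ioo_mem_nhds h h'] with t ht using stp_mid ht.1.le ht.2.le
  · subst h'
    rw [stp'_high le_rfl]
    rw [← hasDerivWithinAt_univ, ← Iic_union_Ici (a := (1 : ℝ))]
    refine HasDerivWithinAt.union ?_ ?_
    · have h1 := (pol_deriv 1).hasDerivWithinAt (s := Iic 1)
      have h2 : (6 * 1 * (1 - 1) : ℝ) = 0 := by ring
      rw [h2] at h1
      refine h1.congr_of_eventuallyEq ?_ (by rw [stp_high le_rfl]; norm_num)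
      have h3 : Ioi (0 : ℝ) ∈ 𝓝[Iic 1] (1 : ℝ) := mem_nhdsWithin_of_mem_nhds
        (Ioi_mem_nhds zero_lt_one)
      filter_upwards [h3, self_mem_nhdsWithin] with t ht1 ht2 using stp_mid (le_of_lt ht1) ht2
    · exact (hasDerivWithinAt_const (1 : ℝ) _ (1 : ℝ)).congr (fun t ht => stp_high ht)
        (stp_high le_rfl)
  · rw [stp'_high h'.le]
    refine (hasDerivAt_const s (1 : ℝ)).congr_of_eventuallyEq ?_
    filter_upwards [Ioi_mem_nhds h'] with t ht using stp_high (le_of_lt ht)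

lemma stp'_cont : Continuous stp' := by
  unfold stp'
  fun_prop

lemma stp_c1 : ContDiff ℝ 1 stp := contDiff_of_deriv stp_deriv stp'_cont

lemma clamp_mem (s : ℝ) : 0 ≤ max 0 (min 1 s) ∧ max 0 (min 1 s) ≤ 1 :=
  ⟨le_max_left _ _, max_le zero_le_one (min_le_left _ _)⟩

lemma stp'_nn (s : ℝ) : 0 ≤ stp' s := by
  obtain ⟨h0, h1⟩ := clamp_mem s
  unfold stp'
  have : 0 ≤ 1 - max 0 (min 1 s) := by linarith
  positivity

lemma stp'_le (s : ℝ) : stp' s ≤ 2 := by
  unfold stp'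
  nlinarith [sq_nonneg (2 * max 0 (min 1 s) - 1)]

lemma stp_mono : Monotone stp := by
  refine monotone_of_deriv_nonneg (fun s => (stp_deriv s).differentiableAt) fun s => ?_
  rw [(stp_deriv s).deriv]
  exact stp'_nn s

lemma stp_nn (s : ℝ) : 0 ≤ stp s := by
  rcases le_total s 0 with h | h
  · rw [stp_low h]
  · rw [← stp_low (le_refl (0 : ℝ))]
    exact stp_mono h

lemma stp_le (s : ℝ) : stp s ≤ 1 := by
  rcases le_total s 1 with h | h
  · rw [← stp_high (le_refl (1 : ℝ))]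
    exact stp_mono h
  · rw [stp_high h]

lemma stp'_ne {s : ℝ} (h : stp' s ≠ 0) : 0 < s ∧ s < 1 := by
  constructor
  · by_contra h0
    exact h (stp'_low (not_lt.1 h0))
  · by_contra h0
    exact h (stp'_high (not_lt.1 h0))

lemma stp_ne {s : ℝ} (h : stp s ≠ 0) : 0 < s := by
  by_contra h0
  exact h (stp_low (not_lt.1 h0))

lemma stp_ne1 {s : ℝ} (h : stp s ≠ 1) : s < 1 := by
  by_contra h0
  exact h (stp_high (not_lt.1 h0))

/-! ### lengths -/

lemma dotn (a : V) : 0 ≤ a ⬝ᵥ a := dot_nn a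

lemma len_sqd (a : V) : len a ^ 2 = a ⬝ᵥ a := Real.sq_sqrt (dotn a)

lemma norm_le_len (a : V) : ‖a‖ ≤ len a := by
  rw [pi_norm_le_iff_of_nonneg (len_nonneg a)]
  intro i
  rw [Real.norm_eq_abs]
  exact Real.abs_le_sqrt (coord_sq a i)

lemma len_le_norm (a : V) : len a ≤ √3 * ‖a‖ := by
  have h1 : a ⬝ᵥ a ≤ (√3 * ‖a‖) ^ 2 := by
    rw [dot3, mul_pow, Real.sq_sqrt (by norm_num : (0 : ℝ) ≤ 3)]
    have h2 : ∀ i, a i * a i ≤ ‖a‖ ^ 2 := fun i => by
      have h3 := abs_le.1 (norm_le_pi_norm a i)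
      nlinarith
    linarith [h2 0, h2 1, h2 2]
  exact Real.sqrt_le_iff.2 ⟨by positivity, h1⟩

lemma dot_le_ll (a b : V) : |a ⬝ᵥ b| ≤ len a * len b := by
  refine abs_le_of_sq_le_sq ?_ (mul_nonneg (len_nonneg a) (len_nonneg b))
  rw [mul_pow, len_sqd, len_sqd]
  exact cs a b

lemma len_sub_comm (a b : V) : len (a - b) = len (b - a) := by
  unfold len
  congr 1
  rw [dot3, dot3]
  simp only [Pi.sub_apply]
  ring

lemma len_tri (a b : V) : len (a + b) ≤ len a + len b := by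
  refine Real.sqrt_le_iff.2 ⟨by positivity [len_nonneg a, len_nonneg b], ?_⟩
  have h1 := (abs_le.1 (dot_le_ll a b)).2
  have h2 := len_sqd a
  have h3 := len_sqd b
  have h4 : (a + b) ⬝ᵥ (a + b) = a ⬝ᵥ a + 2 * (a ⬝ᵥ b) + b ⬝ᵥ b := by
    rw [dot3, dot3, dot3, dot3]
    simp only [Pi.add_apply]
    ring
  nlinarith

/-- A differentiable function with Lipschitz constant one. -/
lemma lip_fd {g : V → ℝ} (hg : Differentiable ℝ g) (hl : ∀ y z, |g y - g z| ≤ len (y - z))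
    (y n : V) : |fderiv ℝ g y n| ≤ len n := by
  have h1 : HasDerivAt (fun t : ℝ => g (y + t • n)) (fderiv ℝ g y n) 0 :=
    (hg y).hasFDerivAt.hasLineDerivAt n
  have h2 := h1.le_of_lip' (len_nonneg n) (Eventually.of_forall fun t => ?_)
  · rwa [Real.norm_eq_abs] at h2
  · rw [Real.norm_eq_abs]
    refine (hl _ _).trans (le_of_eq ?_)
    rw [zero_smul, add_zero, add_sub_cancel_left, len_smul, sub_zero, Real.norm_eq_abs]
    ring

/-! ### the distance -/

section ds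

set_option linter.unusedSectionVars false

variable (x : V) {ρ : ℝ} (hρ : 0 < ρ)

include hρ

lemma ds_arg (y : V) : 0 < (y - x) ⬝ᵥ (y - x) + ρ ^ 2 := by
  have := dotn (y - x)
  positivity

lemma ds_sq (y : V) : ds x ρ y ^ 2 = (y - x) ⬝ᵥ (y - x) + ρ ^ 2 :=
  Real.sq_sqrt (ds_arg x hρ y).le

lemma ds_pos (y : V) : 0 < ds x ρ y := Real.sqrt_pos.2 (ds_arg x hρ y)

lemma ds_smooth : ContDiff ℝ ∞ (ds x ρ) := by
  have h1 : ContDiff ℝ ∞ fun y : V => (y - x) ⬝ᵥ (y - x) + ρ ^ 2 := by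
    simp only [dot3, Pi.sub_apply]
    fun_prop
  exact h1.sqrt fun y => (ds_arg x hρ y).ne'

lemma len_le_ds (y : V) : len (y - x) ≤ ds x ρ y :=
  Real.sqrt_le_sqrt (by nlinarith)

lemma rho_le_ds (y : V) : ρ ≤ ds x ρ y := by
  refine Real.le_sqrt_of_sq_le ?_
  linarith [dotn (y - x)]

lemma ds_le (y : V) : ds x ρ y ≤ len (y - x) + ρ := by
  refine Real.sqrt_le_iff.2 ⟨by have := len_nonneg (y - x); positivity, ?_⟩
  have h1 := len_sqd (y - x)
  nlinarith [len_nonneg (y - x)]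

lemma norm_le_ds (y : V) : ‖y - x‖ ≤ ds x ρ y := (norm_le_len _).trans (len_le_ds x hρ y)

lemma ds_le2 {y : V} (h : ‖y - x‖ ≤ ρ) : ds x ρ y ≤ 2 * ρ := by
  refine Real.sqrt_le_iff.2 ⟨by positivity, ?_⟩
  have h2 : ∀ i, (y - x) i * (y - x) i ≤ ρ ^ 2 := fun i => by
    have h3 := abs_le.1 ((norm_le_pi_norm (y - x) i).trans h)
    nlinarith
  rw [dot3]
  nlinarith [h2 0, h2 1, h2 2]

lemma ds_lip1 (y z : V) : ds x ρ y ≤ ds x ρ z + len (y - z) := by
  refine Real.sqrt_le_iff.2 ⟨by have := (ds_pos x hρ z).le; have := len_nonneg (y - z); positivity,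
    ?_⟩
  have h1 := ds_sq x hρ z
  have h2 := len_sqd (y - z)
  have h3 := (abs_le.1 (dot_le_ll (z - x) (y - z))).2
  have h4 := len_le_ds x hρ z
  have h5 : (z - x) ⬝ᵥ (y - z) ≤ ds x ρ z * len (y - z) :=
    h3.trans (mul_le_mul_of_nonneg_right h4 (len_nonneg _))
  have h6 : (y - x) ⬝ᵥ (y - x) = (z - x) ⬝ᵥ (z - x) + 2 * ((z - x) ⬝ᵥ (y - z))
      + (y - z) ⬝ᵥ (y - z) := by
    simp only [dot3, Pi.sub_apply]
    ring
  nlinarith

lemma ds_lip (y z : V) : |ds x ρ y - ds x ρ z| ≤ len (y - z) := by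
  rw [abs_le]
  have h1 := ds_lip1 x hρ y z
  have h2 := ds_lip1 x hρ z y
  rw [len_sub_comm] at h2
  constructor <;> linarith

lemma ds_diff : Differentiable ℝ (ds x ρ) :=
  (ds_smooth x hρ).differentiable (by simp)

lemma ds_fd (y n : V) : |fderiv ℝ (ds x ρ) y n| ≤ len n :=
  lip_fd (ds_diff x hρ) (ds_lip x hρ) y n

end ds

theorem bas : StmBas :=
  ⟨stp_deriv, stp_c1, stp'_cont, stp_mono, fun s => ⟨stp_nn s, stp_le s, stp'_nn s, stp'_le s⟩,
    fun _ h => stp_low h, fun _ h => stp_high h, fun _ h => stp'_ne h, fun _ h => stp_ne h,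
    fun _ h => stp_ne1 h, fun x _ hρ => ⟨ds_smooth x hρ, len_le_ds x hρ, rho_le_ds x hρ,
      ds_le x hρ, norm_le_ds x hρ, fun _ h => ds_le2 x hρ h, ds_lip x hρ, ds_fd x hρ⟩⟩

end Pool.Agent.J4H12.VL
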