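import Pool.Agent.J4H12.VL.Bas

/-!
Project VL: common facts on the densities of the flux, and the statements `StmUB`, `StmCmp`,
`StmLB`.
-/

set_option autoImplicit false

open MeasureTheory Set Metric Filter Topology
open scoped ContDiff
open H459R3.NS Pool.Agent.W268.NS Pool.Agent.Q67.VD

namespace Pool.Agent.J4H12.VL

open Pool.Agent.Q85.CC Pool.Agent.Q85.CL Pool.Agent.Q151.CC Pool.Agent.Q85.VL

lemma int_cont {f : V → ℝ} (hf : Continuous f) (x : V) (R : ℝ) :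
    IntegrableOn f (closedBall x R) :=
  hf.continuousOn.integrableOn_compact (isCompact_closedBall x R)

/-! ### derivatives -/

lemma stp_comp_c1 {φ : V → ℝ} (hφ : ContDiff ℝ 1 φ) (a b : ℝ) :
    ContDiff ℝ 1 fun y => stp ((φ y + a) / b) :=
  stp_c1.comp ((hφ.add contDiff_const).div_const b)

lemma stp_comp_fd {φ : V → ℝ} (hφ : ContDiff ℝ 1 φ) (a b : ℝ) (y n : V) :
    fderiv ℝ (fun y => stp ((φ y + a) / b)) y n = stp' ((φ y + a) / b) / b * fderiv ℝ φ y n := by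
  have h1 : HasDerivAt (fun t : ℝ => φ (y + t • n)) (fderiv ℝ φ y n) 0 :=
    (hφ.differentiable one_ne_zero y).hasFDerivAt.hasLineDerivAt n
  have h2 : HasDerivAt (fun t : ℝ => stp ((φ (y + t • n) + a) / b))
      (stp' ((φ (y + (0 : ℝ) • n) + a) / b) * (fderiv ℝ φ y n / b)) 0 :=
    (stp_deriv _).comp (0 : ℝ) ((h1.add_const a).div_const b)
  have h3 : HasDerivAt (fun t : ℝ => stp ((φ (y + t • n) + a) / b))
      (fderiv ℝ (fun y => stp ((φ y + a) / b)) y n) 0 :=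
    ((stp_comp_c1 hφ a b).differentiable one_ne_zero y).hasFDerivAt.hasLineDerivAt n
  rw [h3.unique h2, zero_smul, add_zero]
  ring

lemma mul_fd {P Q : V → ℝ} (hP : ContDiff ℝ 1 P) (hQ : ContDiff ℝ 1 Q) (y n : V) :
    fderiv ℝ (fun y => P y * Q y) y n = P y * fderiv ℝ Q y n + Q y * fderiv ℝ P y n := by
  have h1 := ((hP.differentiable one_ne_zero y).hasFDerivAt.mul
    (hQ.differentiable one_ne_zero y).hasFDerivAt).fderiv
  have h2 : fderiv ℝ (fun y => P y * Q y) y = P y • fderiv ℝ Q y + Q y • fderiv ℝ P y := h1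
  rw [h2]
  simp

section

variable {κ ρ : ℝ} {g : V → ℝ} (hg : ContDiff ℝ 1 g) (x : V)

include hg

lemma uu_c1 (hρ : 0 < ρ) : ContDiff ℝ 1 (uu κ ρ g x) := by
  have h1 : ContDiff ℝ 1 (ds x ρ) := (ds_smooth x hρ).of_le (by norm_cast)
  unfold uu
  fun_prop

lemma ww_c1 (hρ : 0 < ρ) : ContDiff ℝ 1 (ww κ ρ g x) := by
  have h1 : ContDiff ℝ 1 (ds x ρ) := (ds_smooth x hρ).of_le (by norm_cast)
  unfold ww
  fun_prop

lemma gen_fd (hρ : 0 < ρ) (c d : ℝ) (y n : V) : fderiv ℝ (fun y => g y - c - d * ds x ρ y) y n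
    = fderiv ℝ g y n - d * fderiv ℝ (ds x ρ) y n := by
  have h1 := (((hg.differentiable one_ne_zero y).hasFDerivAt.sub_const c).sub
    ((ds_diff x hρ y).hasFDerivAt.const_mul d)).fderiv
  have h2 : fderiv ℝ (fun y => g y - c - d * ds x ρ y) y
      = fderiv ℝ g y - d • fderiv ℝ (ds x ρ) y := h1
  rw [h2]
  simp

lemma uu_fd (hρ : 0 < ρ) (y n : V) : fderiv ℝ (uu κ ρ g x) y n
    = fderiv ℝ g y n - κ / 2 * fderiv ℝ (ds x ρ) y n := gen_fd hg x hρ _ _ y n

lemma ww_fd (hρ : 0 < ρ) (y n : V) : fderiv ℝ (ww κ ρ g x) y n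
    = fderiv ℝ g y n - 3 * κ / 4 * fderiv ℝ (ds x ρ) y n := gen_fd hg x hρ _ _ y n

end

lemma ww_eq (κ ρ : ℝ) (g : V → ℝ) (x y : V) :
    ww κ ρ g x y = uu κ ρ g x y - κ / 4 * ds x ρ y := by
  unfold ww uu
  ring

/-- The support of the densities. -/
lemma supp1 {κ ρ r : ℝ} {g : V → ℝ} {x y : V} (hκ : 0 < κ) (h1 : -(κ * r / 8) < ww κ ρ g x y)
    (h2 : uu κ ρ g x y < κ * r / 32) : ds x ρ y < 5 * r / 8 := by
  rw [ww_eq] at h1
  have h3 : κ * ds x ρ y < κ * (5 * r / 8) := by linarith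
  exact lt_of_mul_lt_mul_left h3 hκ.le

/-! ### the cut-offs -/

section cut

variable {κ ρ r : ℝ} {g : V → ℝ} {x : V}

lemma TT_nn (y : V) : 0 ≤ TT κ ρ g x r y := stp_nn _
lemma TT_le (y : V) : TT κ ρ g x r y ≤ 1 := stp_le _
lemma PS_nn (y : V) : 0 ≤ PS κ ρ g x r y := stp_nn _
lemma PS_le (y : V) : PS κ ρ g x r y ≤ 1 := stp_le _

lemma TT_ne (hκ : 0 < κ) (hr : 0 < r) {y : V} (h : TT κ ρ g x r y ≠ 0) :
    -(κ * r / 8) < ww κ ρ g x y := by
  have h1 := stp_ne h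
  have h2 : 0 < κ * r / 16 := by positivity
  rw [div_pos_iff_of_pos_right h2] at h1
  linarith

lemma TT_one (hκ : 0 < κ) (hr : 0 < r) {y : V} (h : -(κ * r / 16) ≤ ww κ ρ g x y) :
    TT κ ρ g x r y = 1 := by
  refine stp_high ?_
  have h2 : 0 < κ * r / 16 := by positivity
  rw [le_div_iff₀ h2]
  linarith

lemma PS_ne (hκ : 0 < κ) (hr : 0 < r) {y : V} (h : PS κ ρ g x r y ≠ 0) :
    κ * r / 64 < uu κ ρ g x y := by
  have h1 := stp_ne h
  have h2 : 0 < κ * r / 64 := by positivity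
  rw [div_pos_iff_of_pos_right h2] at h1
  linarith

lemma PS_zero (hκ : 0 < κ) (hr : 0 < r) {y : V} (h : uu κ ρ g x y ≤ κ * r / 64) :
    PS κ ρ g x r y = 0 := by
  by_contra h0
  exact absurd (PS_ne hκ hr h0) (not_lt.2 h)

lemma PS_ne1 (hκ : 0 < κ) (hr : 0 < r) {y : V} (h : PS κ ρ g x r y ≠ 1) :
    uu κ ρ g x y < κ * r / 32 := by
  have h1 := stp_ne1 h
  have h2 : 0 < κ * r / 64 := by positivity
  rw [div_lt_one h2] at h1
  linarith

lemma PS_one (hκ : 0 < κ) (hr : 0 < r) {y : V} (h : κ * r / 32 ≤ uu κ ρ g x y) :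
    PS κ ρ g x r y = 1 := by
  by_contra h0
  exact absurd (PS_ne1 hκ hr h0) (not_lt.2 h)

/-- the derivative of the function of `u` -/
noncomputable def aa (κ ρ : ℝ) (g : V → ℝ) (x : V) (r : ℝ) (y : V) : ℝ :=
  stp' ((uu κ ρ g x y - κ * r / 64) / (κ * r / 64)) / (κ * r / 64)

/-- the derivative of the function of `w` -/
noncomputable def bb (κ ρ : ℝ) (g : V → ℝ) (x : V) (r : ℝ) (y : V) : ℝ :=
  stp' ((ww κ ρ g x y + κ * r / 8) / (κ * r / 16)) / (κ * r / 16)

lemma pr_eq (W : V → V) (m : V → ℝ) (y : V) : pr κ ρ g x W m r y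
    = TT κ ρ g x r y * (aa κ ρ g x r y * (fderiv ℝ (uu κ ρ g x) y (W y) + m y)) := rfl

lemma aa_nn (hκ : 0 < κ) (hr : 0 < r) (y : V) : 0 ≤ aa κ ρ g x r y :=
  div_nonneg (stp'_nn _) (by positivity)

lemma bb_nn (hκ : 0 < κ) (hr : 0 < r) (y : V) : 0 ≤ bb κ ρ g x r y :=
  div_nonneg (stp'_nn _) (by positivity)

lemma aa_le (hκ : 0 < κ) (hr : 0 < r) (y : V) : aa κ ρ g x r y ≤ 128 / (κ * r) := by
  have h2 : 0 < κ * r / 64 := by positivity
  unfold aa
  calc _ ≤ 2 / (κ * r / 64) := div_le_div_of_nonneg_right (stp'_le _) h2.le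
    _ = _ := by field_simp; norm_num

lemma bb_le (hκ : 0 < κ) (hr : 0 < r) (y : V) : bb κ ρ g x r y ≤ 32 / (κ * r) := by
  have h2 : 0 < κ * r / 16 := by positivity
  unfold bb
  calc _ ≤ 2 / (κ * r / 16) := div_le_div_of_nonneg_right (stp'_le _) h2.le
    _ = _ := by field_simp; norm_num

lemma aa_ne (hκ : 0 < κ) (hr : 0 < r) {y : V} (h : aa κ ρ g x r y ≠ 0) :
    κ * r / 64 < uu κ ρ g x y ∧ uu κ ρ g x y < κ * r / 32 := by
  have h2 : 0 < κ * r / 64 := by positivity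
  have h1 : stp' ((uu κ ρ g x y - κ * r / 64) / (κ * r / 64)) ≠ 0 := by
    intro h0
    apply h
    unfold aa
    rw [h0, zero_div]
  obtain ⟨h3, h4⟩ := stp'_ne h1
  rw [div_pos_iff_of_pos_right h2] at h3
  rw [div_lt_one h2] at h4
  constructor <;> linarith

lemma bb_ne (hκ : 0 < κ) (hr : 0 < r) {y : V} (h : bb κ ρ g x r y ≠ 0) :
    -(κ * r / 8) < ww κ ρ g x y := by
  have h2 : 0 < κ * r / 16 := by positivity
  have h1 : stp' ((ww κ ρ g x y + κ * r / 8) / (κ * r / 16)) ≠ 0 := by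
    intro h0
    apply h
    unfold bb
    rw [h0, zero_div]
  obtain ⟨h3, h4⟩ := stp'_ne h1
  rw [div_pos_iff_of_pos_right h2] at h3
  linarith

lemma TT_mono (hκ : 0 < κ) {r' : ℝ} (hr' : 0 < r') (hrr : r' ≤ r / 2) (y : V) :
    TT κ ρ g x r' y ≤ TT κ ρ g x r y := by
  have hr : 0 < r := by linarith
  by_cases h : TT κ ρ g x r' y = 0
  · rw [h]
    exact TT_nn y
  · have h1 := TT_ne hκ hr' h
    have h2 : κ * r' ≤ κ * (r / 2) := mul_le_mul_of_nonneg_left hrr hκ.le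
    rw [TT_one hκ hr (y := y) (by linarith)]
    exact TT_le y

lemma PS_mono (hκ : 0 < κ) {r' : ℝ} (hr' : 0 < r') (hrr : r' ≤ r / 2) (y : V) :
    PS κ ρ g x r y ≤ PS κ ρ g x r' y := by
  have hr : 0 < r := by linarith
  by_cases h : PS κ ρ g x r y = 0
  · rw [h]
    exact PS_nn y
  · have h1 := PS_ne hκ hr h
    have h2 : κ * r' ≤ κ * (r / 2) := mul_le_mul_of_nonneg_left hrr hκ.le
    rw [PS_one hκ hr' (y := y) (by linarith)]
    exact PS_le y

end cut

/-! ### the densities -/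

section dens

variable {κ R : ℝ} {x : V} {f m : V → ℝ} {W : V → V} {g : V → ℝ}

lemma f_nn (hL : LF κ R x f m W g) {y : V} (hy : y ∈ closedBall x R) : 0 ≤ f y :=
  (len_nonneg _).trans (hL.up y hy)

lemma g_diff (hL : LF κ R x f m W g) : Differentiable ℝ g := hL.gs.differentiable one_ne_zero

lemma gW (hL : LF κ R x f m W g) {y : V} (hy : y ∈ closedBall x R) :
    |fderiv ℝ g y (W y)| ≤ f y :=
  (lip_fd (g_diff hL) hL.lip y (W y)).trans (hL.up y hy)

lemma dW (hL : LF κ R x f m W g) (z : V) {ρ : ℝ} (hρ : 0 < ρ) {y : V}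
    (hy : y ∈ closedBall x R) : |fderiv ℝ (ds z ρ) y (W y)| ≤ f y :=
  (ds_fd z hρ y (W y)).trans (hL.up y hy)

lemma hu_lo (hL : LF κ R x f m W g) (hκ : 0 < κ) (z : V) {ρ : ℝ} (hρ : 0 < ρ) {y : V}
    (hy : y ∈ closedBall x R) : κ / 2 * f y ≤ fderiv ℝ (uu κ ρ g z) y (W y) + m y := by
  rw [uu_fd hL.gs z hρ]
  have h1 := hL.lo y hy
  have h2 := (abs_le.1 (dW hL z hρ hy)).2
  have h3 : κ / 2 * fderiv ℝ (ds z ρ) y (W y) ≤ κ / 2 * f y :=
    mul_le_mul_of_nonneg_left h2 (by positivity)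
  linarith

lemma hw_lo (hL : LF κ R x f m W g) (hκ : 0 < κ) (z : V) {ρ : ℝ} (hρ : 0 < ρ) {y : V}
    (hy : y ∈ closedBall x R) : κ / 4 * f y ≤ fderiv ℝ (ww κ ρ g z) y (W y) + m y := by
  rw [ww_fd hL.gs z hρ]
  have h1 := hL.lo y hy
  have h2 := (abs_le.1 (dW hL z hρ hy)).2
  have h3 : 3 * κ / 4 * fderiv ℝ (ds z ρ) y (W y) ≤ 3 * κ / 4 * f y :=
    mul_le_mul_of_nonneg_left h2 (by positivity)
  linarith

lemma hu_nn (hL : LF κ R x f m W g) (hκ : 0 < κ) (z : V) {ρ : ℝ} (hρ : 0 < ρ) {y : V}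
    (hy : y ∈ closedBall x R) : 0 ≤ fderiv ℝ (uu κ ρ g z) y (W y) + m y :=
  (mul_nonneg (by positivity) (f_nn hL hy)).trans (hu_lo hL hκ z hρ hy)

lemma hw_nn (hL : LF κ R x f m W g) (hκ : 0 < κ) (z : V) {ρ : ℝ} (hρ : 0 < ρ) {y : V}
    (hy : y ∈ closedBall x R) : 0 ≤ fderiv ℝ (ww κ ρ g z) y (W y) + m y :=
  (mul_nonneg (by positivity) (f_nn hL hy)).trans (hw_lo hL hκ z hρ hy)

lemma hu_up (hL : LF κ R x f m W g) (hκ : 0 < κ) (hκ1 : κ ≤ 1) (z : V) {ρ : ℝ} (hρ : 0 < ρ)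
    {y : V} (hy : y ∈ closedBall x R) : fderiv ℝ (uu κ ρ g z) y (W y) ≤ 2 * f y := by
  rw [uu_fd hL.gs z hρ]
  have h0 := f_nn hL hy
  have h1 := (abs_le.1 (gW hL hy)).2
  have h2 := (abs_le.1 (dW hL z hρ hy)).1
  have h3 : κ / 2 * (-f y) ≤ κ / 2 * fderiv ℝ (ds z ρ) y (W y) :=
    mul_le_mul_of_nonneg_left h2 (by positivity)
  have h4 : κ * f y ≤ 1 * f y := mul_le_mul_of_nonneg_right hκ1 h0
  linarith

lemma fdW_cont {F : V → ℝ} (hF : ContDiff ℝ 1 F) (hW : Continuous W) :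
    Continuous fun y => fderiv ℝ F y (W y) :=
  (hF.continuous_fderiv one_ne_zero).clm_apply hW

lemma aa_cont (hg : ContDiff ℝ 1 g) (z : V) {ρ : ℝ} (hρ : 0 < ρ) (r : ℝ) :
    Continuous (aa κ ρ g z r) := by
  have h1 := (uu_c1 (κ := κ) hg z hρ).continuous
  unfold aa
  exact (stp'_cont.comp ((h1.sub continuous_const).div_const _)).div_const _

lemma bb_cont (hg : ContDiff ℝ 1 g) (z : V) {ρ : ℝ} (hρ : 0 < ρ) (r : ℝ) :
    Continuous (bb κ ρ g z r) := by
  have h1 := (ww_c1 (κ := κ) hg z hρ).continuous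
  unfold bb
  exact (stp'_cont.comp ((h1.add continuous_const).div_const _)).div_const _

lemma TT_c1 (hg : ContDiff ℝ 1 g) (z : V) {ρ : ℝ} (hρ : 0 < ρ) (r : ℝ) :
    ContDiff ℝ 1 (TT κ ρ g z r) := stp_comp_c1 (ww_c1 hg z hρ) _ _

lemma PS_c1 (hg : ContDiff ℝ 1 g) (z : V) {ρ : ℝ} (hρ : 0 < ρ) (r : ℝ) :
    ContDiff ℝ 1 (PS κ ρ g z r) := by
  have := stp_comp_c1 (uu_c1 (κ := κ) hg z hρ) (-(κ * r / 64)) (κ * r / 64)
  exact this

lemma TT_fd (hg : ContDiff ℝ 1 g) (z : V) {ρ : ℝ} (hρ : 0 < ρ) (r : ℝ) (y n : V) :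
    fderiv ℝ (TT κ ρ g z r) y n = bb κ ρ g z r y * fderiv ℝ (ww κ ρ g z) y n :=
  stp_comp_fd (ww_c1 hg z hρ) _ _ y n

lemma PS_fd (hg : ContDiff ℝ 1 g) (z : V) {ρ : ℝ} (hρ : 0 < ρ) (r : ℝ) (y n : V) :
    fderiv ℝ (PS κ ρ g z r) y n = aa κ ρ g z r y * fderiv ℝ (uu κ ρ g z) y n := by
  have := stp_comp_fd (uu_c1 (κ := κ) hg z hρ) (-(κ * r / 64)) (κ * r / 64) y n
  exact this

lemma pr_cont (hL : LF κ R x f m W g) (z : V) {ρ : ℝ} (hρ : 0 < ρ) (r : ℝ) :
    Continuous (pr κ ρ g z W m r) :=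
  (TT_c1 hL.gs z hρ r).continuous.mul ((aa_cont hL.gs z hρ r).mul
    ((fdW_cont (uu_c1 hL.gs z hρ) hL.wd.cont).add hL.mc))

/-- The main comparison of integrals: one test function (or a sum of test functions). -/
lemma int_cmp {A B Z M : V → ℝ} {s : ℝ} (hA : IntegrableOn A (closedBall x R)) (hB : Continuous B)
    (hZ : Continuous Z) (hM : Continuous M) (hs : s ≤ R)
    (hZ0 : ∫ y in closedBall x R, Z y = 0)
    (h : ∀ y ∈ closedBall x R, A y ≤ B y + Z y + (closedBall x s).indicator M y) :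
    ∫ y in closedBall x R, A y ≤ (∫ y in closedBall x R, B y) + ∫ y in closedBall x s, M y := by
  have i1 := int_cont hB x R
  have i2 := int_cont hZ x R
  have i3 : IntegrableOn ((closedBall x s).indicator M) (closedBall x R) :=
    (int_cont hM x R).indicator isClosed_closedBall.measurableSet
  have h1 := setIntegral_mono_on hA ((i1.add i2).add i3) isClosed_closedBall.measurableSet h
  have h2 : ∫ y in closedBall x R, (B y + Z y + (closedBall x s).indicator M y)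
      = (∫ y in closedBall x R, B y) + (∫ y in closedBall x R, Z y)
        + ∫ y in closedBall x R, (closedBall x s).indicator M y := by
    have e1 := integral_add (i1.add i2) i3
    have e2 := integral_add i1 i2
    simp only [Pi.add_apply] at e1 e2
    rw [e1, e2]
  have h3 : ∫ y in closedBall x R, (closedBall x s).indicator M y = ∫ y in closedBall x s, M y := by
    rw [setIntegral_indicator isClosed_closedBall.measurableSet,
      inter_eq_right.2 (closedBall_subset_closedBall hs)]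
  have h4 : ∫ y in closedBall x R, A y ≤ ∫ y in closedBall x R,
      (B y + Z y + (closedBall x s).indicator M y) := h1
  rw [h2, h3, hZ0, add_zero] at h4
  exact h4

/-- The identity for a product of two functions. -/
lemma wd_mul (hL : LF κ R x f m W g) {P Q : V → ℝ} (hP : ContDiff ℝ 1 P) (hQ : ContDiff ℝ 1 Q)
    {s : ℝ} (hs : s ≤ R) (h : ∀ y, P y * Q y ≠ 0 → ‖y - x‖ ≤ s) :
    ∫ y in closedBall x R, (P y * fderiv ℝ Q y (W y) + Q y * fderiv ℝ P y (W y)) = 0 := by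
  have h1 := hL.wd.div (fun y => P y * Q y) (hP.mul hQ) (by
    refine closure_minimal (fun y hy => ?_) isClosed_closedBall
    rw [mem_closedBall, dist_eq_norm]
    exact (h y hy).trans hs)
  simp only [mul_fd hP hQ] at h1
  exact h1

end dens

/-! ### the upper bound -/

theorem ub : StmUB := by
  intro κ ρ R r x f m W g hκ hκ1 hρ hL hr hrR
  have hkr : 0 < κ * r := by positivity
  have hc1 := pr_cont hL x hρ r
  have hMc : Continuous fun y => 128 / (κ * r) * (2 * f y + m y) :=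
    continuous_const.mul ((continuous_const.mul hL.fc).add hL.mc)
  have h1 := int_cmp (x := x) (R := R) (A := pr κ ρ g x W m r) (B := fun _ => 0) (Z := fun _ => 0)
    (M := fun y => 128 / (κ * r) * (2 * f y + m y)) (s := r) (int_cont hc1 x R) continuous_const
    continuous_const hMc hrR (by simp) (fun y hy => ?_)
  · rw [integral_zero, zero_add, integral_const_mul] at h1
    exact h1
  rw [zero_add, zero_add]
  have hf := f_nn hL hy
  have hm := hL.m0 y
  by_cases h0 : TT κ ρ g x r y * aa κ ρ g x r y = 0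
  · rw [pr_eq, ← mul_assoc, h0, zero_mul]
    refine indicator_nonneg (fun z hz => ?_) y
    have := f_nn hL (closedBall_subset_closedBall hrR hz)
    have := hL.m0 z
    positivity
  · have hT : TT κ ρ g x r y ≠ 0 := left_ne_zero_of_mul h0
    have ha := aa_ne hκ hr (right_ne_zero_of_mul h0)
    have h2 := supp1 hκ (TT_ne hκ hr hT) ha.2
    have hy2 : y ∈ closedBall x r := by
      rw [mem_closedBall, dist_eq_norm]
      linarith [norm_le_ds x hρ y]
    rw [indicator_of_mem hy2, pr_eq]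
    have h3 := hu_nn hL hκ x hρ hy
    have h4 := hu_up hL hκ hκ1 x hρ hy
    calc TT κ ρ g x r y * (aa κ ρ g x r y * (fderiv ℝ (uu κ ρ g x) y (W y) + m y))
        ≤ 1 * (128 / (κ * r) * (2 * f y + m y)) := by
          refine mul_le_mul (TT_le y) ?_ (mul_nonneg (aa_nn hκ hr y) h3) zero_le_one
          exact mul_le_mul (aa_le hκ hr y) (by linarith) h3 (by positivity)
      _ = _ := one_mul _

/-! ### comparison of two scales -/

/-- The pointwise comparison. -/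
lemma cmp_pt {κ ρ R r r' : ℝ} {x : V} {f m : V → ℝ} {W : V → V} {g : V → ℝ} (hκ : 0 < κ)
    (hρ : 0 < ρ) (hL : LF κ R x f m W g) (hr' : 0 < r') (hrr : r' ≤ r / 2)
    {y : V} (hy : y ∈ closedBall x R) :
    TT κ ρ g x r y * (aa κ ρ g x r' y * (fderiv ℝ (uu κ ρ g x) y (W y) + m y))
      ≤ pr κ ρ g x W m r y
        + (TT κ ρ g x r y * fderiv ℝ (fun y => PS κ ρ g x r' y - PS κ ρ g x r y) y (W y)
          + (PS κ ρ g x r' y - PS κ ρ g x r y) * fderiv ℝ (TT κ ρ g x r) y (W y))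
        + (closedBall x r).indicator (fun y => (128 / (κ * r') + 32 / (κ * r)) * m y) y := by
  have hr : 0 < r := by linarith
  have hgs := hL.gs
  have hm := hL.m0 y
  have e1 : fderiv ℝ (fun y => PS κ ρ g x r' y - PS κ ρ g x r y) y (W y)
      = (aa κ ρ g x r' y - aa κ ρ g x r y) * fderiv ℝ (uu κ ρ g x) y (W y) := by
    have h1 := (((PS_c1 (κ := κ) hgs x hρ r').differentiable one_ne_zero y).hasFDerivAt.sub
      ((PS_c1 (κ := κ) hgs x hρ r).differentiable one_ne_zero y).hasFDerivAt).fderiv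
    have h2 : fderiv ℝ (fun y => PS κ ρ g x r' y - PS κ ρ g x r y) y
      = fderiv ℝ (PS κ ρ g x r') y - fderiv ℝ (PS κ ρ g x r) y := h1
    rw [h2, sub_apply, PS_fd hgs x hρ, PS_fd hgs x hρ]
    ring
  rw [e1, TT_fd hgs x hρ, pr_eq]
  have hD := hw_nn hL hκ x hρ hy
  have hQ : 0 ≤ PS κ ρ g x r' y - PS κ ρ g x r y := sub_nonneg.2 (PS_mono hκ hr' hrr y)
  have hQ1 : PS κ ρ g x r' y - PS κ ρ g x r y ≤ 1 := by
    linarith [PS_le (κ := κ) (ρ := ρ) (g := g) (x := x) (r := r') y,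
      PS_nn (κ := κ) (ρ := ρ) (g := g) (x := x) (r := r) y]
  have hT0 := TT_nn (κ := κ) (ρ := ρ) (g := g) (x := x) (r := r) y
  have hT1 := TT_le (κ := κ) (ρ := ρ) (g := g) (x := x) (r := r) y
  have ha := aa_nn (ρ := ρ) (g := g) (x := x) hκ hr y
  have ha' := aa_nn (ρ := ρ) (g := g) (x := x) hκ hr' y
  have ha'1 := aa_le (ρ := ρ) (g := g) (x := x) hκ hr' y
  have hb := bb_nn (ρ := ρ) (g := g) (x := x) hκ hr y
  have hb1 := bb_le (ρ := ρ) (g := g) (x := x) hκ hr y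
  -- the remainder
  have key : (TT κ ρ g x r y * aa κ ρ g x r' y
      + (PS κ ρ g x r' y - PS κ ρ g x r y) * bb κ ρ g x r y) * m y
      ≤ (closedBall x r).indicator (fun y => (128 / (κ * r') + 32 / (κ * r)) * m y) y := by
    have hkr : κ * r' ≤ κ * (r / 2) := mul_le_mul_of_nonneg_left hrr hκ.le
    have hkr0 : 0 < κ * r := by positivity
    by_cases hyr : y ∈ closedBall x r
    · rw [indicator_of_mem hyr]
      refine mul_le_mul_of_nonneg_right (add_le_add ?_ ?_) hm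
      · calc _ ≤ 1 * (128 / (κ * r')) := mul_le_mul hT1 ha'1 ha' zero_le_one
          _ = _ := one_mul _
      · calc _ ≤ 1 * (32 / (κ * r)) := mul_le_mul hQ1 hb1 hb zero_le_one
          _ = _ := one_mul _
    · rw [indicator_of_notMem hyr]
      have hds : ¬ ds x ρ y < 5 * r / 8 := by
        intro h
        apply hyr
        rw [mem_closedBall, dist_eq_norm]
        linarith [norm_le_ds x hρ y]
      have h1 : TT κ ρ g x r y * aa κ ρ g x r' y = 0 := by
        by_contra h0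
        have h2 := TT_ne hκ hr (left_ne_zero_of_mul h0)
        have h3 := (aa_ne hκ hr' (right_ne_zero_of_mul h0)).2
        exact hds (supp1 hκ h2 (by linarith))
      have h2 : (PS κ ρ g x r' y - PS κ ρ g x r y) * bb κ ρ g x r y = 0 := by
        by_contra h0
        have h2 := bb_ne hκ hr (right_ne_zero_of_mul h0)
        have h4 : PS κ ρ g x r y ≠ 1 := by
          intro h5
          apply left_ne_zero_of_mul h0
          have h6 := PS_le (κ := κ) (ρ := ρ) (g := g) (x := x) (r := r') y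
          rw [h5] at hQ ⊢
          linarith
        exact hds (supp1 hκ h2 (PS_ne1 hκ hr h4))
      rw [h1, h2, add_zero, zero_mul]
  refine le_trans ?_ (add_le_add_right key _)
  have h5 : 0 ≤ (PS κ ρ g x r' y - PS κ ρ g x r y)
      * (bb κ ρ g x r y * (fderiv ℝ (ww κ ρ g x) y (W y) + m y)) :=
    mul_nonneg hQ (mul_nonneg hb hD)
  have h6 : 0 ≤ TT κ ρ g x r y * (aa κ ρ g x r y * m y) :=
    mul_nonneg hT0 (mul_nonneg ha hm)
  nlinarith

theorem cmp : StmCmp := by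
  intro κ ρ R r r' x f m W g hκ hκ1 hρ hL hr' hrr hrR
  have hr : 0 < r := by linarith
  have hgs := hL.gs
  have hkr' : 0 < κ * r' := by positivity
  have hkr : 0 < κ * r := by positivity
  have hP := TT_c1 (κ := κ) hgs x hρ r
  have hQ : ContDiff ℝ 1 fun y => PS κ ρ g x r' y - PS κ ρ g x r y :=
    (PS_c1 hgs x hρ r').sub (PS_c1 hgs x hρ r)
  have hZ := wd_mul hL hP hQ (s := r) hrR (fun y hy => by
    have h2 := TT_ne hκ hr (left_ne_zero_of_mul hy)
    have h4 : PS κ ρ g x r y ≠ 1 := by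
      intro h5
      apply right_ne_zero_of_mul hy
      have h6 := PS_le (κ := κ) (ρ := ρ) (g := g) (x := x) (r := r') y
      have h7 := PS_mono (ρ := ρ) (g := g) (x := x) hκ hr' hrr y
      rw [h5] at h7 ⊢
      linarith
    have := supp1 hκ h2 (PS_ne1 hκ hr h4)
    linarith [norm_le_ds x hρ y])
  have h1 := int_cmp (x := x) (R := R) (A := pr κ ρ g x W m r') (B := pr κ ρ g x W m r)
    (M := fun y => (128 / (κ * r') + 32 / (κ * r)) * m y) (s := r)
    (int_cont (pr_cont hL x hρ r') x R) (pr_cont hL x hρ r)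
    ((hP.continuous.mul (fdW_cont hQ hL.wd.cont)).add (hQ.continuous.mul (fdW_cont hP hL.wd.cont)))
    (continuous_const.mul hL.mc) hrR hZ (fun y hy => ?_)
  · rw [integral_const_mul] at h1
    refine h1.trans (add_le_add_right ?_ _)
    refine mul_le_mul_of_nonneg_right ?_ (integral_nonneg hL.m0)
    have h2 : κ * r' ≤ κ * r := mul_le_mul_of_nonneg_left (by linarith) hκ.le
    have h3 : 32 / (κ * r) ≤ 32 / (κ * r') := div_le_div_of_nonneg_left (by norm_num) hkr' h2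
    calc 128 / (κ * r') + 32 / (κ * r) ≤ 128 / (κ * r') + 32 / (κ * r') := by linarith
      _ = 160 / (κ * r') := by ring
      _ ≤ 256 / (κ * r') := div_le_div_of_nonneg_right (by norm_num) hkr'.le
  · refine le_trans ?_ (cmp_pt hκ hρ hL hr' hrr hy)
    rw [pr_eq]
    refine mul_le_mul_of_nonneg_right (TT_mono hκ hr' hrr y) ?_
    exact mul_nonneg (aa_nn hκ hr' y) (hu_nn hL hκ x hρ hy)

end Pool.Agent.J4H12.VL
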