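import Pool.Agent.J4H12.VA.Conn
import Pool.Agent.J4H12.VA.Gd
import Pool.Agent.Q85.CL.FinD

/-!
The directions (without orientation) of the vorticity in a cube are connected (fixed time), and
the angles which follow if they are in no double cone.
-/

set_option autoImplicit false

open MeasureTheory Set Metric Filter Topology
open scoped ContDiff
open H459R3.NS Pool.Agent.W268.NS Pool.Agent.Q67.VD
open Pool.Agent.Q199.VD

namespace Pool.Agent.J4H12.VL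

open Pool.Agent.Q85.CC Pool.Agent.Q85.CL Pool.Agent.J4H12.VA

lemma dir_unit {w : V} (hw : w ≠ 0) : VA.dir w ⬝ᵥ VA.dir w = 1 := by
  unfold VA.dir
  have h1 := len_posI hw
  rw [smul_dotProduct, dotProduct_smul, ← len_sq', smul_eq_mul, smul_eq_mul]
  field_simp

lemma vort_ne_iff (v : V → V) (y : V) : vort v y ≠ 0 ↔ 0 < om v y := by
  constructor
  · intro h
    exact len_posI h
  · intro h h0
    have : om v y = 0 := by
      unfold om len
      rw [h0]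
      simp
    linarith

/-- The directions of the vorticity in a cube do not split. -/
theorem dirs {ν T E : ℝ} {Ω : Set V} {u : ℝ → V → V} {p : ℝ → V → ℝ} (hν : 0 < ν) (hT : 0 < T)
    (h : DSl ν T E Ω u p) {R : ℝ} {a : V} (hR : 0 < R) (hΩ : closedBall a R ⊆ Ω) {t : ℝ}
    (ht : t ∈ Ioo 0 T) {A B : Set V} (hA : IsClosed A) (hB : IsClosed B) (hAs : ∀ w ∈ A, -w ∈ A)
    (hBs : ∀ w ∈ B, -w ∈ B) (hAB : Disjoint A B)
    (hcov : ∀ y, ‖y - a‖ ≤ R → vort (u t) y ≠ 0 → VA.dir (vort (u t) y) ∈ A ∪ B) {x : V}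
    (hx : ‖x - a‖ ≤ R) (hx0 : vort (u t) x ≠ 0) (hxA : VA.dir (vort (u t) x) ∈ A) :
    ∀ y, ‖y - a‖ ≤ R → vort (u t) y ≠ 0 → VA.dir (vort (u t) y) ∈ A := by
  intro y hy hy0
  -- a larger cube
  obtain ⟨R₁, hR₁, hsub⟩ : ∃ R₁, R < R₁ ∧ closedBall a R₁ ⊆ Ω := by
    obtain ⟨δ, hδ, hd⟩ := (isCompact_closedBall a R).exists_cthickening_subset_open h.openO hΩ
    refine ⟨R + δ, by linarith, ?_⟩
    rw [cthickening_closedBall hδ.le hR.le] at hd
    rwa [add_comm]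
  obtain ⟨E', v, q, hL, hv⟩ := Pool.Agent.Q284.CL.dom ν T E Ω u p hν hT h a R₁ (by linarith) hsub
  have hνt : ν * t ∈ Ioo 0 (ν * T) := ⟨mul_pos hν ht.1, mul_lt_mul_of_pos_left ht.2 hν⟩
  have hev : ∀ z, ‖z - a‖ ≤ R → ∀ᶠ w in 𝓝 z, v (ν * t) w = ν⁻¹ • u t w := by
    intro z hz
    exact ball_ev (a := a) (R := R₁) (fun w hw => hv t ht w hw) (by
      rw [mem_ball, dist_eq_norm]
      linarith)
  have hsm : SM (v (ν * t)) := slice_u hL.toLEq hνt
  have hνi : 0 < ν⁻¹ := inv_pos.2 hν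
  have han := Pool.Agent.Q16.CL.segAn (v (ν * t)) x y hsm (fun s hs => gdL (ν * T) E' _ v q
    (by positivity) hL (ν * t) hνt _ (by
      rw [mem_ball, dist_eq_norm]
      exact (seg_ball hx hy hs).trans_lt hR₁))
  obtain ⟨g, hg⟩ : ∃ g : ℝ → V, g = fun s => vort (v (ν * t)) (x + s • (y - x)) := ⟨_, rfl⟩
  rw [← hg] at han
  have hgs : ∀ s ∈ Icc (0 : ℝ) 1, g s = ν⁻¹ • vort (u t) (x + s • (y - x)) := by
    intro s hs
    rw [hg]
    exact vort_evD (hev _ (seg_ball hx hy hs))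
  have hg0 : g 0 = ν⁻¹ • vort (u t) x := by
    rw [hgs 0 ⟨le_rfl, zero_le_one⟩, zero_smul, add_zero]
  have hg1 : g 1 = ν⁻¹ • vort (u t) y := by
    rw [hgs 1 ⟨zero_le_one, le_rfl⟩, one_smul, add_sub_cancel]
  have key := conn han (by rw [hg0]; exact smul_ne_zero hνi.ne' hx0)
    (by rw [hg1]; exact smul_ne_zero hνi.ne' hy0) hA hB hAs hBs hAB (by
      intro s hs hs0
      rw [hgs s hs] at hs0 ⊢
      have h1 := hcov _ (seg_ball hx hy hs) (right_ne_zero_of_smul hs0)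
      rcases h1 with h1 | h1
      · exact Or.inl ((mem_of_smul hAs hνi.ne').2 h1)
      · exact Or.inr ((mem_of_smul hBs hνi.ne').2 h1)) (by
      rw [hg0]
      exact (mem_of_smul hAs hνi.ne').2 hxA)
  rw [hg1] at key
  exact (mem_of_smul hAs hνi.ne').1 key

/-- All the angles larger than the opening of the excluded double cones. -/
theorem angles {ν T E : ℝ} {Ω : Set V} {u : ℝ → V → V} {p : ℝ → V → ℝ} (hν : 0 < ν) (hT : 0 < T)
    (h : DSl ν T E Ω u p) {R : ℝ} {a : V} (hR : 0 < R) (hΩ : closedBall a R ⊆ Ω) {t : ℝ}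
    (ht : t ∈ Ioo 0 T) {κ : ℝ} (hκ : 0 < κ)
    (hcone : ∀ e : V, e ⬝ᵥ e = 1 → ∃ y, ‖y - a‖ ≤ R ∧
      |e ⬝ᵥ vort (u t) y| < κ * om (u t) y) {x : V} (hx : ‖x - a‖ ≤ R) (hx0 : vort (u t) x ≠ 0)
    {c δ : ℝ} (hc : κ ≤ c) (hc1 : c ≤ 1) (hδ : 0 < δ) :
    ∃ y, ‖y - a‖ ≤ R ∧ vort (u t) y ≠ 0 ∧
      |(|vort (u t) x ⬝ᵥ vort (u t) y| - c * (om (u t) x * om (u t) y))|
        < δ * (om (u t) x * om (u t) y) := by
  by_contra hcon
  push Not at hcon
  have hox : 0 < om (u t) x := (vort_ne_iff _ _).1 hx0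
  obtain ⟨e, he⟩ : ∃ e, e = VA.dir (vort (u t) x) := ⟨_, rfl⟩
  have hee : e ⬝ᵥ e = 1 := by rw [he]; exact dir_unit hx0
  have hin : ∀ y, vort (u t) y ≠ 0 → e ⬝ᵥ VA.dir (vort (u t) y)
      = (om (u t) x * om (u t) y)⁻¹ * (vort (u t) x ⬝ᵥ vort (u t) y) := by
    intro y _
    rw [he]
    unfold VA.dir
    rw [smul_dotProduct, dotProduct_smul, smul_eq_mul, smul_eq_mul, mul_inv, mul_assoc]
    rfl
  have hgap : ∀ y, ‖y - a‖ ≤ R → vort (u t) y ≠ 0 →
      δ ≤ |(|e ⬝ᵥ VA.dir (vort (u t) y)| - c)| := by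
    intro y hy hy0
    have hoy : 0 < om (u t) y := (vort_ne_iff _ _).1 hy0
    have h1 := hcon y hy hy0
    have hp : 0 < om (u t) x * om (u t) y := mul_pos hox hoy
    have e1 : |vort (u t) x ⬝ᵥ vort (u t) y| - c * (om (u t) x * om (u t) y)
        = (om (u t) x * om (u t) y) * (|e ⬝ᵥ VA.dir (vort (u t) y)| - c) := by
      rw [hin y hy0, abs_mul, abs_inv, abs_of_pos hp]
      field_simp
    rw [e1, abs_mul, abs_of_pos hp, mul_comm] at h1
    exact le_of_mul_le_mul_left h1 hp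
  have hc1' : c + δ ≤ 1 := by
    have h1 := hgap x hx hx0
    rw [← he, hee, abs_one, abs_of_nonneg (by linarith : (0 : ℝ) ≤ 1 - c)] at h1
    linarith
  have hcont : Continuous fun w : V => |e ⬝ᵥ w| := by fun_prop
  have hA : IsClosed {w : V | c + δ ≤ |e ⬝ᵥ w|} := isClosed_le continuous_const hcont
  have hB : IsClosed {w : V | |e ⬝ᵥ w| ≤ c - δ} := isClosed_le hcont continuous_const
  have key := dirs hν hT h hR hΩ ht hA hB
    (fun w (hw : c + δ ≤ |e ⬝ᵥ w|) => by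
      show c + δ ≤ |e ⬝ᵥ -w|
      rwa [dotProduct_neg, abs_neg])
    (fun w (hw : |e ⬝ᵥ w| ≤ c - δ) => by
      show |e ⬝ᵥ -w| ≤ c - δ
      rwa [dotProduct_neg, abs_neg])
    (Set.disjoint_left.2 fun w (hw1 : c + δ ≤ |e ⬝ᵥ w|) (hw2 : |e ⬝ᵥ w| ≤ c - δ) => by linarith)
    (fun y hy hy0 => by
      have h1 := hgap y hy hy0
      rcases le_abs.1 h1 with h2 | h2
      · left
        show c + δ ≤ |e ⬝ᵥ VA.dir (vort (u t) y)|
        linarith
      · right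
        show |e ⬝ᵥ VA.dir (vort (u t) y)| ≤ c - δ
        linarith) hx hx0 (by
      show c + δ ≤ |e ⬝ᵥ VA.dir (vort (u t) x)|
      rw [← he, hee, abs_one]
      exact hc1')
  obtain ⟨y, hy, hlt⟩ := hcone e hee
  have hy0 : vort (u t) y ≠ 0 := by
    intro h0
    have : om (u t) y = 0 := by
      unfold om len
      rw [h0]
      simp
    rw [this, mul_zero] at hlt
    exact absurd hlt (not_lt.2 (abs_nonneg _))
  have hoy : 0 < om (u t) y := (vort_ne_iff _ _).1 hy0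
  have h1 : c + δ ≤ |e ⬝ᵥ VA.dir (vort (u t) y)| := key y hy hy0
  have h2 : |e ⬝ᵥ vort (u t) y| = om (u t) y * |e ⬝ᵥ VA.dir (vort (u t) y)| := by
    unfold VA.dir
    rw [dotProduct_smul, smul_eq_mul, abs_mul, abs_inv, abs_of_nonneg (len_nn _)]
    show _ = om (u t) y * ((om (u t) y)⁻¹ * _)
    rw [← mul_assoc, mul_inv_cancel₀ hoy.ne', one_mul]
  have h3 : om (u t) y * (c + δ) ≤ om (u t) y * |e ⬝ᵥ VA.dir (vort (u t) y)| :=
    mul_le_mul_of_nonneg_left h1 hoy.le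
  have h4 : om (u t) y * κ ≤ om (u t) y * (c + δ) :=
    mul_le_mul_of_nonneg_left (by linarith) hoy.le
  linarith

end Pool.Agent.J4H12.VL
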