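import Pool.Agent.J4H12.VL.Com

/-!
Project VL: the lower bound of the flux near a concentration (`StmLB`) and the flux through the
surface of a cube (`StmFC`).
-/

set_option autoImplicit false

open MeasureTheory Set Metric Filter Topology
open scoped ContDiff
open H459R3.NS Pool.Agent.W268.NS Pool.Agent.Q67.VD

namespace Pool.Agent.J4H12.VL

open Pool.Agent.Q85.CC Pool.Agent.Q85.CL Pool.Agent.Q151.CC Pool.Agent.Q85.VL

lemma sqrt3_lt : √3 < 1.75 := by
  rw [Real.sqrt_lt' (by norm_num)]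
  norm_num

lemma uu_le {κ ρ : ℝ} {g : V → ℝ} {x y : V} (hκ : 0 < κ) (hρ : 0 < ρ)
    (hl : ∀ y z, |g y - g z| ≤ len (y - z)) : uu κ ρ g x y ≤ len (y - x) := by
  have h1 := (abs_le.1 (hl y x)).2
  have h2 := ds_pos x hρ y
  unfold uu
  have : 0 ≤ κ / 2 * ds x ρ y := by positivity
  linarith

lemma ww_le {κ ρ : ℝ} {g : V → ℝ} {x y : V} (hκ : 0 < κ) (hρ : 0 < ρ)
    (hl : ∀ y z, |g y - g z| ≤ len (y - z)) : ww κ ρ g x y ≤ len (y - x) := by
  have h1 := (abs_le.1 (hl y x)).2
  have h2 := ds_pos x hρ y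
  unfold ww
  have : 0 ≤ 3 * κ / 4 * ds x ρ y := by positivity
  linarith

lemma ww_ge {κ ρ : ℝ} {g : V → ℝ} {x y : V}
    (hl : ∀ y z, |g y - g z| ≤ len (y - z)) :
    -(len (y - x) + 3 * κ / 4 * ds x ρ y) ≤ ww κ ρ g x y := by
  have h1 := (abs_le.1 (hl y x)).1
  unfold ww
  linarith

/-- The wide step near the centre. -/
lemma stp'_wide {s : ℝ} (h1 : 0.3 ≤ s) (h2 : s ≤ 0.65) : 1 ≤ stp' s := by
  rw [stp'_mid (by linarith) (by linarith)]
  nlinarith

theorem lb : StmLB := by
  intro κ ρ R r x f m W g hκ hκ1 hρ hL hρr hrR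
  have hr : 0 < r := lt_of_lt_of_le (by positivity) hρr
  have hkr : 0 < κ * r := by positivity
  have h128 : 128 * ρ ≤ κ * r := by
    have h1 : κ * (128 / κ * ρ) ≤ κ * r := mul_le_mul_of_nonneg_left hρr hκ.le
    have h2 : κ * (128 / κ * ρ) = 128 * ρ := by field_simp
    linarith
  have hρr1 : ρ ≤ r := by
    have h1 : κ * r ≤ 1 * r := mul_le_mul_of_nonneg_right hκ1 hr.le
    linarith
  have hgs := hL.gs
  -- the test function
  obtain ⟨G, hGd⟩ : ∃ G : V → ℝ, G = fun y => stp ((ww κ ρ g x y + κ * r / 8) / (κ * r / 4)) :=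
    ⟨_, rfl⟩
  obtain ⟨b, hbd⟩ : ∃ b : V → ℝ, b = fun y => stp' ((ww κ ρ g x y + κ * r / 8) / (κ * r / 4))
    / (κ * r / 4) := ⟨_, rfl⟩
  have hG1 : ContDiff ℝ 1 G := by rw [hGd]; exact stp_comp_c1 (ww_c1 hgs x hρ) _ _
  have hGf : ∀ y n, fderiv ℝ G y n = b y * fderiv ℝ (ww κ ρ g x) y n := by
    intro y n
    rw [hGd, hbd]
    exact stp_comp_fd (ww_c1 hgs x hρ) _ _ y n
  have hk4 : 0 < κ * r / 4 := by positivity
  have hb0 : ∀ y, 0 ≤ b y := by
    intro y
    rw [hbd]
    exact div_nonneg (stp'_nn _) hk4.le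
  have hb1 : ∀ y, b y ≤ 8 / (κ * r) := by
    intro y
    rw [hbd]
    calc _ ≤ 2 / (κ * r / 4) := div_le_div_of_nonneg_right (stp'_le _) hk4.le
      _ = _ := by field_simp; norm_num
  have hGne : ∀ y, G y ≠ 0 ∨ b y ≠ 0 → -(κ * r / 8) < ww κ ρ g x y := by
    intro y h
    have h1 : 0 < (ww κ ρ g x y + κ * r / 8) / (κ * r / 4) := by
      rcases h with h | h
      · rw [hGd] at h
        exact stp_ne h
      · have h2 : stp' ((ww κ ρ g x y + κ * r / 8) / (κ * r / 4)) ≠ 0 := by
          intro h0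
          apply h
          rw [hbd]
          simp only [h0, zero_div]
        exact (stp'_ne h2).1
    rw [div_pos_iff_of_pos_right hk4] at h1
    linarith
  have hG0 : ∀ y, 0 ≤ G y := by intro y; rw [hGd]; exact stp_nn _
  have hGT : ∀ y, G y ≤ TT κ ρ g x r y := by
    intro y
    by_cases h : G y = 0
    · rw [h]
      exact TT_nn y
    · have h1 := hGne y (Or.inl h)
      rw [hGd]
      refine stp_mono ?_
      exact div_le_div_of_nonneg_left (by linarith) (by positivity) (by linarith)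
  have hQ1 : ContDiff ℝ 1 fun y => 1 - PS κ ρ g x r y := contDiff_const.sub (PS_c1 hgs x hρ r)
  have hQf : ∀ y n, fderiv ℝ (fun y => 1 - PS κ ρ g x r y) y n
      = -(aa κ ρ g x r y * fderiv ℝ (uu κ ρ g x) y n) := by
    intro y n
    have h1 := (((PS_c1 (κ := κ) hgs x hρ r).differentiable one_ne_zero y).hasFDerivAt.const_sub
      1).fderiv
    rw [h1, neg_apply, PS_fd hgs x hρ]
  have hZ := wd_mul hL hG1 hQ1 (s := r) hrR (fun y hy => by
    have h2 := hGne y (Or.inl (left_ne_zero_of_mul hy))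
    have h4 : PS κ ρ g x r y ≠ 1 := fun h5 => right_ne_zero_of_mul hy (by rw [h5, sub_self])
    have := supp1 hκ h2 (PS_ne1 hκ hr h4)
    linarith [norm_le_ds x hρ y])
  have h1 := int_cmp (x := x) (R := R)
    (A := (closedBall x ρ).indicator fun y => 1 / r * f y) (B := pr κ ρ g x W m r)
    (M := fun y => 8 / (κ * r) * m y) (s := r)
    ((int_cont (continuous_const.mul hL.fc) x R).indicator isClosed_closedBall.measurableSet)
    (pr_cont hL x hρ r)
    ((hG1.continuous.mul (fdW_cont hQ1 hL.wd.cont)).add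
      (hQ1.continuous.mul (fdW_cont hG1 hL.wd.cont)))
    (continuous_const.mul hL.mc) hrR hZ (fun y hy => ?_)
  · rw [setIntegral_indicator isClosed_closedBall.measurableSet,
      inter_eq_right.2 (closedBall_subset_closedBall (hρr1.trans hrR)), integral_const_mul,
      integral_const_mul] at h1
    have hI : 0 ≤ ∫ y in closedBall x ρ, f y :=
      setIntegral_nonneg isClosed_closedBall.measurableSet fun y hy =>
        f_nn hL (closedBall_subset_closedBall (hρr1.trans hrR) hy)
    have hM : 0 ≤ ∫ y in closedBall x r, m y := integral_nonneg hL.m0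
    have h2 : (κ * r / 8) ^ 2 * (1 / r * ∫ y in closedBall x ρ, f y)
        ≤ (κ * r / 8) ^ 2 * ((∫ y in closedBall x R, pr κ ρ g x W m r y)
          + 8 / (κ * r) * ∫ y in closedBall x r, m y) :=
      mul_le_mul_of_nonneg_left h1 (by positivity)
    have h3 : (κ * r / 8) ^ 2 * (8 / (κ * r) * ∫ y in closedBall x r, m y)
        = κ * r / 8 * ∫ y in closedBall x r, m y := by
      have e1 : (κ * r / 8) ^ 2 * (8 / (κ * r)) = κ * r / 8 := by
        field_simp
      rw [← mul_assoc, e1]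
    have h4 : 2 * κ * ρ * ∫ y in closedBall x ρ, f y
        ≤ (κ * r / 8) ^ 2 * (1 / r * ∫ y in closedBall x ρ, f y) := by
      rw [← mul_assoc]
      refine mul_le_mul_of_nonneg_right ?_ hI
      have e1 : (κ * r / 8) ^ 2 * (1 / r) = κ * (κ * r) / 64 := by
        field_simp
        ring
      rw [e1]
      have h5 : κ * (128 * ρ) ≤ κ * (κ * r) := mul_le_mul_of_nonneg_left h128 hκ.le
      linarith
    have h5 : κ * r / 8 * ∫ y in closedBall x r, m y ≤ κ * r / 4 * ∫ y in closedBall x r, m y :=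
      mul_le_mul_of_nonneg_right (by linarith) hM
    have h6 : AA κ ρ R g x W m r = ∫ y in closedBall x R, pr κ ρ g x W m r y := rfl
    rw [h6]
    rw [mul_add] at h2
    linarith
  · -- the pointwise inequality
    have hf := f_nn hL hy
    have hm := hL.m0 y
    have hP0 := PS_nn (κ := κ) (ρ := ρ) (g := g) (x := x) (r := r) y
    have hP1 := PS_le (κ := κ) (ρ := ρ) (g := g) (x := x) (r := r) y
    have ha := aa_nn (ρ := ρ) (g := g) (x := x) hκ hr y
    have hu := hu_nn hL hκ x hρ hy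
    have hw := hw_lo hL hκ x hρ hy
    simp only [Pi.add_apply, Pi.mul_apply]
    rw [hQf, hGf]
    have key : (1 - PS κ ρ g x r y) * b y * m y
        ≤ (closedBall x r).indicator (fun y => 8 / (κ * r) * m y) y := by
      by_cases hyr : y ∈ closedBall x r
      · rw [indicator_of_mem hyr]
        refine mul_le_mul_of_nonneg_right ?_ hm
        calc _ ≤ 1 * (8 / (κ * r)) := mul_le_mul (by linarith) (hb1 y) (hb0 y) zero_le_one
          _ = _ := one_mul _
      · rw [indicator_of_notMem hyr]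
        have h0 : (1 - PS κ ρ g x r y) * b y = 0 := by
          by_contra h0
          have h2 := hGne y (Or.inr (right_ne_zero_of_mul h0))
          have h4 : PS κ ρ g x r y ≠ 1 := fun h5 => left_ne_zero_of_mul h0 (by rw [h5, sub_self])
          have := supp1 hκ h2 (PS_ne1 hκ hr h4)
          apply hyr
          rw [mem_closedBall, dist_eq_norm]
          linarith [norm_le_ds x hρ y]
        rw [h0, zero_mul]
    have key2 : (closedBall x ρ).indicator (fun y => 1 / r * f y) y
        ≤ (1 - PS κ ρ g x r y) * b y * (κ / 4 * f y) := by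
      by_cases hyρ : y ∈ closedBall x ρ
      · rw [indicator_of_mem hyρ]
        rw [mem_closedBall, dist_eq_norm] at hyρ
        have g1 : len (y - x) ≤ 1.75 * ρ := by
          refine (len_le_norm _).trans ?_
          exact mul_le_mul sqrt3_lt.le hyρ (norm_nonneg _) (by norm_num)
        have g2 := ds_le2 x hρ hyρ
        have g3 := uu_le (x := x) (y := y) hκ hρ hL.lip
        have g4 := ww_le (x := x) (y := y) hκ hρ hL.lip
        have g5 := ww_ge (κ := κ) (ρ := ρ) (x := x) (y := y) hL.lip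
        have g6 : 3 * κ / 4 * ds x ρ y ≤ 3 * 1 / 4 * (2 * ρ) :=
          mul_le_mul (by linarith) g2 (ds_pos x hρ y).le (by norm_num)
        rw [PS_zero hκ hr (by linarith), sub_zero, one_mul]
        have g7 : 1 ≤ stp' ((ww κ ρ g x y + κ * r / 8) / (κ * r / 4)) := by
          refine stp'_wide ?_ ?_
          · rw [le_div_iff₀ hk4]
            linarith
          · rw [div_le_iff₀ hk4]
            linarith
        have g8 : 4 / (κ * r) ≤ b y := by
          rw [hbd]
          calc 4 / (κ * r) = 1 / (κ * r / 4) := by field_simp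
            _ ≤ _ := div_le_div_of_nonneg_right g7 hk4.le
        calc 1 / r * f y = 4 / (κ * r) * (κ / 4 * f y) := by field_simp
          _ ≤ b y * (κ / 4 * f y) := mul_le_mul_of_nonneg_right g8 (by positivity)
      · rw [indicator_of_notMem hyρ]
        exact mul_nonneg (mul_nonneg (by linarith) (hb0 y)) (by positivity)
    have h5 : (1 - PS κ ρ g x r y) * b y * (κ / 4 * f y)
        ≤ (1 - PS κ ρ g x r y) * b y * (fderiv ℝ (ww κ ρ g x) y (W y) + m y) :=
      mul_le_mul_of_nonneg_left hw (mul_nonneg (by linarith) (hb0 y))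
    have h6 : G y * (aa κ ρ g x r y * (fderiv ℝ (uu κ ρ g x) y (W y) + m y))
        ≤ pr κ ρ g x W m r y := by
      rw [pr_eq]
      exact mul_le_mul_of_nonneg_right (hGT y) (mul_nonneg ha hu)
    have h7 : 0 ≤ G y * (aa κ ρ g x r y * m y) := mul_nonneg (hG0 y) (mul_nonneg ha hm)
    nlinarith

/-! ### the surface of a cube -/

/-- The cut-off of one coordinate. -/
noncomputable def ct (s w t : ℝ) : ℝ := stp ((s + w - t) / (2 * w)) * stp ((s + w + t) / (2 * w))

lemma ct_c1 (s w : ℝ) : ContDiff ℝ 1 (ct s w) := by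
  unfold ct
  exact (stp_c1.comp (by fun_prop)).mul (stp_c1.comp (by fun_prop))

lemma ct_nn (s w t : ℝ) : 0 ≤ ct s w t := mul_nonneg (stp_nn _) (stp_nn _)

lemma ct_le (s w t : ℝ) : ct s w t ≤ 1 :=
  mul_le_one₀ (stp_le _) (stp_nn _) (stp_le _)

lemma ct_one {s w t : ℝ} (hw : 0 < w) (h : |t| ≤ s - w) : ct s w t = 1 := by
  have h1 := abs_le.1 h
  unfold ct
  rw [stp_high (by rw [le_div_iff₀ (by positivity)]; linarith [h1.2]),
    stp_high (by rw [le_div_iff₀ (by positivity)]; linarith [h1.1]), one_mul]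

lemma ct_ne {s w t : ℝ} (hw : 0 < w) (h : ct s w t ≠ 0) : |t| < s + w := by
  have h1 := stp_ne (left_ne_zero_of_mul h)
  have h2 := stp_ne (right_ne_zero_of_mul h)
  rw [div_pos_iff_of_pos_right (by positivity)] at h1 h2
  rw [abs_lt]
  constructor <;> linarith

/-- the derivative of the cut-off -/
noncomputable def ct' (s w t : ℝ) : ℝ :=
  -(stp' ((s + w - t) / (2 * w)) / (2 * w)) * stp ((s + w + t) / (2 * w))
    + stp ((s + w - t) / (2 * w)) * (stp' ((s + w + t) / (2 * w)) / (2 * w))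

lemma ct_deriv (s w t : ℝ) : HasDerivAt (ct s w) (ct' s w t) t := by
  have h1 : HasDerivAt (fun t : ℝ => (s + w - t) / (2 * w)) (-1 / (2 * w)) t :=
    ((hasDerivAt_id t).const_sub (s + w)).div_const _
  have h2 : HasDerivAt (fun t : ℝ => (s + w + t) / (2 * w)) (1 / (2 * w)) t :=
    ((hasDerivAt_id t).const_add (s + w)).div_const _
  have h3 := ((stp_deriv ((s + w - t) / (2 * w))).comp t h1).mul
    ((stp_deriv ((s + w + t) / (2 * w))).comp t h2)
  refine HasDerivAt.congr_deriv h3 ?_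
  unfold ct'
  simp only [Function.comp]
  ring

lemma ct'_le {s w t : ℝ} (hw : 0 < w) (hws : w ≤ s / 4) : |ct' s w t| ≤ 1 / w := by
  have h2w : 0 < 2 * w := by positivity
  have hd : ∀ z : ℝ, |stp' z / (2 * w)| ≤ 1 / w := by
    intro z
    rw [abs_of_nonneg (div_nonneg (stp'_nn _) h2w.le)]
    calc _ ≤ 2 / (2 * w) := div_le_div_of_nonneg_right (stp'_le _) h2w.le
      _ = 1 / w := by field_simp
  have hs : ∀ z : ℝ, |stp z| ≤ 1 := fun z => by
    rw [abs_of_nonneg (stp_nn z)]
    exact stp_le z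
  unfold ct'
  rcases le_total 0 t with ht | ht
  · have h1 : stp' ((s + w + t) / (2 * w)) = 0 :=
      stp'_high (by rw [le_div_iff₀ h2w]; linarith)
    rw [h1, zero_div, mul_zero, add_zero, abs_mul, abs_neg]
    calc _ ≤ 1 / w * 1 := mul_le_mul (hd _) (hs _) (abs_nonneg _) (by positivity)
      _ = _ := mul_one _
  · have h1 : stp' ((s + w - t) / (2 * w)) = 0 :=
      stp'_high (by rw [le_div_iff₀ h2w]; linarith)
    rw [h1, zero_div, neg_zero, zero_mul, zero_add, abs_mul]
    calc _ ≤ 1 * (1 / w) := mul_le_mul (hs _) (hd _) (abs_nonneg _) zero_le_one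
      _ = _ := one_mul _

lemma ct'_ne {s w t : ℝ} (hw : 0 < w) (h : ct' s w t ≠ 0) : s - w < |t| := by
  by_contra h0
  rw [not_lt] at h0
  have h1 := abs_le.1 h0
  apply h
  unfold ct'
  rw [stp'_high (by rw [le_div_iff₀ (by positivity)]; linarith [h1.2]),
    stp'_high (by rw [le_div_iff₀ (by positivity)]; linarith [h1.1])]
  ring

/-- The cut-off of the cube. -/
noncomputable def ch (x : V) (s w : ℝ) (y : V) : ℝ :=
  ct s w (y 0 - x 0) * ct s w (y 1 - x 1) * ct s w (y 2 - x 2)

lemma ch_c1 (x : V) (s w : ℝ) : ContDiff ℝ 1 (ch x s w) := by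
  have h : ∀ i : Fin 3, ContDiff ℝ 1 fun y : V => ct s w (y i - x i) := fun i =>
    (ct_c1 s w).comp (by fun_prop)
  unfold ch
  exact ((h 0).mul (h 1)).mul (h 2)

lemma ch_nn (x : V) (s w : ℝ) (y : V) : 0 ≤ ch x s w y :=
  mul_nonneg (mul_nonneg (ct_nn _ _ _) (ct_nn _ _ _)) (ct_nn _ _ _)

lemma ch_le (x : V) (s w : ℝ) (y : V) : ch x s w y ≤ 1 :=
  mul_le_one₀ (mul_le_one₀ (ct_le _ _ _) (ct_nn _ _ _) (ct_le _ _ _)) (ct_nn _ _ _) (ct_le _ _ _)

lemma ch_one {x : V} {s w : ℝ} (hw : 0 < w) {y : V} (h : ‖y - x‖ ≤ s - w) : ch x s w y = 1 := by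
  have h1 : ∀ i : Fin 3, ct s w (y i - x i) = 1 := fun i =>
    ct_one hw ((norm_le_pi_norm (y - x) i).trans h)
  unfold ch
  rw [h1, h1, h1]
  norm_num

lemma ch_ne {x : V} {s w : ℝ} (hs : 0 < s) (hw : 0 < w) {y : V} (h : ch x s w y ≠ 0) :
    ‖y - x‖ < s + w := by
  unfold ch at h
  have h0 := ct_ne hw (left_ne_zero_of_mul (left_ne_zero_of_mul h))
  have h1 := ct_ne hw (right_ne_zero_of_mul (left_ne_zero_of_mul h))
  have h2 := ct_ne hw (right_ne_zero_of_mul h)
  rw [pi_norm_lt_iff (by linarith)]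
  intro i
  rw [Real.norm_eq_abs, Pi.sub_apply]
  fin_cases i
  · exact h0
  · exact h1
  · exact h2

lemma ch_fd (x : V) (s w : ℝ) (y n : V) : fderiv ℝ (ch x s w) y n
    = ct' s w (y 0 - x 0) * n 0 * (ct s w (y 1 - x 1) * ct s w (y 2 - x 2))
      + ct' s w (y 1 - x 1) * n 1 * (ct s w (y 0 - x 0) * ct s w (y 2 - x 2))
      + ct' s w (y 2 - x 2) * n 2 * (ct s w (y 0 - x 0) * ct s w (y 1 - x 1)) := by
  have h1 : HasDerivAt (fun t : ℝ => ch x s w (y + t • n)) (fderiv ℝ (ch x s w) y n) 0 :=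
    ((ch_c1 x s w).differentiable one_ne_zero y).hasFDerivAt.hasLineDerivAt n
  have h2 : ∀ i : Fin 3, HasDerivAt (fun t : ℝ => ct s w ((y + t • n) i - x i))
      (ct' s w (y i - x i) * n i) 0 := by
    intro i
    have h3 : HasDerivAt (fun t : ℝ => (y + t • n) i - x i) (n i) 0 := by
      have h4 : HasDerivAt (fun t : ℝ => y i + t * n i - x i) (1 * n i) 0 :=
        (((hasDerivAt_id (0 : ℝ)).mul_const (n i)).const_add (y i)).sub_const (x i)
      rw [one_mul] at h4
      exact h4
    have h5 := (ct_deriv s w ((y + (0 : ℝ) • n) i - x i)).comp (0 : ℝ) h3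
    rw [zero_smul, add_zero] at h5
    exact h5
  have h6 := ((h2 0).mul (h2 1)).mul (h2 2)
  rw [h1.unique h6]
  simp only [zero_smul, add_zero, Pi.mul_apply]
  ring

lemma ch_fd_le {x : V} {s w : ℝ} (hw : 0 < w) (hws : w ≤ s / 4) (y n : V) :
    |fderiv ℝ (ch x s w) y n| ≤ 2 / w * len n := by
  rw [ch_fd]
  obtain ⟨a, ha⟩ : ∃ a : V, a = fun i => ct' s w (y i - x i) * (if i = 0 then
      ct s w (y 1 - x 1) * ct s w (y 2 - x 2) else if i = 1 then
      ct s w (y 0 - x 0) * ct s w (y 2 - x 2) else ct s w (y 0 - x 0) * ct s w (y 1 - x 1)) :=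
    ⟨_, rfl⟩
  have h1 : ∀ c d : ℝ, |ct s w c * ct s w d| ≤ 1 := by
    intro c d
    rw [abs_of_nonneg (mul_nonneg (ct_nn _ _ _) (ct_nn _ _ _))]
    exact mul_le_one₀ (ct_le _ _ _) (ct_nn _ _ _) (ct_le _ _ _)
  have h2 : ∀ i, |a i| ≤ 1 / w := by
    intro i
    rw [ha]
    simp only
    rw [abs_mul]
    have h3 := ct'_le (s := s) (t := y i - x i) hw hws
    calc _ ≤ 1 / w * 1 := by
          refine mul_le_mul h3 ?_ (abs_nonneg _) (by positivity)
          split_ifs <;> exact h1 _ _
      _ = _ := mul_one _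
  have h3 : len a ≤ √3 * (1 / w) := by
    refine (len_le_norm a).trans (mul_le_mul_of_nonneg_left ?_ (Real.sqrt_nonneg _))
    rw [pi_norm_le_iff_of_nonneg (by positivity)]
    intro i
    rw [Real.norm_eq_abs]
    exact h2 i
  have h4 := dot_le_ll a n
  have h5 : a ⬝ᵥ n = ct' s w (y 0 - x 0) * n 0 * (ct s w (y 1 - x 1) * ct s w (y 2 - x 2))
      + ct' s w (y 1 - x 1) * n 1 * (ct s w (y 0 - x 0) * ct s w (y 2 - x 2))
      + ct' s w (y 2 - x 2) * n 2 * (ct s w (y 0 - x 0) * ct s w (y 1 - x 1)) := by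
    rw [dot3, ha]
    simp
    ring
  rw [← h5]
  refine h4.trans (mul_le_mul_of_nonneg_right ?_ (len_nonneg n))
  refine h3.trans ?_
  calc √3 * (1 / w) ≤ 2 * (1 / w) :=
        mul_le_mul_of_nonneg_right (by linarith [sqrt3_lt]) (by positivity)
    _ = _ := by ring

lemma ch_fd_ne {x : V} {s w : ℝ} (hw : 0 < w) {y n : V}
    (h : fderiv ℝ (ch x s w) y n ≠ 0) : s - w < ‖y - x‖ := by
  by_contra h0
  rw [not_lt] at h0
  apply h
  rw [ch_fd]
  have h1 : ∀ i : Fin 3, ct' s w (y i - x i) = 0 := by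
    intro i
    by_contra h2
    have h3 := ct'_ne hw h2
    have h4 : |y i - x i| ≤ ‖y - x‖ := norm_le_pi_norm (y - x) i
    linarith
  rw [h1, h1, h1]
  ring

lemma ch_fd_ne' {x : V} {s w : ℝ} (hs : 0 < s) (hw : 0 < w) {y n : V}
    (h : fderiv ℝ (ch x s w) y n ≠ 0) : ‖y - x‖ ≤ s + w := by
  have h1 : fderiv ℝ (ch x s w) y ≠ 0 := by
    intro h0
    rw [h0] at h
    exact h rfl
  have h2 : tsupport (ch x s w) ⊆ closedBall x (s + w) :=
    closure_minimal (fun z hz => by
      rw [mem_closedBall, dist_eq_norm]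
      exact (ch_ne hs hw hz).le) isClosed_closedBall
  have h3 := h2 (support_fderiv_subset ℝ h1)
  rwa [mem_closedBall, dist_eq_norm] at h3

theorem fc : StmFC := by
  intro κ ρ R r s w x f m W g hκ hκ1 hρ hL hr hrs hw hws hsR
  have hs : 0 < s := by linarith
  have hkr : 0 < κ * r := by positivity
  have hgs := hL.gs
  have hC1 := ch_c1 x s w
  have hP1 := PS_c1 (κ := κ) hgs x hρ r
  have hZ := wd_mul hL hC1 hP1 (s := s + w) hsR (fun y hy =>
    (ch_ne hs hw (left_ne_zero_of_mul hy)).le)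
  obtain ⟨D, hD⟩ : ∃ D : Set V, D = Shell x s w ∩ {y | 0 < uu κ ρ g x y} := ⟨_, rfl⟩
  have hSc : IsClosed (Shell x s w) := by
    have : Continuous fun y : V => |‖y - x‖ - s| := by fun_prop
    exact isClosed_le this continuous_const
  have hUo : IsOpen {y | 0 < uu κ ρ g x y} :=
    isOpen_lt continuous_const (uu_c1 hgs x hρ).continuous
  have hDm : MeasurableSet D := by
    rw [hD]
    exact hSc.measurableSet.inter hUo.measurableSet
  have hDR : D ⊆ closedBall x R := by
    rw [hD]
    rintro y ⟨hy, -⟩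
    have h1 : |‖y - x‖ - s| ≤ w := hy
    rw [mem_closedBall, dist_eq_norm]
    linarith [(abs_le.1 h1).2]
  have i1 : IntegrableOn (fun y => D.indicator (fun y => 2 / w * f y) y) (closedBall x R) :=
    (int_cont (continuous_const.mul hL.fc) x R).indicator hDm
  have i2 := int_cont (pr_cont hL x hρ r) x R
  have h1 := int_cmp (x := x) (R := R)
    (A := fun y => pr κ ρ g x W m r y - D.indicator (fun y => 2 / w * f y) y) (B := fun _ => 0)
    (M := fun y => 128 / (κ * r) * m y) (s := s + w)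
    (i2.sub i1) continuous_const
    ((hC1.continuous.mul (fdW_cont hP1 hL.wd.cont)).add
      (hP1.continuous.mul (fdW_cont hC1 hL.wd.cont)))
    (continuous_const.mul hL.mc) hsR hZ (fun y hy => ?_)
  · rw [integral_sub i2 i1, setIntegral_indicator hDm, inter_eq_right.2 hDR, integral_const_mul,
      integral_const_mul, integral_zero, zero_add] at h1
    have hM : 0 ≤ ∫ y in closedBall x (s + w), m y := integral_nonneg hL.m0
    have h2 : 128 / (κ * r) * ∫ y in closedBall x (s + w), m y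
        ≤ 256 / (κ * r) * ∫ y in closedBall x (s + w), m y :=
      mul_le_mul_of_nonneg_right (div_le_div_of_nonneg_right (by norm_num) hkr.le) hM
    rw [hD] at h1
    have h6 : AA κ ρ R g x W m r = ∫ y in closedBall x R, pr κ ρ g x W m r y := rfl
    rw [h6]
    linarith
  · have hf := f_nn hL hy
    have hm := hL.m0 y
    have hP0 := PS_nn (κ := κ) (ρ := ρ) (g := g) (x := x) (r := r) y
    have hPl := PS_le (κ := κ) (ρ := ρ) (g := g) (x := x) (r := r) y
    have ha := aa_nn (ρ := ρ) (g := g) (x := x) hκ hr y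
    have ha1 := aa_le (ρ := ρ) (g := g) (x := x) hκ hr y
    have hu := hu_nn hL hκ x hρ hy
    have hc0 := ch_nn x s w y
    have hc1 := ch_le x s w y
    simp only [Pi.add_apply, Pi.mul_apply]
    rw [PS_fd hgs x hρ]
    have k1 : -(PS κ ρ g x r y * fderiv ℝ (ch x s w) y (W y))
        ≤ D.indicator (fun y => 2 / w * f y) y := by
      by_cases h0 : PS κ ρ g x r y * fderiv ℝ (ch x s w) y (W y) = 0
      · rw [h0, neg_zero]
        refine indicator_nonneg (fun z hz => ?_) y
        have := f_nn hL (hDR hz)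
        positivity
      · have g1 := PS_ne hκ hr (left_ne_zero_of_mul h0)
        have g2 := ch_fd_ne hw (right_ne_zero_of_mul h0)
        have g3 := ch_fd_ne' hs hw (right_ne_zero_of_mul h0)
        have g4 : y ∈ D := by
          rw [hD]
          refine ⟨?_, ?_⟩
          · show |‖y - x‖ - s| ≤ w
            rw [abs_le]
            constructor <;> linarith
          · show 0 < uu κ ρ g x y
            exact lt_trans (by positivity) g1
        rw [indicator_of_mem g4]
        have g5 := (ch_fd_le (x := x) hw hws y (W y)).trans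
          (mul_le_mul_of_nonneg_left (hL.up y hy) (by positivity))
        calc -(PS κ ρ g x r y * fderiv ℝ (ch x s w) y (W y))
            ≤ |PS κ ρ g x r y * fderiv ℝ (ch x s w) y (W y)| := neg_le_abs _
          _ = PS κ ρ g x r y * |fderiv ℝ (ch x s w) y (W y)| := by
              rw [abs_mul, abs_of_nonneg hP0]
          _ ≤ 1 * (2 / w * f y) := mul_le_mul hPl g5 (abs_nonneg _) zero_le_one
          _ = _ := one_mul _
    have k2 : ch x s w y * (aa κ ρ g x r y * m y)
        ≤ (closedBall x (s + w)).indicator (fun y => 128 / (κ * r) * m y) y := by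
      by_cases hyr : y ∈ closedBall x (s + w)
      · rw [indicator_of_mem hyr]
        calc _ ≤ 1 * (128 / (κ * r) * m y) :=
              mul_le_mul hc1 (mul_le_mul_of_nonneg_right ha1 hm) (mul_nonneg ha hm) zero_le_one
          _ = _ := one_mul _
      · rw [indicator_of_notMem hyr]
        have h0 : ch x s w y = 0 := by
          by_contra h0
          apply hyr
          rw [mem_closedBall, dist_eq_norm]
          exact (ch_ne hs hw h0).le
        rw [h0, zero_mul]
    have k3 : pr κ ρ g x W m r y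
        ≤ ch x s w y * (aa κ ρ g x r y * (fderiv ℝ (uu κ ρ g x) y (W y) + m y)) := by
      rw [pr_eq]
      by_cases h0 : TT κ ρ g x r y * aa κ ρ g x r y = 0
      · rw [← mul_assoc, h0, zero_mul]
        exact mul_nonneg hc0 (mul_nonneg ha hu)
      · have h2 := TT_ne hκ hr (left_ne_zero_of_mul h0)
        have h3 := (aa_ne hκ hr (right_ne_zero_of_mul h0)).2
        have h4 := supp1 hκ h2 h3
        rw [ch_one hw (by linarith [norm_le_ds x hρ y])]
        exact mul_le_mul_of_nonneg_right (TT_le y) (mul_nonneg ha hu)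
    nlinarith

end Pool.Agent.J4H12.VL
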