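import Mathlib
import Pool.Agent.Q85.VL.Defs
import Pool.Agent.Q85.CL.FluxL
import Pool.Agent.Q67.VD.Alg

/-!
Project VL (vortex chains), part VL-13: regularisation of a function which increases along the arcs
of the curves of the oriented vorticity field (Rademacher, Picard-Lindelöf, mollification).
-/

set_option autoImplicit false

open MeasureTheory Set Metric Filter
open scoped ContDiff Topology
open H459R3.NS Pool.Agent.W268.NS Pool.Agent.Q67.VD

namespace Pool.Agent.J4H12.VL

open Pool.Agent.Q85.CC Pool.Agent.Q85.CL Pool.Agent.Q151.CC Pool.Agent.Q85.VL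

namespace MolH

lemma len_add (a b : V) : len (a + b) ≤ len a + len b := by
  rw [len_eq, len_eq, len_eq, WithLp.toLp_add]
  exact norm_add_le _ _

lemma len_neg (a : V) : len (-a) = len a := by
  have := len_smul (-1) a
  simpa using this

lemma len_sub_le (a b : V) : len (a - b) ≤ len a + len b := by
  have := len_add a (-b)
  rw [len_neg] at this
  rwa [sub_eq_add_neg]

lemma len_tri (a b : V) : len a - len b ≤ len (a - b) := by
  have := len_add (a - b) b
  rw [sub_add_cancel] at this
  linarith

lemma len_rev (a b : V) : len (a - b) = len (b - a) := by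
  rw [← len_neg, neg_sub]

lemma len_abs (a b : V) : |len a - len b| ≤ len (a - b) := by
  rw [abs_le]
  have h1 := len_tri a b
  have h2 := len_tri b a
  rw [len_rev b a] at h2
  constructor <;> linarith

lemma len_le_norm (a : V) : len a ≤ 2 * ‖a‖ := by
  refine len_le_of_sq (by positivity) ?_
  have h : ∀ i, a i ^ 2 ≤ ‖a‖ ^ 2 := fun i => by
    rw [← sq_abs (a i)]
    exact pow_le_pow_left₀ (abs_nonneg _) (by simpa using norm_le_pi_norm a i) 2
  nlinarith [h 0, h 1, h 2, sq_nonneg ‖a‖]

lemma len_pos {a : V} (h : a ≠ 0) : 0 < len a := by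
  rcases (len_nonneg a).lt_or_eq with h1 | h1
  · exact h1
  · exfalso
    apply h
    funext i
    have := abs_le_len a i
    rw [← h1] at this
    simpa using this

/-- The difference of two unit vectors. -/
lemma unit_sub {a b : V} (ha : a ≠ 0) (hb : b ≠ 0) :
    len ((len a)⁻¹ • a - (len b)⁻¹ • b) ≤ 2 * (len b)⁻¹ * len (a - b) := by
  have h1 := len_pos ha
  have h2 := len_pos hb
  have e : (len a)⁻¹ • a - (len b)⁻¹ • b
      = ((len a)⁻¹ - (len b)⁻¹) • a + (len b)⁻¹ • (a - b) := by
    rw [sub_smul, smul_sub]; abel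
  rw [e]
  refine (len_add _ _).trans ?_
  rw [len_smul, len_smul, abs_of_pos (inv_pos.2 h2)]
  have e2 : |(len a)⁻¹ - (len b)⁻¹| * len a = (len b)⁻¹ * |len b - len a| := by
    rw [inv_sub_inv h1.ne' h2.ne', abs_div, abs_of_pos (mul_pos h1 h2)]
    field_simp
  rw [e2]
  have h3 : |len b - len a| ≤ len (a - b) := by
    rw [abs_sub_comm]; exact len_abs a b
  have h4 : 0 < (len b)⁻¹ := inv_pos.2 h2
  nlinarith [mul_le_mul_of_nonneg_left h3 h4.le]

/-- The derivative of a function with Lipschitz constant one (for the Euclidean length). -/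
lemma fd_le {g : V → ℝ} (hg : ∀ y y', |g y - g y'| ≤ len (y - y')) {g' : V →L[ℝ] ℝ} {p : V}
    (h : HasFDerivAt g g' p) (e : V) : |g' e| ≤ len e := by
  have h1 : HasDerivAt (fun t : ℝ => p + t • e) e 0 := by
    simpa using ((hasDerivAt_id (0 : ℝ)).smul_const e).const_add p
  have h0 : HasFDerivAt g g' (p + (0 : ℝ) • e) := by simpa using h
  have h2 : HasDerivAt (fun t : ℝ => g (p + t • e)) (g' e) 0 :=
    h0.comp_hasDerivAt (0 : ℝ) h1
  have h3 := h2.le_of_lip' (len_nonneg e) (Eventually.of_forall fun t => ?_)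
  · simpa using h3
  · simp only [zero_smul, add_zero, sub_zero, Real.norm_eq_abs]
    refine (hg _ _).trans ?_
    rw [add_sub_cancel_left, len_smul, mul_comm]

/-- The derivative of `g` along a curve on which it increases. -/
lemma der_lower {g : V → ℝ} {γ : ℝ → V} {e p : V} {ε : ℝ} {g' : V →L[ℝ] ℝ}
    (h : HasFDerivAt g g' p) (h0 : γ 0 = p) (hγ : HasDerivAt γ e 0)
    (hi : ∀ᶠ t in 𝓝[>] (0 : ℝ), g p + ε * t ≤ g (γ t)) : ε ≤ g' e := by
  have h' : HasFDerivAt g g' (γ 0) := by rw [h0]; exact h
  have h2 : HasDerivAt (fun t : ℝ => g (γ t)) (g' e) 0 := h'.comp_hasDerivAt (0 : ℝ) hγ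
  have h3 := (hasDerivAt_iff_tendsto_slope.1 h2).mono_left
    (nhdsWithin_mono (0 : ℝ) (fun t (ht : t ∈ Ioi (0 : ℝ)) => (ne_of_gt ht : t ≠ 0)))
  refine ge_of_tendsto h3 ?_
  filter_upwards [hi, self_mem_nhdsWithin] with t ht ht0
  have ht0' : (0 : ℝ) < t := ht0
  rw [slope_def_field, sub_zero, le_div_iff₀ ht0', h0]
  linarith

/-- The vorticity is smooth. -/
lemma sm_vort {v : V → V} (hv : SM v) : ContDiff ℝ ∞ (vort v) := by
  rw [contDiff_pi]
  exact fun i => sm_vortL hv i

lemma len_smooth {a : V} (ha : a ≠ 0) : ContDiffAt ℝ ∞ len a := by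
  unfold len
  refine ContDiffAt.sqrt ?_ ?_
  · have : (fun a : V => a ⬝ᵥ a) = fun a : V => a 0 * a 0 + a 1 * a 1 + a 2 * a 2 := by
      funext a
      simp [dotProduct, Fin.sum_univ_three]
    rw [this]
    fun_prop
  · have h := len_pos ha
    unfold len at h
    exact (Real.sqrt_pos.1 h).ne'

/-- At a point of differentiability `g` increases in the direction of the field. -/
lemma dir_ge {v : V → V} {θ m g : V → ℝ} {a p : V} {R ε σ d : ℝ} (hv : SM v)
    (hσ : σ = 1 ∨ σ = -1) (hd : 0 < d)
    (hU : ∀ q ∈ ball p d, θ q = σ ∧ ‖q - a‖ ≤ R ∧ m q < om v q ∧ vort v q ≠ 0)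
    (hg : ∀ p q l, Arc (fun y => θ y • vort v y) {y | ‖y - a‖ ≤ R ∧ m y < om v y} p q l →
      g p + ε * l ≤ g q) {g' : V →L[ℝ] ℝ} (h : HasFDerivAt g g' p) :
    ε ≤ g' ((len (vort v p))⁻¹ • σ • vort v p) := by
  have hp := hU p (mem_ball_self hd)
  have hf : ContDiffAt ℝ 1 (fun q => (len (vort v q))⁻¹ • σ • vort v q) p := by
    have h1 : ContDiffAt ℝ 1 (vort v) p := ((sm_vort hv).of_le (by exact_mod_cast le_top)).contDiffAt
    have h2 : ContDiffAt ℝ 1 (fun q => len (vort v q)) p :=
      ((len_smooth hp.2.2.2).of_le (by exact_mod_cast le_top)).comp p h1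
    have h3 : ContDiffAt ℝ 1 (fun q => σ • vort v q) p := h1.const_smul σ
    exact (h2.inv (len_pos hp.2.2.2).ne').smul h3
  obtain ⟨γ, h0, e, he, hγ⟩ :=
    ContDiffAt.exists_forall_mem_closedBall_exists_eq_forall_mem_Ioo_hasDerivAt₀ hf 0
  have hγ0 := hγ 0 ⟨by linarith, by linarith⟩
  rw [h0] at hγ0
  refine der_lower h h0 hγ0 ?_
  have hc : ∀ᶠ t in 𝓝 (0 : ℝ), γ t ∈ ball p d := by
    have : ContinuousAt γ 0 := hγ0.continuousAt
    exact this.eventually_mem (by rw [h0]; exact ball_mem_nhds p hd)
  obtain ⟨h1, hh1, hh2⟩ := Metric.eventually_nhds_iff.1 hc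
  filter_upwards [Ioo_mem_nhdsGT (lt_min he hh1)] with t ht
  have ht1 : t < e := ht.2.trans_le (min_le_left _ _)
  have ht2 : t < h1 := ht.2.trans_le (min_le_right _ _)
  refine hg p (γ t) t ⟨ht.1, γ, h0, rfl, fun s hs => ?_⟩
  have hs1 : γ s ∈ ball p d := by
    apply hh2
    rw [Real.dist_eq, sub_zero, abs_of_nonneg hs.1]
    linarith [hs.2]
  obtain ⟨q1, q2, q3, q4⟩ := hU _ hs1
  refine ⟨⟨q2, q3⟩, ?_⟩
  have h3 := (hγ s ⟨by linarith [hs.1], by linarith [hs.2]⟩).hasDerivWithinAt (s := Icc 0 t)
  have e1 : len (θ (γ s) • vort v (γ s)) = len (vort v (γ s)) := by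
    rw [len_smul, q1]
    rcases hσ with h | h <;> simp [h]
  rw [q1] at e1
  simp only [q1, e1]
  exact h3

/-! ### Mollification -/

section
variable {δ : ℝ} (φ : V → ℝ) (g : V → ℝ)

/-- the mollified function -/
noncomputable def mo (x : V) : ℝ := ∫ z, φ z * g (x - z)

variable {φ g}

lemma mo_int (hφ : Continuous φ) (hs : HasCompactSupport φ) (hg : Continuous g) (x : V) :
    Integrable (fun z => φ z * g (x - z)) :=
  (hφ.mul (hg.comp (continuous_const.sub continuous_id))).integrable_of_hasCompactSupport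
    hs.mul_right

lemma mo_lip (hφ : Continuous φ) (hs : HasCompactSupport φ) (h0 : ∀ z, 0 ≤ φ z)
    (h1 : ∫ z, φ z = 1) (hgc : Continuous g) (hg : ∀ y y', |g y - g y'| ≤ len (y - y'))
    (y y' : V) : |mo φ g y - mo φ g y'| ≤ len (y - y') := by
  unfold mo
  rw [← integral_sub (mo_int hφ hs hgc y) (mo_int hφ hs hgc y')]
  have hi : Integrable φ := hφ.integrable_of_hasCompactSupport hs
  calc |∫ z, (φ z * g (y - z) - φ z * g (y' - z))|
      ≤ ∫ z, φ z * len (y - y') := by
        rw [← Real.norm_eq_abs]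
        refine norm_integral_le_of_norm_le (hi.mul_const _) (Eventually.of_forall fun z => ?_)
        rw [← mul_sub, norm_mul, Real.norm_of_nonneg (h0 z), Real.norm_eq_abs]
        refine mul_le_mul_of_nonneg_left ((hg _ _).trans ?_) (h0 z)
        rw [sub_sub_sub_cancel_right]
    _ = len (y - y') := by rw [integral_mul_const, h1, one_mul]

lemma mo_dir (hφ : Continuous φ) (hs : HasCompactSupport φ) (h0 : ∀ z, 0 ≤ φ z)
    (hgc : Continuous g) (hg : ∀ y y', |g y - g y'| ≤ len (y - y')) (y e : V) :
    Integrable (fun z => φ z * fderiv ℝ g (y - z) e) ∧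
      HasDerivAt (fun t : ℝ => mo φ g (y + t • e)) (∫ z, φ z * fderiv ℝ g (y - z) e) 0 := by
  have hi : Integrable φ := hφ.integrable_of_hasCompactSupport hs
  have hL : LipschitzWith 2 g := by
    refine LipschitzWith.of_dist_le_mul fun y y' => ?_
    rw [Real.dist_eq, dist_eq_norm]
    exact (hg y y').trans (len_le_norm _)
  have hae : ∀ᵐ z : V, DifferentiableAt ℝ g (y - z) :=
    (Measure.measurePreserving_sub_left volume y).quasiMeasurePreserving.ae
      hL.ae_differentiableAt
  refine hasDerivAt_integral_of_dominated_loc_of_lip (μ := volume)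
    (F := fun (t : ℝ) (z : V) => φ z * g (y + t • e - z)) (bound := fun z => φ z * len e)
    (s := univ) univ_mem ?_ ?_ ?_ ?_ ?_ ?_
  · exact Eventually.of_forall fun t => (mo_int hφ hs hgc _).aestronglyMeasurable
  · exact mo_int hφ hs hgc _
  · have h1 : Measurable (fun z : V => fderiv ℝ g (y - z) e) :=
      (measurable_fderiv_apply_const ℝ g e).comp (measurable_const.sub measurable_id)
    exact (hφ.measurable.mul h1).aestronglyMeasurable
  · refine Eventually.of_forall fun z => ?_
    rw [lipschitzOnWith_univ]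
    refine LipschitzWith.of_dist_le_mul fun t t' => ?_
    rw [Real.dist_eq, Real.dist_eq, ← mul_sub, abs_mul, abs_of_nonneg (h0 z), Real.coe_nnabs,
      abs_of_nonneg (mul_nonneg (h0 z) (len_nonneg e)), mul_assoc]
    refine mul_le_mul_of_nonneg_left ((hg _ _).trans ?_) (h0 z)
    have : y + t • e - z - (y + t' • e - z) = (t - t') • e := by
      rw [sub_smul]; abel
    rw [this, len_smul, mul_comm]
  · exact hi.mul_const _
  · filter_upwards [hae] with z hz
    have h1 : HasDerivAt (fun t : ℝ => y + t • e - z) e 0 := by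
      simpa using (((hasDerivAt_id (0 : ℝ)).smul_const e).const_add y).sub_const z
    have h2 : HasFDerivAt g (fderiv ℝ g (y - z)) (y + (0 : ℝ) • e - z) := by
      simpa using hz.hasFDerivAt
    exact (h2.comp_hasDerivAt (0 : ℝ) h1).const_mul (φ z)

/-- Lower bound of the directional derivative of the mollified function. -/
lemma mo_ge (hφ : Continuous φ) (hs : HasCompactSupport φ) (h0 : ∀ z, 0 ≤ φ z)
    (h1 : ∫ z, φ z = 1) (hgc : Continuous g) (hg : ∀ y y', |g y - g y'| ≤ len (y - y'))
    (hd : Differentiable ℝ (mo φ g)) {y e : V} {c : ℝ}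
    (hc : ∀ z, φ z ≠ 0 → DifferentiableAt ℝ g (y - z) → c ≤ fderiv ℝ g (y - z) e) :
    c ≤ fderiv ℝ (mo φ g) y e := by
  obtain ⟨i1, i2⟩ := mo_dir hφ hs h0 hgc hg y e
  have h3 : HasDerivAt (fun t : ℝ => mo φ g (y + t • e)) (fderiv ℝ (mo φ g) y e) 0 := by
    have h1 : HasDerivAt (fun t : ℝ => y + t • e) e 0 := by
      simpa using ((hasDerivAt_id (0 : ℝ)).smul_const e).const_add y
    have h2 : HasFDerivAt (mo φ g) (fderiv ℝ (mo φ g) y) (y + (0 : ℝ) • e) := by
      simpa using (hd y).hasFDerivAt
    exact h2.comp_hasDerivAt (0 : ℝ) h1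
  rw [h3.unique i2]
  have hi : Integrable φ := hφ.integrable_of_hasCompactSupport hs
  have hL : LipschitzWith 2 g := by
    refine LipschitzWith.of_dist_le_mul fun y y' => ?_
    rw [Real.dist_eq, dist_eq_norm]
    exact (hg y y').trans (len_le_norm _)
  have hae : ∀ᵐ z : V, DifferentiableAt ℝ g (y - z) :=
    (Measure.measurePreserving_sub_left volume y).quasiMeasurePreserving.ae
      hL.ae_differentiableAt
  calc c = ∫ z, φ z * c := by rw [integral_mul_const, h1, one_mul]
    _ ≤ _ := by
      refine integral_mono_ae (hi.mul_const _) i1 ?_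
      filter_upwards [hae] with z hz
      by_cases hz0 : φ z = 0
      · simp [hz0]
      · exact mul_le_mul_of_nonneg_left (hc z hz0 hz) (h0 z)

end

end MolH

open MolH

/-- VL-13. Regularisation of a function which increases along the arcs. -/
theorem mol : StmMol := by
  intro v θ m g a R ε hv hR hε hε1 hm hm0 hθ hg hinc
  have hL : LipschitzWith 2 g := by
    refine LipschitzWith.of_dist_le_mul fun y y' => ?_
    rw [Real.dist_eq, dist_eq_norm]
    exact (hg y y').trans (len_le_norm _)
  have hgc : Continuous g := hL.continuous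
  have hvc : Continuous (vort v) := (sm_vort hv).continuous
  -- the uniform scale
  obtain ⟨δ₀, hδ₀, hu⟩ : ∃ δ₀ : ℝ, 0 < δ₀ ∧ ∀ y ∈ closedBall a R, ∀ p ∈ closedBall a R,
      dist p y < δ₀ → len (vort v p - vort v y) ≤ ε / 4 ∧ |m p - m y| ≤ 1 / 4 := by
    have hcp : IsCompact (closedBall a R) := isCompact_closedBall a R
    have u1 := hcp.uniformContinuousOn_of_continuous hvc.continuousOn
    have u2 := hcp.uniformContinuousOn_of_continuous hm.continuousOn
    rw [Metric.uniformContinuousOn_iff] at u1 u2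
    obtain ⟨d1, hd1, k1⟩ := u1 (ε / 8) (by positivity)
    obtain ⟨d2, hd2, k2⟩ := u2 (1 / 4) (by norm_num)
    refine ⟨min d1 d2, lt_min hd1 hd2, fun y hy p hp hd => ⟨?_, ?_⟩⟩
    · have := k1 p hp y hy (hd.trans_le (min_le_left _ _))
      rw [dist_eq_norm] at this
      linarith [len_le_norm (vort v p - vort v y)]
    · have := k2 p hp y hy (hd.trans_le (min_le_right _ _))
      rw [Real.dist_eq] at this
      exact this.le
  set δ : ℝ := min δ₀ (R / 2) with hδd
  have hδ : 0 < δ := lt_min hδ₀ (by linarith)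
  let ψ : ContDiffBump (0 : V) := ⟨δ / 2, δ, by linarith, by linarith⟩
  set φ : V → ℝ := ψ.normed volume with hφd
  have hφ : Continuous φ := ψ.continuous_normed
  have hs : HasCompactSupport φ := ψ.hasCompactSupport_normed
  have h0 : ∀ z, 0 ≤ φ z := fun z => ψ.nonneg_normed z
  have h1 : ∫ z, φ z = 1 := ψ.integral_normed
  have hGc : ContDiff ℝ 1 (mo φ g) := by
    have h := ψ.hasCompactSupport_normed.contDiff_convolution_left (μ := volume) (n := 1)
      (ContinuousLinearMap.lsmul ℝ ℝ) (ψ.contDiff_normed (μ := volume)) hgc.locallyIntegrable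
    have e : mo φ g = (MeasureTheory.convolution (ψ.normed volume) g
        (ContinuousLinearMap.lsmul ℝ ℝ) volume) := by
      funext x
      simp [mo, MeasureTheory.convolution, hφd]
    rw [e]
    exact_mod_cast h
  have hGd : Differentiable ℝ (mo φ g) := hGc.differentiable (by norm_num)
  refine ⟨mo φ g, hGc, mo_lip hφ hs h0 h1 hgc hg, fun y hy => ?_⟩
  have hG := fd_le (mo_lip hφ hs h0 h1 hgc hg) (hGd y).hasFDerivAt
  rcases le_or_gt (om v y) (m y + 1) with hcase | hcase
  · -- little vorticity
    have h2 := hG (θ y • vort v y)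
    have h3 : len (θ y • vort v y) = om v y := by
      rw [len_smul, om]
      rcases hθ.1 y with h | h <;> simp [h]
    rw [h3] at h2
    have h4 := (abs_le.1 h2).1
    have h5 := Pool.Agent.Q67.VD.om_nonneg v y
    nlinarith
  · -- much vorticity
    set σ := θ y with hσ
    have hσ' : σ = 1 ∨ σ = -1 := hθ.1 y
    have hyR : y ∈ closedBall a R := by
      rw [mem_closedBall, dist_eq_norm]; linarith
    have hom : 1 < om v y := by linarith [hm0 y]
    have hy0 : vort v y ≠ 0 := by
      intro h
      rw [om, h, len_zero] at hom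
      linarith
    -- the neighbourhood
    have hnb : ∀ p ∈ ball y δ, p ∈ closedBall a R ∧ m p < om v p ∧ vort v p ≠ 0 ∧
        len (vort v p - vort v y) ≤ ε / 4 := by
      intro p hp
      rw [Metric.mem_ball] at hp
      have hpR : p ∈ closedBall a R := by
        rw [mem_closedBall]
        have := dist_triangle p y a
        have h6 : dist y a ≤ R / 2 := by rw [dist_eq_norm]; exact hy
        linarith [min_le_right δ₀ (R / 2)]
      obtain ⟨k1, k2⟩ := hu y hyR p hpR (hp.trans_le (min_le_left _ _))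
      have k3 := (abs_le.1 (len_abs (vort v p) (vort v y))).1
      have k4 := (abs_le.1 k2).2
      have k5 : om v y - ε / 4 ≤ om v p := by
        unfold om; linarith
      have k6 : m p < om v p := by linarith
      refine ⟨hpR, k6, fun h => ?_, k1⟩
      have : om v p = 0 := by rw [om, h, len_zero]
      have := hm0 p
      linarith
    have hθc : ∀ p ∈ ball y δ, θ p = σ := by
      have hc : ContinuousOn θ (ball y δ) := hθ.2.mono fun p hp => by
        obtain ⟨k1, -, k2, -⟩ := hnb p hp
        rw [mem_closedBall, dist_eq_norm] at k1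
        exact ⟨k1, k2⟩
      have hpc : IsPreconnected (ball y δ) := (convex_ball y δ).isPreconnected
      have hsq : EqOn (θ ^ 2) ((fun _ => σ) ^ 2) (ball y δ) := fun p _ => by
        simp only [Pi.pow_apply]
        rcases hθ.1 p with h | h <;> rcases hσ' with h' | h' <;> simp [h, h']
      exact hpc.eq_of_sq_eq hc continuousOn_const hsq
        (fun _ => by rcases hσ' with h' | h' <;> simp [h']) (mem_ball_self hδ) rfl
    set e : V := (len (vort v y))⁻¹ • σ • vort v y with he
    have key : ε / 2 ≤ fderiv ℝ (mo φ g) y e := by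
      refine mo_ge hφ hs h0 h1 hgc hg hGd fun z hz hdz => ?_
      have hz1 : z ∈ ball (0 : V) δ := by
        have : z ∈ Function.support φ := hz
        rw [hφd, ψ.support_normed_eq] at this
        exact this
      set p := y - z with hp
      have hpb : p ∈ ball y δ := by
        rw [Metric.mem_ball, dist_eq_norm, hp, sub_sub_cancel_left, norm_neg]
        simpa using hz1
      have hd : 0 < δ - dist p y := by
        rw [Metric.mem_ball] at hpb; linarith
      have hsub : ball p (δ - dist p y) ⊆ ball y δ := ball_subset_ball' (by linarith)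
      have k := dir_ge (θ := θ) (m := m) (a := a) (R := R) (ε := ε) hv hσ' hd (fun q hq => by
        have hq' := hsub hq
        obtain ⟨q1, q2, q3, q4⟩ := hnb q hq'
        rw [mem_closedBall, dist_eq_norm] at q1
        exact ⟨hθc q hq', q1, q2, q3⟩) hinc hdz.hasFDerivAt
      obtain ⟨-, -, p3, p4⟩ := hnb p hpb
      have k2 := fd_le hg hdz.hasFDerivAt ((len (vort v p))⁻¹ • σ • vort v p - e)
      have k3 : len ((len (vort v p))⁻¹ • σ • vort v p - e) ≤ ε / 2 := by
        have e1 : (len (vort v p))⁻¹ • σ • vort v p - e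
            = σ • ((len (vort v p))⁻¹ • vort v p - (len (vort v y))⁻¹ • vort v y) := by
          rw [he, smul_sub, smul_comm σ, smul_comm σ]
        rw [e1, len_smul]
        have e2 : |σ| = 1 := by rcases hσ' with h | h <;> simp [h]
        rw [e2, one_mul]
        refine (unit_sub p3 hy0).trans ?_
        have e3 : (len (vort v y))⁻¹ ≤ 1 := inv_le_one_of_one_le₀ hom.le
        have e4 : 0 ≤ (len (vort v y))⁻¹ := inv_nonneg.2 (len_nonneg _)
        have e5 := len_nonneg (vort v p - vort v y)
        nlinarith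
      rw [map_sub] at k2
      have := (abs_le.1 k2).2
      linarith
    have e1 : θ y • vort v y = om v y • e := by
      rw [he, om, smul_smul, mul_inv_cancel₀ (len_pos hy0).ne', one_smul]
    rw [e1, map_smul, smul_eq_mul]
    have := hm0 y
    nlinarith

end Pool.Agent.J4H12.VL
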