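import Pool.Agent.Q85.VL.Ki

/-!
Powers `|u|^α`, `α < 4 / 3`, of a velocity with bounded energy belong to the Kato class, uniformly
in the time.
-/

set_option autoImplicit false

open MeasureTheory Set Metric Filter Topology
open H459R3.NS Pool.Agent.W268.NS Pool.Agent.Q67.VD

namespace Pool.Agent.J4H12.VL

open Pool.Agent.Q85.CC Pool.Agent.Q85.CL Pool.Agent.Q151.CC Pool.Agent.Q85.VL

/-- Powers of the distance. -/
lemma int_pow0 {q : ℝ} (hq0 : 0 ≤ q) (hq : q < 3) (r : ℝ) :
    IntegrableOn (fun y : V => ‖y‖ ^ (-q)) (ball 0 r) := by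
  have h := (integrableOn_fun_norm_addHaar (volume : Measure V) (f := fun s : ℝ => s ^ (-q))
    (r := r)).2 (by
    have h1 : Module.finrank ℝ V = 3 := by simp [V]
    rw [h1]
    have h2 : IntegrableOn (fun y : ℝ => y ^ (2 - q)) (Ioo 0 r) := by
      rcases le_or_gt r 0 with hr | hr
      · rw [Ioo_eq_empty (not_lt.2 hr)]
        exact integrableOn_empty
      · exact ((intervalIntegral.intervalIntegrable_rpow' (by linarith : -1 < 2 - q)
          (a := 0) (b := r)).1).mono_set Ioo_subset_Ioc_self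
    refine h2.congr_fun (fun y hy => ?_) measurableSet_Ioo
    have hy0 : 0 < y := hy.1
    simp only [smul_eq_mul]
    rw [show (2 : ℝ) - q = ((2 : ℕ) : ℝ) + -q by push_cast; ring, Real.rpow_add hy0,
      Real.rpow_natCast])
  exact h

lemma pow_small {q : ℝ} (hq0 : 0 ≤ q) (hq : q < 3) (μ : ℝ) (hμ : 0 < μ) : ∃ S : ℝ, 0 < S ∧
    ∀ S', 0 < S' → S' ≤ S → ∀ x : V, IntegrableOn (fun y => ‖y - x‖ ^ (-q)) (closedBall x S') ∧
      ∫ y in closedBall x S', ‖y - x‖ ^ (-q) ≤ μ := by
  have hint : IntegrableOn (fun y : V => ‖y‖ ^ (-q)) (closedBall 0 1) :=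
    (int_pow0 hq0 hq 2).mono_set (closedBall_subset_ball (by norm_num))
  have hlim := tendsto_setIntegral_of_antitone (μ := volume) (f := fun y : V => ‖y‖ ^ (-q))
    (s := fun n : ℕ => closedBall (0 : V) (1 / ((n : ℝ) + 1)))
    (fun n => isClosed_closedBall.measurableSet)
    (fun n k hnk => closedBall_subset_closedBall (by
      have : (n : ℝ) ≤ k := by exact_mod_cast hnk
      exact one_div_le_one_div_of_le (by positivity) (by linarith)))
    ⟨0, by simpa using hint⟩
  have h0 : ∫ y in ⋂ n : ℕ, closedBall (0 : V) (1 / ((n : ℝ) + 1)), ‖y‖ ^ (-q) = 0 := by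
    have hsub : (⋂ n : ℕ, closedBall (0 : V) (1 / ((n : ℝ) + 1))) ⊆ {0} := by
      intro y hy
      rw [mem_iInter] at hy
      have h1 : ∀ n : ℕ, ‖y‖ ≤ 1 / ((n : ℝ) + 1) := fun n => by simpa using hy n
      have h2 : ‖y‖ ≤ 0 := ge_of_tendsto' tendsto_one_div_add_atTop_nhds_zero_nat h1
      simpa using norm_le_zero_iff.1 h2
    refine setIntegral_measure_zero _ (measure_mono_null hsub (measure_singleton _))
  rw [h0] at hlim
  obtain ⟨n, hn⟩ := (hlim.eventually (gt_mem_nhds hμ)).exists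
  refine ⟨1 / ((n : ℝ) + 1), by positivity, fun S' _ hSS x => ?_⟩
  have hmp : MeasurePreserving (fun y : V => y - x) volume volume :=
    measurePreserving_sub_right volume x
  have hpre : (fun y : V => y - x) ⁻¹' closedBall (0 : V) S' = closedBall x S' := by
    ext y
    simp [mem_closedBall, dist_eq_norm]
  have hS1 : S' ≤ 1 := hSS.trans (by
    rw [div_le_one (by positivity)]
    have : (0 : ℝ) ≤ n := Nat.cast_nonneg n
    linarith)
  have hi0 : IntegrableOn (fun y : V => ‖y‖ ^ (-q)) (closedBall 0 S') :=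
    hint.mono_set (closedBall_subset_closedBall hS1)
  constructor
  · have h5 := (hmp.integrableOn_comp_preimage (MeasurableEquiv.subRight x).measurableEmbedding
      (s := closedBall (0 : V) S') (f := fun y : V => ‖y‖ ^ (-q))).2 hi0
    rw [hpre] at h5
    exact h5
  · have h4 := hmp.setIntegral_preimage_emb (MeasurableEquiv.subRight x).measurableEmbedding
      (fun y : V => ‖y‖ ^ (-q)) (closedBall (0 : V) S')
    rw [hpre] at h4
    rw [h4]
    refine le_trans ?_ hn.le
    refine setIntegral_mono_set (hint.mono_set (closedBall_subset_closedBall (by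
      rw [div_le_one (by positivity)]
      have : (0 : ℝ) ≤ n := Nat.cast_nonneg n
      linarith))) (Eventually.of_forall fun y => Real.rpow_nonneg (norm_nonneg _) _)
      (closedBall_subset_closedBall hSS).eventuallyLE

/-- The retraction on the cube. -/
noncomputable def cla (a : V) (R : ℝ) (y : V) : V := fun i => max (a i - R) (min (a i + R) (y i))

lemma cla_cont (a : V) (R : ℝ) : Continuous (cla a R) := by
  unfold cla
  fun_prop

lemma cla_mem {a : V} {R : ℝ} (hR : 0 ≤ R) (y : V) : cla a R y ∈ closedBall a R := by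
  rw [mem_closedBall, dist_pi_le_iff hR]
  intro i
  rw [Real.dist_eq, abs_le]
  unfold cla
  constructor
  · have := le_max_left (a i - R) (min (a i + R) (y i))
    linarith
  · have : max (a i - R) (min (a i + R) (y i)) ≤ a i + R :=
      max_le (by linarith) (min_le_left _ _)
    linarith

lemma cla_eq {a : V} {R : ℝ} {y : V} (hy : ‖y - a‖ ≤ R) : cla a R y = y := by
  funext i
  have h1 := abs_le.1 ((norm_le_pi_norm (y - a) i).trans hy)
  simp only [Pi.sub_apply] at h1
  unfold cla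
  rw [min_eq_right (by linarith [h1.2]), max_eq_right (by linarith [h1.1])]

/-- Young's inequality in the form used here. -/
lemma young {α q lam : ℝ} (hα0 : 0 ≤ α) (hα : α < 4 / 3) (hq : q = 2 / (2 - α)) (hlam : 0 < lam) :
    ∃ C : ℝ, 0 ≤ C ∧ ∀ b d : ℝ, 0 ≤ b → 0 < d → b ^ α / d ≤ lam * b ^ 2 + C * d ^ (-q) := by
  have h2α : 0 < 2 - α := by linarith
  have hq1 : 1 ≤ q := by
    rw [hq, le_div_iff₀ h2α]
    linarith
  have hq0 : 0 < q := by linarith
  obtain ⟨k, hk⟩ : ∃ k : ℝ, k = lam ^ (-(1 / (2 - α))) := ⟨_, rfl⟩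
  have hk0 : 0 < k := by rw [hk]; exact Real.rpow_pos_of_pos hlam _
  refine ⟨k ^ α, (Real.rpow_pos_of_pos hk0 _).le, fun b d hb hd => ?_⟩
  have hdq : 0 < d ^ (-(q / 2)) := Real.rpow_pos_of_pos hd _
  -- compare `b` with `k d^(-q/2)`
  have hdd : d ^ (-q) = (d ^ (-(q / 2))) ^ (2 : ℕ) := by
    rw [← Real.rpow_natCast, ← Real.rpow_mul hd.le]
    congr 1
    push_cast
    ring
  have hd1 : 1 / d = (d ^ (-(q / 2))) ^ (2 - α) := by
    rw [← Real.rpow_mul hd.le, one_div, ← Real.rpow_neg_one]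
    congr 1
    rw [hq]
    field_simp
  obtain ⟨z, hz⟩ : ∃ z, z = d ^ (-(q / 2)) := ⟨_, rfl⟩
  rw [← hz] at hdd hd1 hdq
  rw [hdd, div_eq_mul_one_div, hd1]
  have hkl : k ^ (2 - α) * lam = 1 := by
    rw [hk, ← Real.rpow_mul hlam.le]
    have e1 : -(1 / (2 - α)) * (2 - α) = -1 := by field_simp
    rw [e1, Real.rpow_neg_one, inv_mul_cancel₀ hlam.ne']
  have hz2 : z ^ (2 : ℕ) = z ^ α * z ^ (2 - α) := by
    rw [← Real.rpow_add hdq, ← Real.rpow_natCast]
    congr 1
    push_cast
    ring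
  rcases le_total b (k * z) with h | h
  · have h1 : b ^ α ≤ (k * z) ^ α := Real.rpow_le_rpow hb h hα0
    have h2 : b ^ α * z ^ (2 - α) ≤ (k * z) ^ α * z ^ (2 - α) :=
      mul_le_mul_of_nonneg_right h1 (Real.rpow_nonneg hdq.le _)
    rw [Real.mul_rpow hk0.le hdq.le] at h2
    have h3 : k ^ α * z ^ α * z ^ (2 - α) = k ^ α * z ^ (2 : ℕ) := by
      rw [hz2]
      ring
    have h4 : 0 ≤ lam * b ^ 2 := by positivity
    linarith
  · have hb0 : 0 < b := lt_of_lt_of_le (mul_pos hk0 hdq) h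
    have h1 : z ^ (2 - α) ≤ lam * b ^ (2 - α) := by
      have h2 : (k * z) ^ (2 - α) ≤ b ^ (2 - α) :=
        Real.rpow_le_rpow (mul_pos hk0 hdq).le h h2α.le
      rw [Real.mul_rpow hk0.le hdq.le] at h2
      have h3 := mul_le_mul_of_nonneg_left h2 hlam.le
      have h4 : lam * (k ^ (2 - α) * z ^ (2 - α)) = z ^ (2 - α) := by
        rw [← mul_assoc, mul_comm lam, hkl, one_mul]
      linarith
    have h5 : b ^ α * z ^ (2 - α) ≤ b ^ α * (lam * b ^ (2 - α)) :=
      mul_le_mul_of_nonneg_left h1 (Real.rpow_nonneg hb _)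
    have h6 : b ^ α * (lam * b ^ (2 - α)) = lam * b ^ 2 := by
      have h7 : b ^ (2 : ℕ) = b ^ α * b ^ (2 - α) := by
        rw [← Real.rpow_add hb0, ← Real.rpow_natCast]
        congr 1
        push_cast
        ring
      rw [h7]
      ring
    have h8 : 0 ≤ k ^ α * z ^ (2 : ℕ) :=
      mul_nonneg (Real.rpow_nonneg hk0.le _) (by positivity)
    linarith

/-- The threshold `m + M |w|^α`. -/
theorem kato_pow {T₀ T E R α M : ℝ} {a : V} {w : ℝ → V → V} {m : ℝ → V → ℝ} (hR : 0 < R)
    (hE : 0 ≤ E) (hα0 : 0 ≤ α) (hα : α < 4 / 3) (hM : 0 ≤ M)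
    (hw : ∀ t ∈ Ioo T₀ T, ContinuousOn (w t) (closedBall a R))
    (hwE : ∀ t ∈ Ioo T₀ T, ∫ y in closedBall a R, ‖w t y‖ ^ 2 ≤ E)
    (hmc : ∀ t ∈ Ioo T₀ T, Continuous (m t)) (hm0 : ∀ t ∈ Ioo T₀ T, ∀ y, 0 ≤ m t y)
    (hK : Kato T₀ T a R m) :
    ∃ m' : ℝ → V → ℝ, (∀ t ∈ Ioo T₀ T, Continuous (m' t)) ∧
      (∀ t ∈ Ioo T₀ T, ∀ y, 0 ≤ m' t y) ∧ Kato T₀ T a R m' ∧
      ∀ t ∈ Ioo T₀ T, ∀ y, ‖y - a‖ ≤ R → m' t y = m t y + M * ‖w t y‖ ^ α := by
  refine ⟨fun t y => m t y + M * ‖w t (cla a R y)‖ ^ α, fun t ht => ?_, fun t ht y => ?_, ?_,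
    fun t ht y hy => ?_⟩
  · have h1 : Continuous fun y => w t (cla a R y) :=
      (hw t ht).comp_continuous (cla_cont a R) fun y => cla_mem hR.le y
    exact (hmc t ht).add (continuous_const.mul (h1.norm.rpow_const fun _ => Or.inr hα0))
  · exact add_nonneg (hm0 t ht y) (mul_nonneg hM (Real.rpow_nonneg (norm_nonneg _) _))
  · intro μ hμ
    obtain ⟨q, hq⟩ : ∃ q, q = 2 / (2 - α) := ⟨_, rfl⟩
    have h2α : 0 < 2 - α := by linarith
    have hq0 : 0 < q := by rw [hq]; positivity
    have hq3 : q < 3 := by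
      rw [hq, div_lt_iff₀ h2α]
      linarith
    obtain ⟨lam, hlam⟩ : ∃ lam, lam = μ / (4 * (M + 1) * (E + 1)) := ⟨_, rfl⟩
    have hlam0 : 0 < lam := by rw [hlam]; positivity
    obtain ⟨C, hC, hy⟩ := young hα0 hα hq hlam0
    obtain ⟨S₁, hS₁, h1⟩ := hK (μ / 2) (by positivity)
    obtain ⟨S₂, hS₂, h2⟩ := pow_small hq0.le hq3 (μ / (4 * (M + 1) * (C + 1))) (by positivity)
    refine ⟨min S₁ S₂, lt_min hS₁ hS₂, fun t ht x S hS hSS hxS => ?_⟩
    have h3 := h1 t ht x S hS (hSS.trans (min_le_left _ _)) hxS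
    obtain ⟨hi, h4⟩ := h2 S hS (hSS.trans (min_le_right _ _)) x
    have hsub : closedBall x S ⊆ closedBall a R := by
      refine closedBall_subset_closedBall' ?_
      rw [dist_eq_norm]
      linarith
    have hcw : Continuous fun y => w t (cla a R y) :=
      (hw t ht).comp_continuous (cla_cont a R) fun y => cla_mem hR.le y
    have hcp : Continuous fun y => ‖w t (cla a R y)‖ ^ α :=
      hcw.norm.rpow_const fun _ => Or.inr hα0
    have hc2 : Continuous fun y => ‖w t (cla a R y)‖ ^ 2 := hcw.norm.pow 2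
    have i1 := int_inv x S (hmc t ht)
    have i2 := int_inv x S hcp
    have e1 : ∀ y, (m t y + M * ‖w t (cla a R y)‖ ^ α) / ‖y - x‖
        = m t y / ‖y - x‖ + M * (‖w t (cla a R y)‖ ^ α / ‖y - x‖) := by
      intro y
      ring
    simp only [e1]
    rw [integral_add i1 (i2.const_mul _), integral_const_mul]
    have i3 : IntegrableOn (fun y => lam * ‖w t (cla a R y)‖ ^ 2 + C * ‖y - x‖ ^ (-q))
        (closedBall x S) :=
      ((hc2.continuousOn.integrableOn_compact (isCompact_closedBall x S)).const_mul lam).add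
        (hi.const_mul C)
    have h5 : ∫ y in closedBall x S, ‖w t (cla a R y)‖ ^ α / ‖y - x‖
        ≤ ∫ y in closedBall x S, (lam * ‖w t (cla a R y)‖ ^ 2 + C * ‖y - x‖ ^ (-q)) := by
      refine integral_mono_ae i2 i3 ?_
      have hne : ∀ᵐ y ∂(volume.restrict (closedBall x S)), y ≠ x :=
        ae_restrict_of_ae (by
          have : volume ({x} : Set V) = 0 := measure_singleton x
          exact compl_mem_ae_iff.2 this)
      filter_upwards [hne] with y hyx
      exact hy _ _ (norm_nonneg _) (norm_pos_iff.2 (sub_ne_zero.2 hyx))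
    have h6 : ∫ y in closedBall x S, (lam * ‖w t (cla a R y)‖ ^ 2 + C * ‖y - x‖ ^ (-q))
        = lam * (∫ y in closedBall x S, ‖w t (cla a R y)‖ ^ 2)
          + C * ∫ y in closedBall x S, ‖y - x‖ ^ (-q) := by
      rw [integral_add ((hc2.continuousOn.integrableOn_compact
        (isCompact_closedBall x S)).const_mul lam) (hi.const_mul C), integral_const_mul,
        integral_const_mul]
    have h7 : ∫ y in closedBall x S, ‖w t (cla a R y)‖ ^ 2 ≤ E := by
      have h8 : ∫ y in closedBall x S, ‖w t (cla a R y)‖ ^ 2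
          ≤ ∫ y in closedBall a R, ‖w t (cla a R y)‖ ^ 2 :=
        setIntegral_mono_set (hc2.continuousOn.integrableOn_compact (isCompact_closedBall a R))
          (Eventually.of_forall fun y => by positivity) hsub.eventuallyLE
      have h9 : ∫ y in closedBall a R, ‖w t (cla a R y)‖ ^ 2
          = ∫ y in closedBall a R, ‖w t y‖ ^ 2 :=
        setIntegral_congr_fun isClosed_closedBall.measurableSet fun y hy => by
          rw [mem_closedBall, dist_eq_norm] at hy
          simp only [cla_eq hy]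
      rw [h9] at h8
      exact h8.trans (hwE t ht)
    have h10 : lam * (∫ y in closedBall x S, ‖w t (cla a R y)‖ ^ 2) ≤ lam * (E + 1) :=
      mul_le_mul_of_nonneg_left (by linarith) hlam0.le
    have h11 : C * ∫ y in closedBall x S, ‖y - x‖ ^ (-q)
        ≤ (C + 1) * (μ / (4 * (M + 1) * (C + 1))) :=
      mul_le_mul (by linarith) h4 (setIntegral_nonneg isClosed_closedBall.measurableSet
        fun y _ => Real.rpow_nonneg (norm_nonneg _) _) (by positivity)
    have e2 : lam * (E + 1) = μ / (4 * (M + 1)) := by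
      rw [hlam]
      field_simp
    have e3 : (C + 1) * (μ / (4 * (M + 1) * (C + 1))) = μ / (4 * (M + 1)) := by
      field_simp
    have h12 : M * ∫ y in closedBall x S, ‖w t (cla a R y)‖ ^ α / ‖y - x‖
        ≤ (M + 1) * (μ / (4 * (M + 1)) + μ / (4 * (M + 1))) := by
      refine mul_le_mul (by linarith) ?_ (setIntegral_nonneg isClosed_closedBall.measurableSet
        fun y _ => div_nonneg (Real.rpow_nonneg (norm_nonneg _) _) (norm_nonneg _)) (by positivity)
      linarith
    have e4 : (M + 1) * (μ / (4 * (M + 1)) + μ / (4 * (M + 1))) = μ / 2 := by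
      field_simp
      ring
    linarith
  · simp only [cla_eq hy]

end Pool.Agent.J4H12.VL
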