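import Pool.Agent.J4H12.VL.LB

/-!
Project VL: two families of curves (`StmTF`).
-/

set_option autoImplicit false

open MeasureTheory Set Metric Filter Topology
open scoped ContDiff
open H459R3.NS Pool.Agent.W268.NS Pool.Agent.Q67.VD

namespace Pool.Agent.J4H12.VL

open Pool.Agent.Q85.CC Pool.Agent.Q85.CL Pool.Agent.Q151.CC Pool.Agent.Q85.VL

lemma uu_diff {κ ρ : ℝ} {g : V → ℝ} {x : V} (hκ : 0 < κ) (hρ : 0 < ρ) (y z : V) :
    uu κ ρ g x y - uu κ ρ g x z ≥ g y - g z - κ / 2 * len (y - z) := by
  have h1 := (abs_le.1 (ds_lip x hρ y z)).2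
  have h2 : κ / 2 * (ds x ρ y - ds x ρ z) ≤ κ / 2 * len (y - z) :=
    mul_le_mul_of_nonneg_left h1 (by positivity)
  unfold uu
  linarith

lemma uu_lip {κ ρ : ℝ} {g : V → ℝ} {x : V} (hκ : 0 < κ) (hρ : 0 < ρ)
    (hl : ∀ y z, |g y - g z| ≤ len (y - z)) (y z : V) :
    uu κ ρ g x y - uu κ ρ g x z ≤ (1 + κ / 2) * len (y - z) := by
  have h1 := (abs_le.1 (ds_lip x hρ y z)).1
  have h2 : κ / 2 * (-len (y - z)) ≤ κ / 2 * (ds x ρ y - ds x ρ z) :=
    mul_le_mul_of_nonneg_left h1 (by positivity)
  have h3 := (abs_le.1 (hl y z)).2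
  unfold uu
  linarith

theorem tf : StmTF := by
  intro κ ρ R r s x z f m W g hκ hκ1 hρ hL hr hrR hρr hs1 hs2 hz huz
  have hkr : 0 < κ * r := by positivity
  have hgs := hL.gs
  -- the constants
  obtain ⟨β, hβ⟩ : ∃ β, β = κ / 65536 * r := ⟨_, rfl⟩
  have hβ0 : 0 < β := by rw [hβ]; positivity
  have hkβ : κ * r = 65536 * β := by rw [hβ]; ring
  have huz' : uu κ ρ g x z = -(4 * β) := by rw [huz, hβ]; ring
  obtain ⟨q, hq⟩ : ∃ q, q = β / 8 := ⟨_, rfl⟩
  have hq0 : 0 < q := by rw [hq]; positivity
  have hqr : κ / 524288 * r = q := by rw [hq, hβ]; ring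
  rw [hqr]
  obtain ⟨r', hr'd⟩ : ∃ r', r' = r / 256 := ⟨_, rfl⟩
  rw [← hr'd]
  have hr' : 0 < r' := by rw [hr'd]; positivity
  have hrr : r' ≤ r / 2 := by rw [hr'd]; linarith
  have hkr' : κ * r' = 256 * β := by rw [hr'd]; linarith
  have hβr : 65536 * β ≤ r := by
    rw [← hkβ]
    have := mul_le_mul_of_nonneg_right hκ1 hr.le
    linarith
  -- the function of the second family
  obtain ⟨G, hGd⟩ : ∃ G : V → ℝ, G = fun y => stp ((ww κ q g z y + β) / (2 * β)) := ⟨_, rfl⟩
  obtain ⟨b, hbd⟩ : ∃ b : V → ℝ, b = fun y => stp' ((ww κ q g z y + β) / (2 * β)) / (2 * β) :=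
    ⟨_, rfl⟩
  have hG1 : ContDiff ℝ 1 G := by rw [hGd]; exact stp_comp_c1 (ww_c1 hgs z hq0) _ _
  have hGf : ∀ y n, fderiv ℝ G y n = b y * fderiv ℝ (ww κ q g z) y n := by
    intro y n
    rw [hGd, hbd]
    exact stp_comp_fd (ww_c1 hgs z hq0) _ _ y n
  have hb2 : 0 < 2 * β := by positivity
  have hb0 : ∀ y, 0 ≤ b y := by
    intro y
    rw [hbd]
    exact div_nonneg (stp'_nn _) hb2.le
  have hb1 : ∀ y, b y ≤ 1 / β := by
    intro y
    rw [hbd]
    calc _ ≤ 2 / (2 * β) := div_le_div_of_nonneg_right (stp'_le _) hb2.le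
      _ = _ := by field_simp
  have hGne : ∀ y, G y ≠ 0 ∨ b y ≠ 0 → -β < ww κ q g z y := by
    intro y h
    have h1 : 0 < (ww κ q g z y + β) / (2 * β) := by
      rcases h with h | h
      · rw [hGd] at h
        exact stp_ne h
      · have h2 : stp' ((ww κ q g z y + β) / (2 * β)) ≠ 0 := by
          intro h0
          apply h
          rw [hbd]
          simp only [h0, zero_div]
        exact (stp'_ne h2).1
    rw [div_pos_iff_of_pos_right hb2] at h1
    linarith
  have hG0 : ∀ y, 0 ≤ G y := by intro y; rw [hGd]; exact stp_nn _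
  have hGl : ∀ y, G y ≤ 1 := by intro y; rw [hGd]; exact stp_le _
  -- the support of the second family
  have hnear : ∀ y, -β < ww κ q g z y → uu κ ρ g x y < 8 * β → κ * ds z q y < 52 * β := by
    intro y h1 h2
    have h3 := uu_diff (κ := κ) (ρ := ρ) (g := g) (x := x) hκ hρ y z
    have h4 := len_le_ds z hq0 y
    have h5 : κ / 2 * len (y - z) ≤ κ / 2 * ds z q y := mul_le_mul_of_nonneg_left h4 (by positivity)
    have h6 : g y - g z = ww κ q g z y + 3 * κ / 4 * ds z q y := by unfold ww; ring
    rw [huz'] at h3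
    linarith
  have hnear2 : ∀ y, -β < ww κ q g z y → uu κ ρ g x y < 8 * β → ds z q y < r / 1024 := by
    intro y h1 h2
    have h3 := hnear y h1 h2
    have h4 : κ * ds z q y < κ * (r / 1024) := by linarith
    exact lt_of_mul_lt_mul_left h4 hκ.le
  have hnorm : ∀ y, ds z q y < r / 1024 → ‖y - x‖ ≤ r := by
    intro y h1
    have h2 := norm_le_ds z hq0 y
    have h3 : ‖y - x‖ ≤ ‖y - z‖ + ‖z - x‖ := norm_sub_le_norm_sub_add_norm_sub y z x
    linarith
  have hP'ne1 : ∀ y, PS κ ρ g x r' y ≠ 1 → uu κ ρ g x y < 8 * β := by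
    intro y h
    have := PS_ne1 hκ hr' h
    linarith
  have hQ1 : ContDiff ℝ 1 fun y => 1 - PS κ ρ g x r' y := contDiff_const.sub (PS_c1 hgs x hρ r')
  have hQf : ∀ y n, fderiv ℝ (fun y => 1 - PS κ ρ g x r' y) y n
      = -(aa κ ρ g x r' y * fderiv ℝ (uu κ ρ g x) y n) := by
    intro y n
    have h1 := (((PS_c1 (κ := κ) hgs x hρ r').differentiable one_ne_zero y).hasFDerivAt.const_sub
      1).fderiv
    rw [h1, neg_apply, PS_fd hgs x hρ]
  have hZ2 := wd_mul hL hG1 hQ1 (s := r) hrR (fun y hy => by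
    have h2 := hGne y (Or.inl (left_ne_zero_of_mul hy))
    have h4 : PS κ ρ g x r' y ≠ 1 := fun h5 => right_ne_zero_of_mul hy (by rw [h5, sub_self])
    exact hnorm y (hnear2 y h2 (hP'ne1 y h4)))
  -- the first test function
  have hT1 := TT_c1 (κ := κ) hgs x hρ r
  have hD1 : ContDiff ℝ 1 fun y => PS κ ρ g x r' y - PS κ ρ g x r y :=
    (PS_c1 hgs x hρ r').sub (PS_c1 hgs x hρ r)
  have hZ1 := wd_mul hL hT1 hD1 (s := r) hrR (fun y hy => by
    have h2 := TT_ne hκ hr (left_ne_zero_of_mul hy)
    have h4 : PS κ ρ g x r y ≠ 1 := by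
      intro h5
      apply right_ne_zero_of_mul hy
      have h6 := PS_le (κ := κ) (ρ := ρ) (g := g) (x := x) (r := r') y
      have h7 := PS_mono (ρ := ρ) (g := g) (x := x) hκ hr' hrr y
      rw [h5] at h7 ⊢
      linarith
    have := supp1 hκ h2 (PS_ne1 hκ hr h4)
    linarith [norm_le_ds x hρ y])
  have hc1 : Continuous fun y => TT κ ρ g x r y * fderiv ℝ (fun y => PS κ ρ g x r' y
      - PS κ ρ g x r y) y (W y)
        + (PS κ ρ g x r' y - PS κ ρ g x r y) * fderiv ℝ (TT κ ρ g x r) y (W y) :=
    (hT1.continuous.mul (fdW_cont hD1 hL.wd.cont)).add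
      (hD1.continuous.mul (fdW_cont hT1 hL.wd.cont))
  have hc2 : Continuous fun y => G y * fderiv ℝ (fun y => 1 - PS κ ρ g x r' y) y (W y)
        + (1 - PS κ ρ g x r' y) * fderiv ℝ G y (W y) :=
    (hG1.continuous.mul (fdW_cont hQ1 hL.wd.cont)).add
      (hQ1.continuous.mul (fdW_cont hG1 hL.wd.cont))
  have hZ : ∫ y in closedBall x R, ((TT κ ρ g x r y * fderiv ℝ (fun y => PS κ ρ g x r' y
      - PS κ ρ g x r y) y (W y)
        + (PS κ ρ g x r' y - PS κ ρ g x r y) * fderiv ℝ (TT κ ρ g x r) y (W y))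
      + (G y * fderiv ℝ (fun y => 1 - PS κ ρ g x r' y) y (W y)
        + (1 - PS κ ρ g x r' y) * fderiv ℝ G y (W y))) = 0 := by
    rw [integral_add (int_cont hc1 x R) (int_cont hc2 x R), hZ1, hZ2, add_zero]
  -- the small cube
  have hzr : closedBall z q ⊆ closedBall x r := by
    intro y hy
    rw [mem_closedBall, dist_eq_norm] at hy ⊢
    have h3 : ‖y - x‖ ≤ ‖y - z‖ + ‖z - x‖ := norm_sub_le_norm_sub_add_norm_sub y z x
    linarith
  have hzR : closedBall z q ⊆ closedBall x R := hzr.trans (closedBall_subset_closedBall hrR)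
  have i1 : IntegrableOn (fun y => (closedBall z q).indicator (fun y => 512 / r * f y) y)
      (closedBall x R) :=
    (int_cont (continuous_const.mul hL.fc) x R).indicator isClosed_closedBall.measurableSet
  have i2 := int_cont (pr_cont (κ := κ) hL x hρ r') x R
  have h1 := int_cmp (x := x) (R := R)
    (A := fun y => (closedBall z q).indicator (fun y => 512 / r * f y) y + pr κ ρ g x W m r' y)
    (B := pr κ ρ g x W m r)
    (M := fun y => ((128 / (κ * r') + 32 / (κ * r)) + 1 / β) * m y) (s := r)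
    (i1.add i2) (pr_cont hL x hρ r) (hc1.add hc2)
    (continuous_const.mul hL.mc) hrR hZ (fun y hy => ?_)
  · rw [integral_add i1 i2, setIntegral_indicator isClosed_closedBall.measurableSet,
      inter_eq_right.2 hzR, integral_const_mul, integral_const_mul] at h1
    have hM : 0 ≤ ∫ y in closedBall x r, m y := integral_nonneg hL.m0
    have e1 : AA κ ρ R g x W m r = ∫ y in closedBall x R, pr κ ρ g x W m r y := rfl
    have e2 : AA κ ρ R g x W m r' = ∫ y in closedBall x R, pr κ ρ g x W m r' y := rfl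
    rw [← e1, ← e2] at h1
    have h2 : r / 512 * (512 / r * (∫ y in closedBall z q, f y) + AA κ ρ R g x W m r')
        ≤ r / 512 * (AA κ ρ R g x W m r
          + ((128 / (κ * r') + 32 / (κ * r)) + 1 / β) * ∫ y in closedBall x r, m y) :=
      mul_le_mul_of_nonneg_left h1 (by positivity)
    have e3 : r / 512 * (512 / r * ∫ y in closedBall z q, f y) = ∫ y in closedBall z q, f y := by
      field_simp
    have e4 : r / 512 * ((128 / (κ * r') + 32 / (κ * r)) + 1 / β) ≤ 1024 / κ := by
      rw [hr'd, hβ]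
      have : r / 512 * ((128 / (κ * (r / 256)) + 32 / (κ * r)) + 1 / (κ / 65536 * r))
          = 98336 / 512 / κ := by
        field_simp
        norm_num
      rw [this]
      exact div_le_div_of_nonneg_right (by norm_num) hκ.le
    have e5 := mul_le_mul_of_nonneg_right e4 hM
    rw [mul_add, e3, mul_add] at h2
    linarith
  · have hf := f_nn hL hy
    have hm := hL.m0 y
    have hu := hu_nn hL hκ x hρ hy
    have hw := hw_lo hL hκ z hq0 hy
    have ha' := aa_nn (ρ := ρ) (g := g) (x := x) hκ hr' y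
    have hP0 := PS_nn (κ := κ) (ρ := ρ) (g := g) (x := x) (r := r') y
    have hP1 := PS_le (κ := κ) (ρ := ρ) (g := g) (x := x) (r := r') y
    have hcmp := cmp_pt hκ hρ hL hr' hrr hy
    simp only [Pi.add_apply]
    rw [hQf, hGf]
    -- the two families are disjoint
    have k1 : pr κ ρ g x W m r' y
        + G y * (aa κ ρ g x r' y * (fderiv ℝ (uu κ ρ g x) y (W y) + m y))
        ≤ TT κ ρ g x r y * (aa κ ρ g x r' y * (fderiv ℝ (uu κ ρ g x) y (W y) + m y)) := by
      rw [pr_eq, ← add_mul]
      by_cases h0 : aa κ ρ g x r' y = 0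
      · rw [h0]
        simp
      obtain ⟨a1, a2⟩ := aa_ne hκ hr' h0
      refine mul_le_mul_of_nonneg_right ?_ (mul_nonneg ha' hu)
      by_cases hGy : G y = 0
      · rw [hGy, add_zero]
        exact TT_mono hκ hr' hrr y
      · have b1 := hGne y (Or.inl hGy)
        have b2 := hnear2 y b1 (by linarith)
        have b3 : TT κ ρ g x r' y = 0 := by
          by_contra h3
          have b4 := supp1 hκ (TT_ne hκ hr' h3) a2
          have b5 := norm_le_ds x hρ y
          have b6 := norm_le_ds z hq0 y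
          have b7 : ‖z - x‖ ≤ ‖z - y‖ + ‖y - x‖ := norm_sub_le_norm_sub_add_norm_sub z y x
          rw [norm_sub_rev z y] at b7
          rw [hr'd] at b4
          linarith
        have b8 : TT κ ρ g x r y = 1 := by
          refine TT_one hκ hr ?_
          rw [ww_eq]
          have c1 := ds_le x hρ y
          have c2 : len (y - x) ≤ 1.75 * (r / 1024 + r / 32) := by
            refine (len_le_norm _).trans ?_
            have c3 : ‖y - x‖ ≤ ‖y - z‖ + ‖z - x‖ := norm_sub_le_norm_sub_add_norm_sub y z x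
            have c4 := norm_le_ds z hq0 y
            exact mul_le_mul sqrt3_lt.le (by linarith) (norm_nonneg _) (by norm_num)
          have c5 : ds x ρ y ≤ r / 8 := by linarith
          have c6 : κ * ds x ρ y ≤ κ * (r / 8) := mul_le_mul_of_nonneg_left c5 hκ.le
          have c7 : 0 < κ * r' := by positivity
          linarith
        rw [b3, b8, zero_add]
        exact hGl y
    -- the second family
    have k2 : (closedBall z q).indicator (fun y => 512 / r * f y) y
        ≤ (1 - PS κ ρ g x r' y) * b y * (κ / 4 * f y) := by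
      by_cases hyz : y ∈ closedBall z q
      · rw [indicator_of_mem hyz]
        rw [mem_closedBall, dist_eq_norm] at hyz
        have g1 : len (y - z) ≤ 1.75 * q := by
          refine (len_le_norm _).trans ?_
          exact mul_le_mul sqrt3_lt.le hyz (norm_nonneg _) (by norm_num)
        have g2 := ds_le2 z hq0 hyz
        have g4 := ww_le (x := z) (y := y) hκ hq0 hL.lip
        have g5 := ww_ge (κ := κ) (ρ := q) (x := z) (y := y) hL.lip
        have g6 : 3 * κ / 4 * ds z q y ≤ 3 * 1 / 4 * (2 * q) :=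
          mul_le_mul (by linarith) g2 (ds_pos z hq0 y).le (by norm_num)
        have g3 : uu κ ρ g x y ≤ -(4 * β) + 3 / 2 * (1.75 * q) := by
          have h3 := uu_lip (x := x) (ρ := ρ) hκ hρ hL.lip y z
          rw [huz'] at h3
          have h4 : (1 + κ / 2) * len (y - z) ≤ 3 / 2 * (1.75 * q) :=
            mul_le_mul (by linarith) g1 (len_nonneg _) (by norm_num)
          linarith
        rw [PS_zero hκ hr' (by linarith), sub_zero, one_mul]
        have g7 : 1 ≤ stp' ((ww κ q g z y + β) / (2 * β)) := by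
          have l1 : 0.29 ≤ (ww κ q g z y + β) / (2 * β) := by
            rw [le_div_iff₀ hb2]
            linarith
          have l2 : (ww κ q g z y + β) / (2 * β) ≤ 0.62 := by
            rw [div_le_iff₀ hb2]
            linarith
          rw [stp'_mid (by linarith) (by linarith)]
          nlinarith
        have g8 : 1 / (2 * β) ≤ b y := by
          rw [hbd]
          exact div_le_div_of_nonneg_right g7 hb2.le
        have g9 : 512 / r * f y ≤ 1 / (2 * β) * (κ / 4 * f y) := by
          rw [← mul_assoc]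
          refine mul_le_mul_of_nonneg_right ?_ hf
          rw [hβ]
          have : 1 / (2 * (κ / 65536 * r)) * (κ / 4) = 8192 / r := by
            field_simp
            norm_num
          rw [this]
          exact div_le_div_of_nonneg_right (by norm_num) hr.le
        exact g9.trans (mul_le_mul_of_nonneg_right g8 (by positivity))
      · rw [indicator_of_notMem hyz]
        exact mul_nonneg (mul_nonneg (by linarith) (hb0 y)) (by positivity)
    have k3 : (1 - PS κ ρ g x r' y) * b y * m y
        ≤ (closedBall x r).indicator (fun y => 1 / β * m y) y := by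
      by_cases hyr : y ∈ closedBall x r
      · rw [indicator_of_mem hyr]
        refine mul_le_mul_of_nonneg_right ?_ hm
        calc _ ≤ 1 * (1 / β) := mul_le_mul (by linarith) (hb1 y) (hb0 y) zero_le_one
          _ = _ := one_mul _
      · rw [indicator_of_notMem hyr]
        have h0 : (1 - PS κ ρ g x r' y) * b y = 0 := by
          by_contra h0
          have h2 := hGne y (Or.inr (right_ne_zero_of_mul h0))
          have h4 : PS κ ρ g x r' y ≠ 1 := fun h5 => left_ne_zero_of_mul h0 (by rw [h5, sub_self])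
          apply hyr
          rw [mem_closedBall, dist_eq_norm]
          exact hnorm y (hnear2 y h2 (hP'ne1 y h4))
        rw [h0, zero_mul]
    have k4 : (closedBall x r).indicator
          (fun y => ((128 / (κ * r') + 32 / (κ * r)) + 1 / β) * m y) y
        = (closedBall x r).indicator (fun y => (128 / (κ * r') + 32 / (κ * r)) * m y) y
          + (closedBall x r).indicator (fun y => 1 / β * m y) y := by
      by_cases hyr : y ∈ closedBall x r
      · rw [indicator_of_mem hyr, indicator_of_mem hyr, indicator_of_mem hyr]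
        ring
      · rw [indicator_of_notMem hyr, indicator_of_notMem hyr, indicator_of_notMem hyr, add_zero]
    rw [k4]
    have k5 : (1 - PS κ ρ g x r' y) * b y * (κ / 4 * f y)
        ≤ (1 - PS κ ρ g x r' y) * b y * (fderiv ℝ (ww κ q g z) y (W y) + m y) :=
      mul_le_mul_of_nonneg_left hw (mul_nonneg (by linarith) (hb0 y))
    have k6 : 0 ≤ G y * (aa κ ρ g x r' y * m y) := mul_nonneg (hG0 y) (mul_nonneg ha' hm)
    have e1 : (1 - PS κ ρ g x r' y) * b y * (fderiv ℝ (ww κ q g z) y (W y) + m y)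
        = (1 - PS κ ρ g x r' y) * (b y * fderiv ℝ (ww κ q g z) y (W y))
          + (1 - PS κ ρ g x r' y) * b y * m y := by ring
    have e2 : G y * (aa κ ρ g x r' y * (fderiv ℝ (uu κ ρ g x) y (W y) + m y))
        = G y * (aa κ ρ g x r' y * fderiv ℝ (uu κ ρ g x) y (W y))
          + G y * (aa κ ρ g x r' y * m y) := by ring
    have e3 : G y * -(aa κ ρ g x r' y * fderiv ℝ (uu κ ρ g x) y (W y))
        = -(G y * (aa κ ρ g x r' y * fderiv ℝ (uu κ ρ g x) y (W y))) := by ring
    rw [e1] at k5
    rw [e2] at k1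
    rw [e3]
    linarith

end Pool.Agent.J4H12.VL
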