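import Pool.Agent.J4H12.VL.Assem2
import Pool.Agent.J4H12.VL.TF
import Pool.Agent.J4H12.VL.Mol
import Pool.Agent.J4H12.VL.Pow
import Pool.Agent.J4H12.VL.Dirs
import Pool.Agent.J4H2.VL.Wd
import Pool.Agent.J4H42.VL.AnaS
import Pool.Agent.J4H56.VL.MorV
import Pool.Agent.J4H56.VL.PinV
import Pool.Agent.J4H71.VL.G
import Pool.Agent.Q85.VL.Cor

/-!
Project VL: at an interior singular point there are, in open intervals of times arbitrarily close
to the singular time, closed chains of vortex arcs for every orientation of the vorticity, and all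
the angles between the vorticities occur.
-/

set_option autoImplicit false

open MeasureTheory Set Metric Filter Topology
open scoped ContDiff
open H459R3.NS Pool.Agent.W268.NS Pool.Agent.Q67.VD
open Pool.Agent.Q199.VD

namespace Pool.Agent.J4H12.VL

open Pool.Agent.Q85.CC Pool.Agent.Q85.CL Pool.Agent.Q151.CC Pool.Agent.Q85.VL

set_option maxHeartbeats 1600000 in
/-- Without chains at a dense set of times there is no singular point. -/
theorem chain_Dn (hLy : StmLyapD) (hWd : StmWd) (hG : StmG) (hMol : StmMol) (hDm : StmDom)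
    {ν T E : ℝ} {Ω : Set V} {u : ℝ → V → V} {p : ℝ → V → ℝ} (hν : 0 < ν) (h : DSl ν T E Ω u p)
    {a : V} (ha : a ∈ Ω) (hs : Sing T u a) {T₀ ε R : ℝ} {m : ℝ → V → ℝ} (hT0 : 0 ≤ T₀)
    (hT₀ : T₀ < T) (hε : 0 < ε) (hR : 0 < R) (hmc : ∀ t ∈ Ioo T₀ T, Continuous (m t))
    (hm0 : ∀ t ∈ Ioo T₀ T, ∀ y, 0 ≤ m t y) (hK : Kato T₀ T a R m) {D : Set ℝ} (hDn : Dn D T₀ T)
    (hcon : ∀ t ∈ Ioo T₀ T, t ∈ D → ∃ θ : V → ℝ, Orient θ a R (vort (u t)) ∧
      ¬ Chained (fun y => θ y • vort (u t) y) {y | ‖y - a‖ ≤ R ∧ m t y < om (u t) y} ε) :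
    False := by
  obtain ⟨R', hR', hRR, hsub⟩ := small_ball h.openO ha hR
  obtain ⟨E', v, q, hL, hv⟩ := hDm ν T E Ω u p hν hs.pos h a R' hR' hsub
  obtain ⟨ε', hε'd⟩ : ∃ ε', ε' = min ε 1 := ⟨_, rfl⟩
  have hε' : 0 < ε' := by rw [hε'd]; exact lt_min hε one_pos
  have hε'1 : ε' ≤ 1 := by rw [hε'd]; exact min_le_right _ _
  have hε'ε : ε' ≤ ε := by rw [hε'd]; exact min_le_left _ _
  have hνi : 0 < ν⁻¹ := inv_pos.2 hν
  refine hs.not_bdd (back hν hR' hs.pos hv (hLy (ν * T) E' (ball a R') v q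
    (mul_pos hν hs.pos) hL (ν * T₀) (ε' / 2) (R' / 4) a (fun t y => 2 * (ν⁻¹ * m (t / ν) y + 1))
    {t | t / ν ∈ D}
    (by positivity) (mul_lt_mul_of_pos_left hT₀ hν) (by positivity) (by positivity)
    (closedBall_subset_ball (by linarith)) (kato_rem hν (by linarith) hmc hm0 hK) ?_ ?_))
  · intro s₁ s₂ h1 h2 h3
    obtain ⟨t, ht, htD⟩ := hDn (s₁ / ν) (s₂ / ν) (by rw [le_div_iff₀ hν, mul_comm]; exact h1)
      (div_lt_div_of_pos_right h2 hν) (by rw [div_le_iff₀ hν, mul_comm]; exact h3)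
    refine ⟨ν * t, ⟨?_, ?_⟩, ?_⟩
    · have := (div_lt_iff₀ hν).1 ht.1
      linarith
    · have := (lt_div_iff₀ hν).1 ht.2
      linarith
    · show ν * t / ν ∈ D
      rwa [mul_div_cancel_left₀ _ hν.ne']
  intro t' ht' htD'
  have htD'' : t' / ν ∈ D := htD'
  have hνt : 0 < t' := (by positivity : 0 ≤ ν * T₀).trans_lt ht'.1
  have hI' : t' ∈ Ioo 0 (ν * T) := ⟨hνt, ht'.2⟩
  have ht : t' / ν ∈ Ioo T₀ T := by
    refine ⟨?_, ?_⟩
    · rw [lt_div_iff₀ hν, mul_comm]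
      exact ht'.1
    · rw [div_lt_iff₀ hν, mul_comm]
      exact ht'.2
  have hI : t' / ν ∈ Ioo 0 T := ⟨by positivity, ht.2⟩
  have htν : ν * (t' / ν) = t' := by field_simp
  obtain ⟨t, htd⟩ : ∃ t, t = t' / ν := ⟨_, rfl⟩
  obtain ⟨θ, hθ, hnc⟩ := hcon _ ht htD''
  rw [← htd] at ht hI htν hθ hnc ⊢
  have hsm : SM (v t') := slice_u hL.toLEq hI'
  have hev : ∀ y, ‖y - a‖ ≤ R' / 2 → ∀ᶠ z in 𝓝 y, v t' z = ν⁻¹ • u t z := by
    intro y hy
    refine ball_ev (a := a) (R := R') (fun z hz => ?_) (by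
      rw [Metric.mem_ball, dist_eq_norm]
      linarith)
    rw [← hv _ hI z hz, htν]
  have hvt : ∀ y, ‖y - a‖ ≤ R' / 2 → vort (v t') y = ν⁻¹ • vort (u t) y := fun y hy =>
    vort_evD (hev y hy)
  have hom : ∀ y, ‖y - a‖ ≤ R' / 2 → om (v t') y = ν⁻¹ * om (u t) y := fun y hy =>
    om_evD hνi.le (hev y hy)
  have hθ' : Orient θ a (R' / 2) (vort (v t')) := by
    refine ⟨hθ.1, hθ.2.mono ?_⟩
    rintro y ⟨hy1, hy2⟩
    refine ⟨by linarith, fun h0 => hy2 ?_⟩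
    rw [hvt y hy1, h0, smul_zero]
  have hnc' : ¬ Chained (fun y => θ y • vort (v t') y)
      {y | ‖y - a‖ ≤ R' / 2 ∧ ν⁻¹ * m t y < om (v t') y} ε' := by
    intro hc
    have hc2 : Chained (fun y => θ y • vort (u t) y)
        {y | ‖y - a‖ ≤ R' / 2 ∧ ν⁻¹ * m t y < om (v t') y} ε' := by
      refine hc.congr hνi fun y hy => ?_
      rw [hvt y hy.1, smul_comm]
    refine hnc (hc2.mono ?_ hε'ε)
    rintro y ⟨hy1, hy2⟩
    refine ⟨by linarith, ?_⟩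
    rw [hom y hy1] at hy2
    exact lt_of_mul_lt_mul_left hy2 hνi.le
  obtain ⟨g, hg1, hg2⟩ := hG _ _ a (R' / 2) ε' (fun y hy => hy.1) hε' hnc'
  obtain ⟨G, hGs, hGl, hGm⟩ := hMol (v t') θ (fun y => ν⁻¹ * m t y) g a (R' / 2) ε' hsm
    (by positivity) hε' hε'1 (continuous_const.mul (hmc t ht))
    (fun y => mul_nonneg hνi.le (hm0 t ht y)) hθ' hg1 hg2
  obtain ⟨W, hW, hWe⟩ := hWd (v t') θ a (R' / 2) hsm (by positivity) hθ'
  refine ⟨W, G, wd_mono hW (by rw [sub_self, norm_zero]; linarith), om_contL hsm,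
    continuous_const.mul ((continuous_const.mul (hmc t ht)).add continuous_const),
    fun y => ?_, fun y hy => ?_, hGs, hGl, fun y hy => ?_⟩
  · have := mul_nonneg hνi.le (hm0 t ht y)
    show 0 ≤ 2 * (ν⁻¹ * m t y + 1)
    linarith
  · rw [mem_closedBall, dist_eq_norm] at hy
    rw [hWe y (by linarith), len_orient hθ']
    exact le_rfl
  · rw [mem_closedBall, dist_eq_norm] at hy
    rw [hWe y (by linarith)]
    exact hGm y (by linarith)

/-- The continuity of the vorticity in a closed cube in the domain. -/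
lemma vort_cont_ball {ν T E : ℝ} {Ω : Set V} {u : ℝ → V → V} {p : ℝ → V → ℝ} (hν : 0 < ν)
    (hT : 0 < T) (h : DSl ν T E Ω u p) {R : ℝ} {a : V} (hR : 0 < R) (hΩ : closedBall a R ⊆ Ω)
    {t : ℝ} (ht : t ∈ Ioo 0 T) : ContinuousOn (vort (u t)) (closedBall a R) := by
  obtain ⟨R₁, hR₁, hsub⟩ : ∃ R₁, R < R₁ ∧ closedBall a R₁ ⊆ Ω := by
    obtain ⟨δ, hδ, hd⟩ := (isCompact_closedBall a R).exists_cthickening_subset_open h.openO hΩ
    refine ⟨R + δ, by linarith, ?_⟩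
    rw [cthickening_closedBall hδ.le hR.le] at hd
    rwa [add_comm]
  obtain ⟨E', v, q, hL, hv⟩ := Pool.Agent.Q284.CL.dom ν T E Ω u p hν hT h a R₁ (by linarith) hsub
  have hνt : ν * t ∈ Ioo 0 (ν * T) := ⟨mul_pos hν ht.1, mul_lt_mul_of_pos_left ht.2 hν⟩
  have hsm : SM (v (ν * t)) := slice_u hL.toLEq hνt
  have h1 : ∀ z ∈ closedBall a R, vort (u t) z = ν • vort (v (ν * t)) z := by
    intro z hz
    have hz' : ‖z - a‖ ≤ R := by rwa [mem_closedBall, dist_eq_norm] at hz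
    have h2 : ∀ᶠ w in 𝓝 z, v (ν * t) w = ν⁻¹ • u t w :=
      ball_ev (a := a) (R := R₁) (fun w hw => hv t ht w hw) (by
        rw [Metric.mem_ball, dist_eq_norm]
        linarith)
    rw [vort_evD h2, smul_smul, mul_inv_cancel₀ hν.ne', one_smul]
  exact (((Pool.Agent.Q151.CC.vort_cont hsm).const_smul ν).continuousOn (s := closedBall a R)).congr
    h1

/-- A linear function of the position: a closed chain is in no double cone. -/
lemma cone_of_chain {v : V → V} {a : V} {R κ : ℝ} (hv : ContinuousOn (vort v) (closedBall a R))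
    {D : Set V} (hD : ∀ y ∈ D, ‖y - a‖ ≤ R ∧ vort v y ≠ 0) (hκ : 0 < κ)
    (hch : ∀ θ : V → ℝ, Orient θ a R (vort v) → Chained (fun y => θ y • vort v y) D κ) :
    ∀ e : V, e ⬝ᵥ e = 1 → ∃ y, ‖y - a‖ ≤ R ∧ |e ⬝ᵥ vort v y| < κ * om v y := by
  intro e he
  by_contra hcon
  push Not at hcon
  obtain ⟨θ, hθ⟩ : ∃ θ : V → ℝ, θ = fun y => if 0 < e ⬝ᵥ vort v y then 1 else -1 := ⟨_, rfl⟩
  have hec : ContinuousOn (fun y => e ⬝ᵥ vort v y) (closedBall a R) :=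
    (by fun_prop : Continuous fun w : V => e ⬝ᵥ w).comp_continuousOn hv
  have hor : Orient θ a R (vort v) := by
    refine ⟨fun y => ?_, ?_⟩
    · rw [hθ]
      simp only
      split_ifs
      · exact Or.inl rfl
      · exact Or.inr rfl
    · rintro y ⟨hy, hy0⟩
      have h1 := hcon y hy
      have h2 : 0 < om v y := (vort_ne_iff _ _).1 hy0
      have h3 : 0 < |e ⬝ᵥ vort v y| := lt_of_lt_of_le (by positivity) h1
      have hyb : y ∈ closedBall a R := by rwa [mem_closedBall, dist_eq_norm]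
      have hsub : {y | ‖y - a‖ ≤ R ∧ vort v y ≠ 0} ⊆ closedBall a R := by
        rintro z ⟨hz, -⟩
        rwa [mem_closedBall, dist_eq_norm]
      have hw : ContinuousWithinAt (fun y => e ⬝ᵥ vort v y) {y | ‖y - a‖ ≤ R ∧ vort v y ≠ 0} y :=
        (hec y hyb).mono hsub
      rcases lt_or_gt_of_ne (abs_pos.1 h3) with h4 | h4
      · have h5 : ∀ᶠ z in 𝓝[{y | ‖y - a‖ ≤ R ∧ vort v y ≠ 0}] y, θ z = -1 := by
          filter_upwards [hw.eventually (gt_mem_nhds h4)] with z hz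
          rw [hθ]
          simp only
          rw [if_neg (not_lt.2 hz.le)]
        have h6 : θ y = -1 := by
          rw [hθ]
          simp only
          rw [if_neg (not_lt.2 h4.le)]
        exact (continuousWithinAt_const (b := (-1 : ℝ))).congr_of_eventuallyEq h5 h6
      · have h5 : ∀ᶠ z in 𝓝[{y | ‖y - a‖ ≤ R ∧ vort v y ≠ 0}] y, θ z = 1 := by
          filter_upwards [hw.eventually (lt_mem_nhds h4)] with z hz
          rw [hθ]
          simp only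
          rw [if_pos hz]
        have h6 : θ y = 1 := by
          rw [hθ]
          simp only
          rw [if_pos h4]
        exact (continuousWithinAt_const (b := (1 : ℝ))).congr_of_eventuallyEq h5 h6
  have hθa : ∀ y, θ y * (e ⬝ᵥ vort v y) = |e ⬝ᵥ vort v y| := by
    intro y
    rw [hθ]
    simp only
    split_ifs with h
    · rw [one_mul, abs_of_pos h]
    · rw [abs_of_nonpos (not_lt.1 h)]
      ring
  have hlen : ∀ y, len (θ y • vort v y) = om v y := fun y => len_orient hor y _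
  refine not_chained (g := fun y => e ⬝ᵥ y) ((lin_smooth e).differentiable one_ne_zero)
    (lin_lip he) (z := fun y => θ y • vort v y) (D := D) (ε := κ) ?_ ?_ (hch θ hor)
  · intro y hy
    rw [hlen]
    exact (vort_ne_iff _ _).1 (hD y hy).2
  · intro y hy
    rw [hlen, lin_deriv, dotProduct_smul, smul_eq_mul, hθa]
    exact hcon y (hD y hy).1

/-- A chain contains a point of `D`. -/
lemma chained_ne {z : V → V} {D : Set V} {ε : ℝ} (h : Chained z D ε) : ∃ y, y ∈ D := by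
  obtain ⟨n, p, q, l, hn, -, hA, -⟩ := h
  obtain ⟨hl, γ, -, -, h2⟩ := hA 0 hn
  exact ⟨_, (h2 0 ⟨le_rfl, hl.le⟩).1⟩

/-- The theorem. -/
theorem final (hGood : StmGoodS) {ν T E : ℝ} {Ω : Set V} {u : ℝ → V → V} {p : ℝ → V → ℝ}
    (hν : 0 < ν) (h : DSl ν T E Ω u p) {a : V} {R : ℝ} (hR : 0 < R) (hΩ : closedBall a R ⊆ Ω)
    (hs : Sing T u a) {T₀ ε : ℝ} (hT0 : 0 ≤ T₀) (hT₀ : T₀ < T) (hε : 0 < ε) {m : ℝ → V → ℝ}
    (hmc : ∀ t ∈ Ioo T₀ T, Continuous (m t)) (hm0 : ∀ t ∈ Ioo T₀ T, ∀ y, 0 ≤ m t y)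
    (hK : Kato T₀ T a R m) :
    ∃ t₁ t₂ : ℝ, T₀ ≤ t₁ ∧ t₁ < t₂ ∧ t₂ ≤ T ∧ ∀ t ∈ Ioo t₁ t₂,
      (∀ θ : V → ℝ, Orient θ a R (vort (u t)) →
        Chained (fun y => θ y • vort (u t) y) {y | ‖y - a‖ ≤ R ∧ m t y < om (u t) y} ε) ∧
      (∀ e : V, e ⬝ᵥ e = 1 → ∃ y, ‖y - a‖ ≤ R ∧ |e ⬝ᵥ vort (u t) y| < ε * om (u t) y) ∧
      ∀ x, ‖x - a‖ ≤ R → vort (u t) x ≠ 0 → ∀ c δ : ℝ, ε ≤ c → c ≤ 1 → 0 < δ →
        ∃ y, ‖y - a‖ ≤ R ∧ vort (u t) y ≠ 0 ∧
          |(|vort (u t) x ⬝ᵥ vort (u t) y| - c * (om (u t) x * om (u t) y))|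
            < δ * (om (u t) x * om (u t) y) := by
  have ha : a ∈ Ω := hΩ (mem_closedBall_self hR.le)
  obtain ⟨D, hD⟩ : ∃ D : Set ℝ, D = {t | ∃ θ : V → ℝ, Orient θ a R (vort (u t)) ∧
      ¬ Chained (fun y => θ y • vort (u t) y) {y | ‖y - a‖ ≤ R ∧ m t y < om (u t) y} ε} :=
    ⟨_, rfl⟩
  have hnd : ¬ Dn D T₀ T := fun hDn =>
    chain_Dn (lyapD Pool.Agent.Q284.CL.velL stmEnL stmEnS Pool.Agent.Q95.CL.regK
      Pool.Agent.Q81.CL.l1L hGood Pool.Agent.J4H42.VL.anaS (Pool.Agent.J4H56.VL.morV ub cmp lb)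
      (Pool.Agent.J4H56.VL.pinV ub cmp lb fc tf) ks) Pool.Agent.J4H2.VL.wd stmG mol
      Pool.Agent.Q284.CL.dom hν h ha hs hT0 hT₀ hε hR hmc hm0 hK hDn (fun t _ htD => by
        rw [hD] at htD
        exact htD)
  unfold Dn at hnd
  push Not at hnd
  obtain ⟨t₁, t₂, h1, h2, h3, h4⟩ := hnd
  refine ⟨t₁, t₂, h1, h2, h3, fun t ht => ?_⟩
  have htT : t ∈ Ioo T₀ T := ⟨h1.trans_lt ht.1, ht.2.trans_le h3⟩
  have ht0 : t ∈ Ioo 0 T := ⟨hT0.trans_lt htT.1, htT.2⟩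
  have hch : ∀ θ : V → ℝ, Orient θ a R (vort (u t)) →
      Chained (fun y => θ y • vort (u t) y) {y | ‖y - a‖ ≤ R ∧ m t y < om (u t) y} ε := by
    intro θ hθ
    by_contra hc
    refine h4 t ht ?_
    rw [hD]
    exact ⟨θ, hθ, hc⟩
  have hcone := cone_of_chain (vort_cont_ball hν hs.pos h hR hΩ ht0)
    (D := {y | ‖y - a‖ ≤ R ∧ m t y < om (u t) y})
    (fun y hy => ⟨hy.1, (vort_ne_iff _ _).2 ((hm0 t htT y).trans_lt hy.2)⟩) hε hch
  exact ⟨hch, hcone, fun x hx hx0 c δ hc hc1 hδ =>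
    angles hν hs.pos h hR hΩ ht0 hε hcone hx hx0 hc hc1 hδ⟩

lemma norm_sq_le_nsq (w : V → V) (y : V) : ‖w y‖ ^ 2 ≤ W221.NS.nsq w y := by
  have h0 : 0 ≤ W221.NS.nsq w y := by
    unfold W221.NS.nsq
    positivity
  have h1 : ‖w y‖ ≤ √(W221.NS.nsq w y) := by
    rw [pi_norm_le_iff_of_nonneg (Real.sqrt_nonneg _)]
    intro i
    rw [Real.norm_eq_abs]
    refine Real.abs_le_sqrt ?_
    unfold W221.NS.nsq
    exact Finset.single_le_sum (f := fun j => w y j ^ 2) (fun j _ => sq_nonneg _)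
      (Finset.mem_univ i)
  calc ‖w y‖ ^ 2 ≤ √(W221.NS.nsq w y) ^ 2 := by gcongr
    _ = _ := Real.sq_sqrt h0

/-- The theorem with a power of the velocity in the threshold. -/
theorem final2 (hGood : StmGoodS) {ν T E : ℝ} {Ω : Set V} {u : ℝ → V → V} {p : ℝ → V → ℝ}
    (hν : 0 < ν) (h : DSl ν T E Ω u p) {a : V} {R : ℝ} (hR : 0 < R) (hΩ : closedBall a R ⊆ Ω)
    (hs : Sing T u a) {T₀ ε α M : ℝ} (hT0 : 0 ≤ T₀) (hT₀ : T₀ < T) (hε : 0 < ε) (hα0 : 0 ≤ α)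
    (hα : α < 4 / 3) (hM : 0 ≤ M) {m : ℝ → V → ℝ}
    (hmc : ∀ t ∈ Ioo T₀ T, Continuous (m t)) (hm0 : ∀ t ∈ Ioo T₀ T, ∀ y, 0 ≤ m t y)
    (hK : Kato T₀ T a R m) :
    ∃ t₁ t₂ : ℝ, T₀ ≤ t₁ ∧ t₁ < t₂ ∧ t₂ ≤ T ∧ ∀ t ∈ Ioo t₁ t₂,
      (∀ θ : V → ℝ, Orient θ a R (vort (u t)) → Chained (fun y => θ y • vort (u t) y)
        {y | ‖y - a‖ ≤ R ∧ m t y + M * ‖u t y‖ ^ α < om (u t) y} ε) ∧
      (∀ e : V, e ⬝ᵥ e = 1 → ∃ y, ‖y - a‖ ≤ R ∧ |e ⬝ᵥ vort (u t) y| < ε * om (u t) y) ∧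
      ∀ x, ‖x - a‖ ≤ R → vort (u t) x ≠ 0 → ∀ c δ : ℝ, ε ≤ c → c ≤ 1 → 0 < δ →
        ∃ y, ‖y - a‖ ≤ R ∧ vort (u t) y ≠ 0 ∧
          |(|vort (u t) x ⬝ᵥ vort (u t) y| - c * (om (u t) x * om (u t) y))|
            < δ * (om (u t) x * om (u t) y) := by
  have hI : ∀ t ∈ Ioo T₀ T, t ∈ Ioo 0 T := fun t ht => ⟨hT0.trans_lt ht.1, ht.2⟩
  have hcu : ∀ t ∈ Ioo T₀ T, ContinuousOn (u t) (closedBall a R) := by
    intro t ht
    have h1 : ContinuousOn (fun z : ℝ × V => u z.1 z.2) (Ioo 0 T ×ˢ Ω) := h.smooth_u.continuousOn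
    exact h1.comp (f := fun y : V => (t, y)) (by fun_prop) fun y hy => ⟨hI t ht, hΩ hy⟩
  have hE0 : 0 ≤ E := by
    have ht : (T₀ + T) / 2 ∈ Ioo T₀ T := ⟨by linarith, by linarith⟩
    refine le_trans ?_ (h.en _ (hI _ ht))
    exact integral_nonneg fun y => by
      show 0 ≤ W221.NS.nsq _ y
      unfold W221.NS.nsq
      positivity
  obtain ⟨m', h1, h2, h3, h4⟩ := kato_pow (w := u) hR hE0 hα0 hα hM hcu (fun t ht => by
    have h5 : ∫ y in closedBall a R, ‖u t y‖ ^ 2 ≤ ∫ y in closedBall a R, W221.NS.nsq (u t) y :=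
      setIntegral_mono_on
        ((((hcu t ht).norm.pow 2)).integrableOn_compact (isCompact_closedBall a R))
        ((h.en_int t (hI t ht)).mono_set hΩ) isClosed_closedBall.measurableSet
        fun y _ => norm_sq_le_nsq _ _
    have h6 : ∫ y in closedBall a R, W221.NS.nsq (u t) y ≤ ∫ y in Ω, W221.NS.nsq (u t) y :=
      setIntegral_mono_set (h.en_int t (hI t ht)) (Eventually.of_forall fun y => by
        show 0 ≤ W221.NS.nsq _ y
        unfold W221.NS.nsq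
        positivity) hΩ.eventuallyLE
    exact h5.trans (h6.trans (h.en t (hI t ht)))) hmc hm0 hK
  obtain ⟨t₁, t₂, a1, a2, a3, a4⟩ := final hGood hν h hR hΩ hs hT0 hT₀ hε h1 h2 h3
  refine ⟨t₁, t₂, a1, a2, a3, fun t ht => ?_⟩
  have htT : t ∈ Ioo T₀ T := ⟨a1.trans_lt ht.1, ht.2.trans_le a3⟩
  obtain ⟨b1, b2, b3⟩ := a4 t ht
  have hset : {y | ‖y - a‖ ≤ R ∧ m t y + M * ‖u t y‖ ^ α < om (u t) y}
      = {y | ‖y - a‖ ≤ R ∧ m' t y < om (u t) y} := by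
    ext y
    constructor
    · rintro ⟨c1, c2⟩
      exact ⟨c1, by rwa [h4 t htT y c1]⟩
    · rintro ⟨c1, c2⟩
      exact ⟨c1, by rwa [h4 t htT y c1] at c2⟩
  rw [hset]
  exact ⟨b1, b2, b3⟩

end Pool.Agent.J4H12.VL
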